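import Pool.Agent.Lib.MP_1a91b9_ntT.Base
import Pool.Agent.Lib.MP_1a91b9_ntT.S4.Place
import Pool.Agent.Lib.MP_1a91b9_ntT.S4.Bad

/-!
# Stream TW: quadratic twists `y² = x³ + 16 d³` of `y² + y = x³`
-/

set_option autoImplicit false

namespace Pool.Agent.Lib.MP_1a91b9_ntT.TW

open WeierstrassCurve IsDedekindDomain NumberField Pool.Agent.Lib.MP_1a91b9_nt
open Pool.Agent.Lib.MP_1a91b9_ntT.S4

/-- The quadratic twist `y² = x³ + 16 d³` of `y² + y = x³` by `d`. -/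
def tw {R : Type*} [CommRing R] (d : R) : WeierstrassCurve R := ⟨0, 0, 0, 0, 16 * d ^ 3⟩

/-- The model `y² + a³ y = x³ + …` of the twist by `d = a² + 4 b`. -/
def twm {R : Type*} [CommRing R] (a b : R) : WeierstrassCurve R :=
  ⟨0, 0, a ^ 3, 0, 3 * a ^ 4 * b + 12 * a ^ 2 * b ^ 2 + 16 * b ^ 3⟩

section
variable {R : Type*} [CommRing R]

theorem tw_map {S : Type*} [CommRing S] (f : R →+* S) (d : R) : (tw d).map f = tw (f d) := by
  ext <;> simp [tw, map_ofNat]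

theorem twm_map {S : Type*} [CommRing S] (f : R →+* S) (a b : R) :
    (twm a b).map f = twm (f a) (f b) := by
  ext <;> simp [twm, map_ofNat]

theorem tw_Δ (d : R) : (tw d).Δ = -(2 ^ 12 * 3 ^ 3 * d ^ 6) := by
  simp only [tw, WeierstrassCurve.Δ, WeierstrassCurve.b₂, WeierstrassCurve.b₄,
    WeierstrassCurve.b₆, WeierstrassCurve.b₈]
  ring

theorem twm_Δ (a b : R) : (twm a b).Δ = -(3 ^ 3 * (a ^ 2 + 4 * b) ^ 6) := by
  simp only [twm, WeierstrassCurve.Δ, WeierstrassCurve.b₂, WeierstrassCurve.b₄,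
    WeierstrassCurve.b₆, WeierstrassCurve.b₈]
  ring

theorem tw_c₄ (d : R) : (tw d).c₄ = 0 := by
  simp only [tw, WeierstrassCurve.c₄, WeierstrassCurve.b₂, WeierstrassCurve.b₄]
  ring

theorem tw_c₆ (d : R) : (tw d).c₆ = (4 * d) ^ 3 * (fermatCubic R).c₆ := by
  simp only [tw, fermatCubic, WeierstrassCurve.c₆, WeierstrassCurve.b₂, WeierstrassCurve.b₄,
    WeierstrassCurve.b₆]
  ring

end

section
variable {k : Type*} [Field k]

/-- Scaling. -/
theorem exists_tw_scale (d α : k) (hα : α ≠ 0) :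
    ∃ C : WeierstrassCurve.VariableChange k, C • tw d = tw (d * α ^ 2) := by
  refine ⟨⟨(Units.mk0 α hα)⁻¹, 0, 0, 0⟩, ?_⟩
  rw [WeierstrassCurve.variableChange_def]
  ext
  · simp [tw]
  · simp [tw]
  · simp [tw]
  · simp [tw]
  · simp [tw]; ring

/-- The model `twm`. -/
theorem exists_twm (h2 : (2 : k) ≠ 0) (a b : k) :
    ∃ C : WeierstrassCurve.VariableChange k, C • tw (a ^ 2 + 4 * b) = twm a b := by
  refine ⟨⟨Units.mk0 2 h2, 0, 0, 4 * a ^ 3⟩, ?_⟩
  rw [WeierstrassCurve.variableChange_def]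
  ext
  · simp [tw, twm]
  · simp [tw, twm]
  · simp only [tw, twm, Units.val_inv_eq_inv_val, Units.val_mk0]
    field_simp
    ring
  · simp [tw, twm]
  · simp only [tw, twm, Units.val_inv_eq_inv_val, Units.val_mk0]
    field_simp
    ring

end

/-- The quadratic character of `d = a² + 4 b` at all finite places. -/
structure TwChi {F : Type*} [Field F] [NumberField F] (a b : 𝓞 F)
    (χ : HeightOneSpectrum (𝓞 F) → ℤ) : Prop where
  isChi : IsChi (a ^ 2 + 4 * b) χ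
  dy1 : ∀ v : HeightOneSpectrum (𝓞 F), (2 : 𝓞 F) ∈ v.asIdeal →
    (∃ c : 𝓞 F, c ^ 2 + a * c - b ∈ v.asIdeal) → χ v = 1
  dy2 : ∀ v : HeightOneSpectrum (𝓞 F), (2 : 𝓞 F) ∈ v.asIdeal →
    (¬ ∃ c : 𝓞 F, c ^ 2 + a * c - b ∈ v.asIdeal) → χ v = -1

end Pool.Agent.Lib.MP_1a91b9_ntT.TW
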