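import Pool.Agent.Lib.MP_1a91b9_ntT.S7.HalfTower
import Pool.Agent.Lib.MP_1a91b9_ntT.S4.TwistL

/-!
# The L-series of the twists in the half plane `3/2 < Re s`
-/

set_option autoImplicit false

namespace Pool.Agent.Lib.MP_1a91b9_ntT.TW

open NumberField IsDedekindDomain Filter Topology LSeries
open Pool.Agent.Lib.MP_1a91b9_ntT.S4 Pool.Agent.Lib.MP_1a91b9_ntT.S7 Pool.Agent.Lib.MP_1a91b9_nt

universe u

/-- The L-series of `W` continues analytically to `1/2 < Re s`, and does not vanish at `1`. -/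
def TwistGood {N : Type u} [Field N] [NumberField N] (W : WeierstrassCurve N) : Prop :=
  ∃ g : ℂ → ℂ, DifferentiableOn ℂ g {s : ℂ | 1 / 2 < s.re} ∧
    (∀ s : ℂ, 3 / 2 < s.re → g s = W.LSeries s) ∧ g 1 ≠ 0

theorem isOpen_half : IsOpen {s : ℂ | 1 / 2 < s.re} := isOpen_lt continuous_const Complex.continuous_re

/-- A function which is analytic on `1/2 < Re s` and agrees with the L-series for `2 < Re s`
agrees with it for `3/2 < Re s`. -/
theorem half_on {M : Type*} [Field M] [NumberField M] (W : WeierstrassCurve M)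
    (h1 : ∀ s : ℂ, 3 / 2 < s.re → LSeriesSummable ((↑) ∘ W.LFunction) s) {g : ℂ → ℂ}
    (hg : DifferentiableOn ℂ g {s : ℂ | 1 / 2 < s.re})
    (h2 : ∀ s : ℂ, 2 < s.re → g s = W.LSeries s) :
    ∀ s : ℂ, 3 / 2 < s.re → g s = W.LSeries s := by
  set b : ℕ → ℂ := (↑) ∘ W.LFunction with hb
  have hab : abscissaOfAbsConv b ≤ ((3 / 2 : ℝ) : EReal) := by
    refine LSeries.abscissaOfAbsConv_le_of_forall_lt_LSeriesSummable fun y hy => ?_
    exact h1 y (by simpa using hy)
  have hL : AnalyticOnNhd ℂ (LSeries b) {s : ℂ | 3 / 2 < s.re} := by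
    refine (LSeries_analyticOnNhd b).mono fun s hs => ?_
    exact hab.trans_lt (by exact_mod_cast hs)
  have hG : AnalyticOnNhd ℂ g {s : ℂ | 3 / 2 < s.re} := by
    refine (hg.analyticOnNhd isOpen_half).mono fun s hs => ?_
    have hs' : 3 / 2 < s.re := hs
    change 1 / 2 < s.re
    linarith
  have hc : IsPreconnected {s : ℂ | 3 / 2 < s.re} := (convex_halfSpace_re_gt _).isPreconnected
  have h3 : (3 : ℂ) ∈ {s : ℂ | 3 / 2 < s.re} := by norm_num
  have hev : g =ᶠ[𝓝 (3 : ℂ)] LSeries b := by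
    have ho : IsOpen {s : ℂ | 2 < s.re} := isOpen_lt continuous_const Complex.continuous_re
    filter_upwards [ho.mem_nhds (show (3 : ℂ) ∈ {s : ℂ | 2 < s.re} by norm_num)] with s hs
    exact h2 s hs
  exact fun s hs => hG.eqOn_of_preconnected_of_eventuallyEq hL hc h3 hev hs

section A
variable {F F' : Type u} [Field F] [NumberField F] [Field F'] [NumberField F'] [Algebra F F']
  [Algebra K F]

theorem good_A {Ω : ℂ} (W : WeierstrassCurve F) (hT : TwistLoc F' W)
    (hU : TwistProp Ω F F') (hW : ∃ V : ValuationSubring ℂ, (2 : ℂ)⁻¹ ∉ V) : TwistGood W := by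
  obtain ⟨g, hg, hg2, hg1⟩ := main_twist_A W hT hU hW
  refine ⟨g, hg, half_on W (fun s hs => ?_) hg hg2, hg1⟩
  have hp := hasSum_coefI_of_le (psiChi (F := F) F') psiChi_one psiChi_mul norm_psiChi_le
  have hq := hasSum_coefI_of_le (psibChi (F := F) F') psibChi_one psibChi_mul norm_psibChi_le
  exact (half_plane W (LSeries.convolution (coefI (psiChi (F := F) F'))
    (coefI (psibChi (F := F) F')))
    (fun s hs => ((hp s hs).convolution (hq s hs)).LSeriesSummable)
    (fun s hs => by
      have hs' : 3 / 2 < s.re := by linarith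
      rw [LSeries_twist_A W hT s hs, ((hp s hs').convolution (hq s hs')).LSeries_eq]) s hs).1

end A

section B
variable {N M F F' : Type u} [Field N] [NumberField N] [Field M] [NumberField M] [Field F]
  [NumberField F] [Field F'] [NumberField F'] [Algebra N F] [Algebra F F'] [Algebra N F']
  [IsScalarTower N F F'] [Algebra N M] [Algebra M F'] [IsScalarTower N M F'] [Algebra K F]

theorem good_B (hF : Module.finrank N F = 2) (hM : Module.finrank N M = 2)
    (hFF : Module.finrank F F' = 2) (hMF : Module.finrank M F' = 2)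
    (hn : ∀ x : N, algebraMap N F x ≠ algebraMap K F om)
    (hnM : ∀ x : M, algebraMap M F' x ≠ algebraMap F F' (algebraMap K F om))
    (h : NoCube3 N) (W : WeierstrassCurve N) (hT : TwistLoc M W) {Ω : ℂ}
    (hU : TwistProp Ω F F') (hW : ∃ V : ValuationSubring ℂ, (2 : ℂ)⁻¹ ∉ V) : TwistGood W := by
  obtain ⟨g, hg, hg2, hg1⟩ := main_twist_B hF hM hFF hMF hn hnM h W hT hU hW
  refine ⟨g, hg, half_on W (fun s hs => ?_) hg hg2, hg1⟩
  have hq := hasSum_coefI_of_le (psibChi (F := F) F') psibChi_one psibChi_mul norm_psibChi_le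
  exact (half_plane W (coefI (psibChi (F := F) F'))
    (fun s hs => (hq s hs).LSeriesSummable)
    (fun s hs => by
      rw [LSeries_twist_B hF hM hFF hMF hn hnM h W hT s hs, (hq s (by linarith)).LSeries_eq])
    s hs).1

end B

end Pool.Agent.Lib.MP_1a91b9_ntT.TW
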