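import Pool.Agent.Lib.MP_1a91b9_ntT.TW.Core
import Pool.Agent.Lib.MP_1a91b9_ntT.S10.Only
import Pool.Agent.Lib.MP_1a91b9_ntT.S10.Twist
import Pool.Agent.Lib.MP_1a91b9_ntT.S10.Unr2

/-!
# The twists by admissible quadratic extensions: entire continuation
-/

set_option autoImplicit false

namespace Pool.Agent.Lib.MP_1a91b9_ntT.TW

open NumberField IsDedekindDomain Polynomial
open Pool.Agent.Lib.MP_1a91b9_ntT.S4 Pool.Agent.Lib.MP_1a91b9_ntT.S7 Pool.Agent.Lib.MP_1a91b9_nt
open Pool.Agent.Lib.MP_1a91b9_ntT.S10

universe u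

theorem twist_coreE (N M : Type u) [Field N] [NumberField N] [Field M] [NumberField M]
    [Algebra N M] (hT : Tower N) (δ : 𝓞 N) (hδ : Adm N δ) (x : M)
    (hx : x ^ 2 = algebraMap N M δ) (hn : ¬ ∃ y : N, algebraMap N M y = x)
    (hgen : ∀ z : M, ∃ a b : N, z = algebraMap N M a + algebraMap N M b * x)
    (W : WeierstrassCurve N) (hW : TwistLoc M W) : TwistGoodE W := by
  have hM2 : Module.finrank N M = 2 := S4.finrank_step _ x hx hn hgen
  by_cases hy : ∃ y : N, y ^ 2 = -3
  · obtain ⟨y, hy⟩ := hy
    obtain ⟨_, -⟩ := exists_algebraK N y hy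
    have hK : TowerK N := S5.tower_towerK N N y hy (fun z => ⟨z, 0, by simp⟩) hT
    have h2 : Unr2 N := unr2_tower N hK
    exact goodE_A W hW (twist_entire (crit N) (only N h2) h2 δ hδ x hx hn hgen (valueProp hK)
      (unitProp N hK)) s3_exists
  push Not at hy
  have hNC := noCube3_towerQ N hT
  by_cases hz : ∃ z : M, z ^ 2 = -3
  · -- `M = N(√-3)`
    obtain ⟨z, hz⟩ := hz
    obtain ⟨_, -⟩ := exists_algebraK M z hz
    obtain ⟨⟨g, hg, hg2, hg1⟩, -⟩ := thmB N hT
    have hloc : ∀ v, locPoly W v = locPoly (E N) v := by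
      intro v
      by_cases h3 : (3 : 𝓞 N) ∈ v.asIdeal
      · rw [(hW v).1 h3, E_eq, locPoly_fermatCubic_three v h3 (hNC v h3)]
      have hmod : locPoly (E N) v = 1 - Polynomial.C (aE v) * X +
        Polynomial.C (nrm v : ℤ) * X ^ 2 := locPoly_model v h3
      have hζ : (algebraMap K M om) ^ 2 + algebraMap K M om + 1 = 0 := by
        rw [← map_pow, ← map_add, ← map_one (algebraMap K M), ← map_add, om_eq, map_zero]
      have hnom : ∀ x : N, algebraMap N M x ≠ algebraMap K M om := by
        intro x hx
        apply hy (2 * x + 1)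
        apply (algebraMap N M).injective
        rw [map_pow, map_add, map_mul, map_one, map_ofNat, map_neg, map_ofNat]
        exact om_of_sqrt _ hx
      have hq2 := two_le_nrm' v
      have hqq : nrm v ^ 2 ≠ nrm v := by nlinarith
      have hspec := splitChar_spec hM2 v
      have hex : ∃ w : Over M v, True := by
        have hne : Nonempty (Over M v) := by
          rw [← Fintype.card_pos_iff]
          rcases hspec with h | h | h <;> omega
        exact ⟨hne.some, trivial⟩
      obtain ⟨w, -⟩ := hex
      rw [(hW v).2 h3, hmod]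
      rcases u4_split hM2 _ hζ hnom v h3 with ⟨k1, k2, k3⟩ | ⟨k1, k2, k3⟩
      · have h1 : splitChar M v = 1 := by
          rcases hspec with h | h | h
          · exact h.1
          · exfalso
            have h4 := h.2.2 w
            rw [k2 w.1 w.2] at h4
            exact hqq h4.symm
          · exfalso
            have k3' : Fintype.card (Over M v) = 2 := by
              rw [← Nat.card_eq_fintype_card]; exact k3
            omega
        rw [h1, one_mul, one_pow, one_mul]
      · have h1 : splitChar M v = -1 := by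
          rcases hspec with h | h | h
          · exfalso
            have h4 := h.2.2 w
            rw [k2 w.1 w.2] at h4
            exact hqq h4
          · exact h.1
          · exfalso
            have h4 := h.2.2 w
            rw [k2 w.1 w.2] at h4
            exact hqq h4
        have h3k : (3 : IsLocalRing.ResidueField (v.adicCompletionIntegers N)) ≠ 0 := by
          intro h
          apply h3
          have h4 : (3 : 𝓞 N) ∈ RingHom.ker (redMap N v) := by
            rw [RingHom.mem_ker, map_ofNat]; exact h
          rw [redMap_ker] at h4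
          exact h4
        have hfinv : Finite (IsLocalRing.ResidueField (v.adicCompletionIntegers N)) :=
          finite_residue v
        have ha : aE v = 0 := by
          rw [aE, card_fermatCubic_of_two h3k k1]
          have h9 : ((Nat.card (IsLocalRing.ResidueField (v.adicCompletionIntegers N)) + 1 : ℕ) :
              ℤ) = (nrm v : ℤ) + 1 := by
            push_cast
            rfl
          rw [h9]
          ring
        rw [h1, ha, mul_zero]
        norm_num
    have hL := LSeries_congr_loc W (E N) hloc
    refine ⟨g, hg, fun s hs => ?_, hg1⟩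
    rw [hL]
    exact half_tower N hT hg hg2 s hs
  push Not at hz
  obtain ⟨F', _, _, _, _, y, hy2, -, hMF, hgenM⟩ := exists_up M hz
  let algNF' : Algebra N F' := ((algebraMap M F').comp (algebraMap N M)).toAlgebra
  have hst : IsScalarTower N M F' := IsScalarTower.of_algebraMap_eq fun _ => rfl
  let F : IntermediateField N F' := quadIF N F' y hy2
  have hyF : y ∈ F := ⟨0, 1, by simp⟩
  have hgenF : ∀ z : F, ∃ a b : N, z = algebraMap N F a + algebraMap N F b * ⟨y, hyF⟩ := by
    intro z
    obtain ⟨a, b, hab⟩ := (mem_quadIF y hy2 z.1).1 z.2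
    exact ⟨a, b, Subtype.ext hab⟩
  have hyF2 : (⟨y, hyF⟩ : F) ^ 2 = -3 := Subtype.ext hy2
  obtain ⟨_, -⟩ := exists_algebraK F ⟨y, hyF⟩ hyF2
  have hK : TowerK F := S5.tower_towerK N F ⟨y, hyF⟩ hyF2 hgenF hT
  have hδF : Adm F (algebraMap (𝓞 N) (𝓞 F) δ) := S5.adm_up (⟨y, hyF⟩ : F) hyF2 hgenF δ hδ
  -- `y` is not in `M`
  have hyM : ∀ z : M, algebraMap M F' z ≠ y := by
    intro z h
    apply hz z
    apply (algebraMap M F').injective
    rw [map_pow, h, hy2, map_neg, map_ofNat]
  have hyN : ∀ z : N, algebraMap N F' z ≠ y := fun z => hyM (algebraMap N M z)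
  set x' : F' := algebraMap M F' x with hx'
  have hx'2 : x' ^ 2 = algebraMap N F' δ := by
    rw [hx', ← map_pow, hx]
    rfl
  have hxF : ¬ ∃ z : F, algebraMap F F' z = x' := by
    rintro ⟨z, hz'⟩
    obtain ⟨a, b, hab⟩ := (mem_quadIF y hy2 z.1).1 z.2
    have h1 : x' = algebraMap N F' a + algebraMap N F' b * y := by
      rw [← hz', ← hab]
      rfl
    have h2 : algebraMap N F' (δ : N) = algebraMap N F' (a ^ 2 - 3 * b ^ 2) +
        algebraMap N F' (2 * a * b) * y := by
      rw [← hx'2, h1]
      simp only [map_sub, map_mul, map_pow, map_ofNat]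
      linear_combination (algebraMap N F' b) ^ 2 * hy2
    have h3 : 2 * a * b = 0 := by
      by_contra h0
      apply hyN (((δ : N) - (a ^ 2 - 3 * b ^ 2)) / (2 * a * b))
      have h4 : algebraMap N F' (2 * a * b) ≠ 0 := by
        rw [Ne, map_eq_zero]; exact h0
      rw [map_div₀, div_eq_iff h4, map_sub, h2]
      ring
    rcases mul_eq_zero.1 h3 with h4 | h4
    · have ha : a = 0 := by
        rcases mul_eq_zero.1 h4 with h5 | h5
        · norm_num at h5
        · exact h5
      by_cases hb : b = 0
      · apply hn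
        refine ⟨0, ?_⟩
        apply (algebraMap M F').injective
        rw [map_zero, map_zero]
        rw [ha, hb, map_zero, zero_mul, add_zero] at h1
        exact h1.symm
      · apply hyM (x / algebraMap N M b)
        have h5 : algebraMap N F' b ≠ 0 := by
          rw [Ne, map_eq_zero]; exact hb
        rw [map_div₀, ← hx', h1, ha, map_zero, zero_add]
        change algebraMap N F' b * y / algebraMap N F' b = y
        field_simp
    · apply hn
      refine ⟨a, ?_⟩
      apply (algebraMap M F').injective
      rw [h4, map_zero, zero_mul, add_zero] at h1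
      exact h1.symm
  have hgenF' : ∀ z : F', ∃ a b : F, z = algebraMap F F' a + algebraMap F F' b * x' := by
    intro z
    obtain ⟨A, B, hz'⟩ := hgenM z
    obtain ⟨a, b, hA⟩ := hgen A
    obtain ⟨c, d, hB⟩ := hgen B
    refine ⟨⟨_, ⟨a, c, rfl⟩⟩, ⟨_, ⟨b, d, rfl⟩⟩, ?_⟩
    rw [hz', hA, hB]
    simp only [map_add, map_mul]
    change _ = (algebraMap M F' (algebraMap N M a) + algebraMap M F' (algebraMap N M c) * y) +
      (algebraMap M F' (algebraMap N M b) + algebraMap M F' (algebraMap N M d) * y) * x'
    ring
  have hx'F : x' ^ 2 = algebraMap F F' (algebraMap (𝓞 N) (𝓞 F) δ : 𝓞 F) := hx'2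
  have hFF : Module.finrank F F' = 2 := S4.finrank_step _ x' hx'F hxF hgenF'
  have hNF : Module.finrank N F = 2 := by
    refine S4.finrank_step (-3 : N) (⟨y, hyF⟩ : F) ?_ ?_ hgenF
    · rw [hyF2, map_neg, map_ofNat]
    · rintro ⟨z, hz'⟩
      exact hyN z (congrArg Subtype.val hz')
  have h2 : Unr2 F := unr2_tower F hK
  have hU := twist_entire (F := F) (F' := F') (crit F) (only F h2) h2 _ hδF x' hx'F hxF hgenF'
    (valueProp hK) (unitProp F hK)
  refine goodE_B (N := N) (M := M) (F := F) (F' := F') hNF hM2 hFF hMF ?_ ?_ hNC W hW hU s3_exists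
  · intro z hz'
    apply hy (2 * z + 1)
    apply (algebraMap N F).injective
    rw [map_pow, map_add, map_mul, map_one, map_ofNat, map_neg, map_ofNat]
    exact om_of_sqrt _ hz'
  · intro z hz'
    apply hz (2 * z + 1)
    apply (algebraMap M F').injective
    rw [map_pow, map_add, map_mul, map_one, map_ofNat, map_neg, map_ofNat, hz']
    have h5 := congrArg (algebraMap F F') (om_of_sqrt (F := F) _ rfl)
    rw [map_pow, map_add, map_mul, map_one, map_ofNat, map_neg, map_ofNat] at h5
    exact h5

end Pool.Agent.Lib.MP_1a91b9_ntT.TW
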