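import Pool.Agent.Lib.MP_1a91b9_ntT.TW.Iso
import Pool.Agent.Lib.MP_1a91b9_ntT.TW.CoreE

/-!
# The curves which become isomorphic to `E` over an extension of degree a power of two:
entire continuation
-/

set_option autoImplicit false

namespace Pool.Agent.Lib.MP_1a91b9_ntT.TW

open NumberField IsDedekindDomain WeierstrassCurve
open Pool.Agent.Lib.MP_1a91b9_ntT.S4 Pool.Agent.Lib.MP_1a91b9_ntT.S7
open Pool.Agent.Lib.MP_1a91b9_ntT.S8 Pool.Agent.Lib.MP_1a91b9_ntT.S10
open Pool.Agent.Lib.MP_1a91b9_nt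

universe u

/-- **All curves which become isomorphic to `E` over `L`**: the L-series continues to an entire
function, equal to it for `3/2 < Re s`, which does not vanish at `1`; the Mordell-Weil group is
finite. -/
theorem iso_entire (N L M : Type u) [Field N] [NumberField N] [Field L] [NumberField L]
    [Field M] [NumberField M] [Algebra N L] [Algebra L M] [IsGalois ℚ M] (n : ℕ)
    (hM : Module.finrank ℚ M = 2 ^ n) (hL : RamCond L) (W : WeierstrassCurve N)
    (C : WeierstrassCurve.VariableChange L) (hC : C • (W.baseChange L) = E L) :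
    TwistGoodE W ∧ Finite W.toAffine.Point := by
  obtain ⟨hT, hfin, h | ⟨N', _, _, _, δ, x', hδ, hx', hn, hgen, hW⟩⟩ :=
    reduction N L M n hM hL W C hC
  · refine ⟨?_, hfin⟩
    obtain ⟨⟨g, hg, hg2, hg1⟩, -⟩ := thmB N hT
    refine ⟨g, hg, fun s hs => ?_, hg1⟩
    rw [LSeries_congr_loc _ _ h]
    exact half_tower N hT hg hg2 s hs
  · exact ⟨twist_coreE N N' hT δ hδ x' hx' hn hgen W hW, hfin⟩

end Pool.Agent.Lib.MP_1a91b9_ntT.TW
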