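import Pool.Agent.Lib.MP_1a91b9_ntT.TW.Curve

/-!
# Additive: places with additive reduction

PROOF. Both: copy `localPolynomial_fermatCubic_three` (S4/Add.lean): `c₄ = 0` (`tw_c₄`) excludes multiplicative reduction.
Suppose good reduction, `minimal = C • tw d`, `u = C.u`. By `variableChange_Δ` and `tw_Δ`:
`v u ^ 12 = v (2 ^ 12 * 3 ^ 3 * d ^ 6)`.
`tw_three`: `v 2 = 1` since `4 = 1 + 3` and `v 3 < 1`. So `v u ^ 12 = v 3 ^ 3 * v d ^ 6`, `v u ^ 4 = v 3 * v d ^ 2`. The
coefficient `b₆` of `C • tw d` is `u⁻¹ ^ 6 * (64 d ^ 3 + 4 r ^ 3)` (`variableChange_b₆`) and has valuation `≤ 1` (integral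
model). With `r' = r / (4 d)`: `64 d ^ 3 + 4 r ^ 3 = 64 d ^ 3 (1 + 4 r' ^ 3)`, so `v (1 + 4 r' ^ 3) ≤ y ^ 3` for
`y = v u ^ 2 * (v d)⁻¹`, and `y ^ 2 = v 3`. `u4_val v h3 h y _ r' _` gives `v 3 = 0`, contradiction.
`tw_odd`: `v u ^ 12 = v d ^ 6`, so `v u ^ 2 = v d` (`pow_left_inj₀`), contradiction with `h`.
-/

set_option autoImplicit false

namespace Pool.Agent.Lib.MP_1a91b9_ntT.TW

open WeierstrassCurve IsDedekindDomain NumberField Pool.Agent.Lib.MP_1a91b9_nt
open Pool.Agent.Lib.MP_1a91b9_ntT.S4 Polynomial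

universe u

/-- The coefficient `b₆` of a model of the twist. -/
private theorem additive_b₆ {K : Type*} [Field K] (C : WeierstrassCurve.VariableChange K) (d : K) :
    (C • tw d).b₆ = ((C.u⁻¹ : Kˣ) : K) ^ 6 * (64 * d ^ 3 + 4 * C.r ^ 3) := by
  rw [WeierstrassCurve.variableChange_b₆]
  simp only [tw, WeierstrassCurve.b₂, WeierstrassCurve.b₄, WeierstrassCurve.b₆]
  ring

/-- If the twist has no good reduction then the local polynomial is `1`. -/
private theorem additive_of_not_good (R : Type*) [CommRing R] [IsDomain R]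
    [IsDiscreteValuationRing R] {K : Type*} [Field K] [Algebra R K]
    [IsFractionRing R K] (d : K)
    (hgood : ¬ ((tw d).minimal R).HasGoodReduction R) :
    (tw d).localPolynomial R = 1 := by
  classical
  obtain ⟨C, hC⟩ : ∃ C : WeierstrassCurve.VariableChange K,
    (tw d).minimal R = C • tw d := ⟨_, rfl⟩
  have hc4 : ((tw d).minimal R).c₄ = 0 := by
    rw [hC, WeierstrassCurve.variableChange_c₄, tw_c₄, mul_zero]
  have hmult : ¬ ((tw d).minimal R).HasMultiplicativeReduction R := by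
    intro hm
    have := hm.multiplicativeReduction
    rw [hc4, map_zero] at this
    exact zero_ne_one this
  have hsplit : ¬ ((tw d).minimal R).HasSplitMultiplicativeReduction R := fun hm =>
    hmult hm.toHasMultiplicativeReduction
  unfold WeierstrassCurve.localPolynomial
  simp only [hgood, hmult, hsplit, if_false]

/-- The valuation of the discriminant. -/
private theorem additive_disc {K Γ : Type*} [Field K] [LinearOrderedCommGroupWithZero Γ]
    (v : Valuation K Γ) (d u : K) (hu : u ≠ 0)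
    (h1 : v (u⁻¹ ^ 12 * -(2 ^ 12 * 3 ^ 3 * d ^ 6)) = 1) :
    v u ^ 12 = v 2 ^ 12 * v 3 ^ 3 * v d ^ 6 := by
  have hvu : v u ≠ 0 := (Valuation.ne_zero_iff v).mpr hu
  have e : v (u⁻¹ ^ 12 * -(2 ^ 12 * 3 ^ 3 * d ^ 6)) =
      (v u ^ 12)⁻¹ * (v 2 ^ 12 * v 3 ^ 3 * v d ^ 6) := by
    rw [map_mul, map_pow, map_inv₀, Valuation.map_neg, map_mul, map_mul, map_pow, map_pow,
      map_pow, inv_pow]
  rw [e] at h1
  rw [inv_mul_eq_one₀ (pow_ne_zero _ hvu)] at h1
  exact h1

/-- Additive reduction above `3`. -/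
theorem localPolynomial_tw_three (R : Type*) [CommRing R] [IsDomain R]
    [IsDiscreteValuationRing R] {K : Type*} [Field K] [CharZero K] [Algebra R K]
    [IsFractionRing R K] (d : K) (hd : d ≠ 0)
    (h3 : (IsDiscreteValuationRing.maximalIdeal R).valuation K 3 < 1)
    (h : ∀ t : K, (IsDiscreteValuationRing.maximalIdeal R).valuation K t ^ 3 ≠
      (IsDiscreteValuationRing.maximalIdeal R).valuation K 3) :
    (tw d).localPolynomial R = 1 := by
  classical
  set v := (IsDiscreteValuationRing.maximalIdeal R).valuation K with hv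
  refine additive_of_not_good R d fun hg => ?_
  obtain ⟨C, hC⟩ : ∃ C : WeierstrassCurve.VariableChange K,
    (tw d).minimal R = C • tw d := ⟨_, rfl⟩
  have h1 := hg.goodReduction
  rw [hC, WeierstrassCurve.variableChange_Δ, tw_Δ] at h1
  obtain ⟨b, hb⟩ : ∃ b : R, algebraMap R K b = ((tw d).minimal R).b₆ := by
    refine ⟨((tw d).minimal R |>.integralModel R).b₆, ?_⟩
    rw [← WeierstrassCurve.map_b₆]
    congr 1
    exact WeierstrassCurve.baseChange_integralModel_eq R _
  have h2 : v ((tw d).minimal R).b₆ ≤ 1 := by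
    rw [← hb]; exact HeightOneSpectrum.valuation_le_one _ _
  rw [hC, additive_b₆] at h2
  set u : K := (C.u : K) with hu
  have hu0 : u ≠ 0 := C.u.ne_zero
  have hui : ((C.u⁻¹ : Kˣ) : K) = u⁻¹ := by rw [hu, Units.val_inv_eq_inv_val]
  rw [hui] at h1 h2
  have hvu : v u ≠ 0 := (Valuation.ne_zero_iff v).mpr hu0
  have hvupos : 0 < v u := zero_lt_iff.mpr hvu
  have hvd : v d ≠ 0 := (Valuation.ne_zero_iff v).mpr hd
  have hvdpos : 0 < v d := zero_lt_iff.mpr hvd
  have hv4 : v 4 = 1 := by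
    have e : (4 : K) = 1 + 3 := by norm_num
    rw [e]
    exact Valuation.map_one_add_of_lt v h3
  have hv2 : v 2 = 1 := by
    have e : (4 : K) = 2 ^ 2 := by norm_num
    rw [e, map_pow] at hv4
    exact (pow_eq_one_iff_of_nonneg (zero_le) (by norm_num)).1 hv4
  have h12 := additive_disc v d u hu0 h1
  rw [hv2, one_pow, one_mul] at h12
  have h4 : v u ^ 4 = v 3 * v d ^ 2 := by
    have e : (v u ^ 4) ^ 3 = (v 3 * v d ^ 2) ^ 3 := by
      rw [← pow_mul, mul_pow, ← pow_mul]; exact h12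
    exact (pow_left_inj₀ (zero_le) (zero_le) (by norm_num)).mp e
  set r' : K := C.r / (4 * d) with hr'
  have h40 : (4 : K) ≠ 0 := by norm_num
  have er : 64 * d ^ 3 + 4 * C.r ^ 3 = 64 * d ^ 3 * (1 + 4 * r' ^ 3) := by
    rw [hr']
    field_simp
    ring
  have hv64 : v 64 = 1 := by
    have e : (64 : K) = 4 ^ 3 := by norm_num
    rw [e, map_pow, hv4, one_pow]
  have h5 : v (1 + 4 * r' ^ 3) ≤ (v u ^ 2 * (v d)⁻¹) ^ 3 := by
    rw [er, map_mul, map_mul, map_mul, map_pow, map_pow, map_inv₀, inv_pow,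
      inv_mul_le_iff₀ (pow_pos hvupos 6), mul_one, hv64, one_mul] at h2
    rw [mul_pow, inv_pow, ← pow_mul, ← div_eq_mul_inv, le_div_iff₀ (pow_pos hvdpos 3), mul_comm]
    exact h2
  have h6 := u4_val v h3 h (v u ^ 2 * (v d)⁻¹) (by
    rw [mul_pow, ← pow_mul, h4, inv_pow, mul_assoc, mul_inv_cancel₀ (pow_ne_zero _ hvd), mul_one])
    r' h5
  exact (Valuation.ne_zero_iff v).mpr (by norm_num : (3 : K) ≠ 0) h6

/-- Additive reduction at the places of odd order. -/
theorem localPolynomial_tw_odd (R : Type*) [CommRing R] [IsDomain R]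
    [IsDiscreteValuationRing R] {K : Type*} [Field K] [CharZero K] [Algebra R K]
    [IsFractionRing R K] (d : K) (hd : d ≠ 0)
    (h2 : (IsDiscreteValuationRing.maximalIdeal R).valuation K 2 = 1)
    (h3 : (IsDiscreteValuationRing.maximalIdeal R).valuation K 3 = 1)
    (h : ∀ t : K, (IsDiscreteValuationRing.maximalIdeal R).valuation K t ^ 2 ≠
      (IsDiscreteValuationRing.maximalIdeal R).valuation K d) :
    (tw d).localPolynomial R = 1 := by
  classical
  set v := (IsDiscreteValuationRing.maximalIdeal R).valuation K with hv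
  refine additive_of_not_good R d fun hg => ?_
  obtain ⟨C, hC⟩ : ∃ C : WeierstrassCurve.VariableChange K,
    (tw d).minimal R = C • tw d := ⟨_, rfl⟩
  have h1 := hg.goodReduction
  rw [hC, WeierstrassCurve.variableChange_Δ, tw_Δ] at h1
  set u : K := (C.u : K) with hu
  have hu0 : u ≠ 0 := C.u.ne_zero
  have hui : ((C.u⁻¹ : Kˣ) : K) = u⁻¹ := by rw [hu, Units.val_inv_eq_inv_val]
  rw [hui] at h1
  have h12 := additive_disc v d u hu0 h1
  rw [h2, h3, one_pow, one_pow, one_mul, one_mul] at h12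
  refine h u ?_
  have e : (v u ^ 2) ^ 6 = v d ^ 6 := by
    rw [← pow_mul]; exact h12
  exact (pow_left_inj₀ (zero_le) (zero_le) (by norm_num)).mp e

end Pool.Agent.Lib.MP_1a91b9_ntT.TW
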