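import Pool.Agent.Lib.MP_1a91b9_ntT.TW.Curve
import Pool.Agent.Lib.MP_1a91b9_nt.FinTwist

/-!
# CntOdd: number of points of the twist, odd characteristic

PROOF. `card_twist` (Pool/Agent/Lib/MP_1a91b9_nt/FinTwist.lean) with `W = fermatCubic k`, `W' = tw d` and the factor
`4 * d`: `c₄ = 0` for both (`tw_c₄`, `fermatCubic_c₄`), `c₆` by `tw_c₆`; both are elliptic since the discriminants
`-27` (`fermatCubic_delta`) and `tw_Δ` are not zero (`isUnit_iff_ne_zero`, `WeierstrassCurve.isElliptic_iff`); `IsSquare (4 * d)` if and only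
if `IsSquare d` (`4 = 2 * 2`, `2 ≠ 0`).
-/

set_option autoImplicit false

namespace Pool.Agent.Lib.MP_1a91b9_ntT.TW

open WeierstrassCurve IsDedekindDomain NumberField Pool.Agent.Lib.MP_1a91b9_nt
open Pool.Agent.Lib.MP_1a91b9_ntT.S4 Polynomial

universe u

/-- Odd characteristic. -/
theorem card_tw_odd {k : Type*} [Field k] [Finite k] (h2 : (2 : k) ≠ 0) (h3 : (3 : k) ≠ 0)
    (d : k) (hd : d ≠ 0) :
    (IsSquare d → Nat.card (tw d).toAffine.Point = Nat.card (fermatCubic k).toAffine.Point) ∧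
    (¬ IsSquare d → Nat.card (fermatCubic k).toAffine.Point + Nat.card (tw d).toAffine.Point
      = 2 * Nat.card k + 2) := by
  have h4 : (4 : k) ≠ 0 := by
    have : (4 : k) = 2 * 2 := by norm_num
    rw [this]
    exact mul_ne_zero h2 h2
  have hE : (fermatCubic k).IsElliptic := by
    rw [WeierstrassCurve.isElliptic_iff, fermatCubic_delta, isUnit_iff_ne_zero, neg_ne_zero]
    have : (27 : k) = 3 ^ 3 := by norm_num
    rw [this]
    exact pow_ne_zero _ h3
  have hE' : (tw d).IsElliptic := by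
    rw [WeierstrassCurve.isElliptic_iff, tw_Δ, isUnit_iff_ne_zero, neg_ne_zero]
    exact mul_ne_zero (mul_ne_zero (pow_ne_zero _ h2) (pow_ne_zero _ h3)) (pow_ne_zero _ hd)
  have hmain := card_twist h2 h3 (fermatCubic k) (tw d) (4 * d) (mul_ne_zero h4 hd)
    (by rw [tw_c₄, fermatCubic_c₄, mul_zero]) (tw_c₆ d)
  have hsq : IsSquare (4 * d) ↔ IsSquare d := by
    constructor
    · rintro ⟨r, hr⟩
      refine ⟨r / 2, ?_⟩
      field_simp
      linear_combination hr
    · rintro ⟨r, hr⟩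
      refine ⟨2 * r, ?_⟩
      rw [hr]
      ring
  rw [hsq] at hmain
  exact hmain

end Pool.Agent.Lib.MP_1a91b9_ntT.TW
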