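import Pool.Agent.Lib.MP_1a91b9_ntT.TW.Curve
import Pool.Agent.Lib.MP_1a91b9_nt.VarChange

/-!
# CntTwo: number of points of the twist, characteristic two

PROOF. In characteristic two `twm a b` is `y² + a³ y = x³ + a⁴ b` (`3 = 1`, `12 = 16 = 0`; use `h2` and
`linear_combination (…) * h2`). All affine points are nonsingular (elliptic: the discriminants are `-27 = 1` and
`twm_Δ` with `a² + 4 b = a²`), so `Nat.card Point = 1 + #{(x, y) : y² + a³ y = x³ + a⁴ b}`
(`pointEquivOption`, `Finite.card_option`, `Affine.equation_iff_nonsingular`, see `FinTwist.lean` and S4/Count.lean for the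
same argument). First claim: `c² + a c = b`; the map `(x, y) ↦ (a² x, a³ y + a² c)` is a bijection from the
points of `y² + y = x³` onto the points of `y² + a³ y = x³ + a⁴ b` (or: a variable change with `u = a⁻¹`… and
`card_point_variableChange`). Second claim: put `β = b / a²`, so that the equation `t² + t = β` has no solution, and after the
scaling `(x, y) ↦ (a² x, a³ y)` the curve is `y² + y = x³ + β`. The additive map `℘ t = t² + t` has kernel `{0, 1}`, so its
image `H` has index two; `β ∉ H`. For every `x` exactly one of `x³`, `x³ + β` is in `H`, and `℘ y = z` has two solutions for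
`z ∈ H`, none for `z ∉ H`. So for every `x` the total number of `y` on the two curves is `2`; sum over `x`:
`2 * Nat.card k` affine points, plus the two points at infinity.
-/

set_option autoImplicit false

namespace Pool.Agent.Lib.MP_1a91b9_ntT.TW

open WeierstrassCurve IsDedekindDomain NumberField Pool.Agent.Lib.MP_1a91b9_nt
open Pool.Agent.Lib.MP_1a91b9_ntT.S4 Polynomial

universe u

private theorem cntTwo_card_point {k : Type*} [Field k] [Fintype k] [DecidableEq k]
    (h2 : (2 : k) = 0) (γ : k) :
    Nat.card (⟨0, 0, 1, 0, γ⟩ : WeierstrassCurve k).toAffine.Point =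
      1 + ∑ x : k, (Finset.univ.filter fun y : k => y ^ 2 + y = x ^ 3 + γ).card := by
  classical
  have hE : (⟨0, 0, 1, 0, γ⟩ : WeierstrassCurve k).IsElliptic := by
    rw [WeierstrassCurve.isElliptic_iff, isUnit_iff_ne_zero]
    have : (⟨0, 0, 1, 0, γ⟩ : WeierstrassCurve k).Δ = 1 := by
      simp only [WeierstrassCurve.Δ, WeierstrassCurve.b₂, WeierstrassCurve.b₄,
        WeierstrassCurve.b₆, WeierstrassCurve.b₈]
      linear_combination (-14 - 108 * γ - 216 * γ ^ 2) * h2
    rw [this]
    exact one_ne_zero
  have hns : ∀ p : k × k,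
      (⟨0, 0, 1, 0, γ⟩ : WeierstrassCurve k).toAffine.Nonsingular p.1 p.2 ↔
      p.2 ^ 2 + p.2 = p.1 ^ 3 + γ := by
    intro p
    rw [← WeierstrassCurve.Affine.equation_iff_nonsingular,
      WeierstrassCurve.Affine.equation_iff]
    constructor
    · intro h
      linear_combination h
    · intro h
      linear_combination h
  rw [Nat.card_congr (pointEquivOption _), Finite.card_option, add_comm]
  congr 1
  rw [Nat.card_eq_fintype_card, Fintype.card_subtype]
  have e1 : (Finset.univ.filter fun p : k × k =>
      (⟨0, 0, 1, 0, γ⟩ : WeierstrassCurve k).toAffine.Nonsingular p.1 p.2) =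
      Finset.univ.filter fun p : k × k => p.2 ^ 2 + p.2 = p.1 ^ 3 + γ :=
    Finset.filter_congr fun p _ => hns p
  rw [e1, Finset.card_eq_sum_card_fiberwise (f := Prod.fst) (t := Finset.univ)
    (fun _ _ => Finset.mem_coe.mpr (Finset.mem_univ _))]
  refine Finset.sum_congr rfl fun x _ => ?_
  refine Finset.card_bij (fun p _ => p.2) ?_ ?_ ?_
  · rintro ⟨a, b⟩ hp
    simp only [Finset.mem_filter, Finset.mem_univ, true_and] at hp ⊢
    obtain ⟨h1, rfl⟩ := hp
    exact h1
  · rintro ⟨a, b⟩ hp ⟨a', b'⟩ hp' h
    simp only [Finset.mem_filter, Finset.mem_univ, true_and] at hp hp' h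
    rw [Prod.mk.injEq]
    exact ⟨hp.2.trans hp'.2.symm, h⟩
  · intro b hb
    simp only [Finset.mem_filter, Finset.mem_univ, true_and] at hb
    exact ⟨(x, b), by simpa using hb, rfl⟩

private theorem cntTwo_fib {k : Type*} [Field k] [Fintype k] [DecidableEq k]
    (h2 : (2 : k) = 0) (β : k) (hβ : ¬ ∃ t : k, t ^ 2 + t = β) (z : k) :
    (Finset.univ.filter fun y : k => y ^ 2 + y = z).card +
      (Finset.univ.filter fun y : k => y ^ 2 + y = z + β).card = 2 := by
  classical
  have hle : ∀ w : k, (Finset.univ.filter fun y : k => y ^ 2 + y = w).card ≤ 2 := by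
    intro w
    rcases (Finset.univ.filter fun y : k => y ^ 2 + y = w).eq_empty_or_nonempty with h | ⟨y0, h0⟩
    · rw [h]
      simp
    · simp only [Finset.mem_filter, Finset.mem_univ, true_and] at h0
      refine le_trans (Finset.card_le_card (t := {y0, y0 + 1}) ?_) Finset.card_le_two
      intro y hy
      simp only [Finset.mem_filter, Finset.mem_univ, true_and] at hy
      have : (y - y0) * (y - (y0 + 1)) = 0 := by
        linear_combination hy - h0 + (y0 - y + y0 ^ 2 - y * y0) * h2
      rw [Finset.mem_insert, Finset.mem_singleton]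
      rcases mul_eq_zero.1 this with h | h
      · exact Or.inl (sub_eq_zero.1 h)
      · exact Or.inr (sub_eq_zero.1 h)
  have hsum : ∑ w : k, (Finset.univ.filter fun y : k => y ^ 2 + y = w).card = Fintype.card k :=
    (Finset.card_eq_sum_card_fiberwise (f := fun y : k => y ^ 2 + y) (s := Finset.univ)
      (t := Finset.univ) (fun _ _ => Finset.mem_coe.mpr (Finset.mem_univ _))).symm
  have hsum' : ∑ w : k, (Finset.univ.filter fun y : k => y ^ 2 + y = w + β).card =
      Fintype.card k := by
    rw [← hsum]
    exact Equiv.sum_comp (Equiv.addRight β)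
      (fun w => (Finset.univ.filter fun y : k => y ^ 2 + y = w).card)
  have hle2 : ∀ w ∈ (Finset.univ : Finset k),
      (Finset.univ.filter fun y : k => y ^ 2 + y = w).card +
      (Finset.univ.filter fun y : k => y ^ 2 + y = w + β).card ≤ 2 := by
    intro w _
    rcases (Finset.univ.filter fun y : k => y ^ 2 + y = w).eq_empty_or_nonempty with h | ⟨y0, h0⟩
    · rw [h, Finset.card_empty, zero_add]
      exact hle _
    · rcases (Finset.univ.filter fun y : k => y ^ 2 + y = w + β).eq_empty_or_nonempty
        with h | ⟨y1, h1⟩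
      · rw [h, Finset.card_empty, add_zero]
        exact hle _
      · exfalso
        simp only [Finset.mem_filter, Finset.mem_univ, true_and] at h0 h1
        refine hβ ⟨y1 - y0, ?_⟩
        linear_combination h1 - h0 + (y0 ^ 2 - y0 * y1) * h2
  have htot : ∑ w : k, ((Finset.univ.filter fun y : k => y ^ 2 + y = w).card +
      (Finset.univ.filter fun y : k => y ^ 2 + y = w + β).card) = ∑ _w : k, 2 := by
    rw [Finset.sum_add_distrib, hsum, hsum']
    simp
    ring
  exact (Finset.sum_eq_sum_iff_of_le hle2).1 htot z (Finset.mem_univ z)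

/-- Characteristic two. -/
theorem card_twm_two {k : Type*} [Field k] [Finite k] (h2 : (2 : k) = 0) (a b : k) (ha : a ≠ 0) :
    ((∃ c : k, c ^ 2 + a * c = b) →
      Nat.card (twm a b).toAffine.Point = Nat.card (fermatCubic k).toAffine.Point) ∧
    ((¬ ∃ c : k, c ^ 2 + a * c = b) →
      Nat.card (fermatCubic k).toAffine.Point + Nat.card (twm a b).toAffine.Point
        = 2 * Nat.card k + 2) := by
  classical
  have := Fintype.ofFinite k
  constructor
  · rintro ⟨c, hc⟩
    have hC : (⟨(Units.mk0 a ha)⁻¹, 0, 0, c / a⟩ : WeierstrassCurve.VariableChange k) •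
        fermatCubic k = twm a b := by
      rw [WeierstrassCurve.variableChange_def]
      ext
      · simp [fermatCubic, twm]
      · simp [fermatCubic, twm]
      · simp only [fermatCubic, twm, inv_inv, Units.val_mk0]
        field_simp
        linear_combination c * h2
      · simp [fermatCubic, twm]
      · simp only [fermatCubic, twm, inv_inv, Units.val_mk0]
        field_simp
        linear_combination (-a ^ 4) * hc + (-2 * a ^ 4 * b - 6 * a ^ 2 * b ^ 2 - 8 * b ^ 3) * h2
    rw [← hC]
    exact card_point_variableChange _ _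
  · intro hno
    set β : k := b / a ^ 2 with hβ
    have hC : (⟨(Units.mk0 a ha)⁻¹, 0, 0, 0⟩ : WeierstrassCurve.VariableChange k) •
        (⟨0, 0, 1, 0, β⟩ : WeierstrassCurve k) = twm a b := by
      rw [WeierstrassCurve.variableChange_def]
      ext
      · simp [twm]
      · simp [twm]
      · simp only [twm, inv_inv, Units.val_mk0]
        ring
      · simp [twm]
      · simp only [twm, inv_inv, Units.val_mk0, hβ]
        field_simp
        linear_combination (-a ^ 4 * b - 6 * a ^ 2 * b ^ 2 - 8 * b ^ 3) * h2
    have hβ' : ¬ ∃ t : k, t ^ 2 + t = β := by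
      rintro ⟨t, ht⟩
      refine hno ⟨a * t, ?_⟩
      rw [hβ] at ht
      field_simp at ht
      linear_combination ht
    rw [← hC, card_point_variableChange]
    have h0 : Nat.card (fermatCubic k).toAffine.Point =
        1 + ∑ x : k, (Finset.univ.filter fun y : k => y ^ 2 + y = x ^ 3).card := by
      have := cntTwo_card_point h2 (0 : k)
      simp only [add_zero] at this
      exact this
    rw [h0, cntTwo_card_point h2 β, Nat.card_eq_fintype_card]
    have hs : ∑ x : k, (Finset.univ.filter fun y : k => y ^ 2 + y = x ^ 3).card +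
        ∑ x : k, (Finset.univ.filter fun y : k => y ^ 2 + y = x ^ 3 + β).card =
        2 * Fintype.card k := by
      rw [← Finset.sum_add_distrib, Finset.sum_congr rfl fun x _ => cntTwo_fib h2 β hβ' (x ^ 3)]
      simp
      ring
    omega

end Pool.Agent.Lib.MP_1a91b9_ntT.TW
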