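import Pool.Agent.Lib.MP_1a91b9_ntT.TW.Curve
import Pool.Agent.Lib.MP_1a91b9_ntT.S4.Dyadic

/-!
# Dy: the splitting character at the dyadic places

PROOF. Put `Y = (x - a) / 2`, an algebraic integer of `F'` (root of `Y² + a Y - b`; see the proof of `splitChar_dyadic` in
S4/Dyadic.lean, where `(x + a) / 2` is treated), as an element of `𝓞 F'`: `Y ^ 2 + a * Y - b = 0`.
(→) `splitChar F' v = 1` means (definition; `quad_cases`) that the places `w` above `v` have inertia degree `1` and `nrm w = nrm v`;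
take one `w`; the map `𝓞 F ⧸ v → 𝓞 F' ⧸ w` is injective between finite sets of the same cardinality (`nrm_eq`,
`Ideal.absNorm_apply`), so surjective: there is `c : 𝓞 F` with `Y - c ∈ w`, and then
`c ^ 2 + a * c - b = (c - Y) * (c + Y + a) ∈ w`, so in `v = w ∩ 𝓞 F`.
(←) By `splitChar_dyadic` the value is `1` or `-1`. Suppose `-1`; then there is exactly one place `w` above `v` (`quad_cases`), so `w` is stable
under the nontrivial `σ ∈ Gal(F'/F)` (`σ x = -x`, so `σ Y = -a - Y`; `exists_conj` in QuadField.lean; as in `euler_B` in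
S4/FactorB.lean). `(Y - c) * (Y + a + c) = -(c ^ 2 + a * c - b) ∈ w`, so `Y - c ∈ w` or `Y + a + c ∈ w`. If `Y - c ∈ w` then
`σ (Y - c) = -(Y + a + c) ∈ w`, and conversely; so both are in `w`, hence the difference `a + 2 c ∈ w`, `a ∈ w` since `2 ∈ w`, so
`a ^ 2 + 4 * b ∈ v`, contradiction.
-/

set_option autoImplicit false

namespace Pool.Agent.Lib.MP_1a91b9_ntT.TW

open WeierstrassCurve IsDedekindDomain NumberField Pool.Agent.Lib.MP_1a91b9_nt
open Pool.Agent.Lib.MP_1a91b9_ntT.S4 Polynomial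

universe u

open scoped Pointwise in
/-- The splitting character at the dyadic places. -/
theorem splitChar_dy {F F' : Type u} [Field F] [NumberField F] [Field F'] [NumberField F']
    [Algebra F F'] (hL : Module.finrank F F' = 2) (a b : 𝓞 F) (x : F')
    (hx : x ^ 2 = algebraMap F F' ((a ^ 2 + 4 * b : 𝓞 F) : F))
    (hn : ¬ ∃ y : F, algebraMap F F' y = x)
    (hgen : ∀ z : F', ∃ a b : F, z = algebraMap F F' a + algebraMap F F' b * x)
    (v : HeightOneSpectrum (𝓞 F)) (h2 : (2 : 𝓞 F) ∈ v.asIdeal) (hd : a ^ 2 + 4 * b ∉ v.asIdeal) :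
    splitChar F' v = 1 ↔ ∃ c : 𝓞 F, c ^ 2 + a * c - b ∈ v.asIdeal := by
  have hquad : Algebra.IsQuadraticExtension F F' := ⟨hL⟩
  have hgal : IsGalois F F' := inferInstance
  have hvp : v.asIdeal.IsPrime := v.isPrime
  set A : 𝓞 F' := algebraMap (𝓞 F) (𝓞 F') a with hA
  set B : 𝓞 F' := algebraMap (𝓞 F) (𝓞 F') b with hB
  have hAc : (A : F') = algebraMap F F' (a : F) := rfl
  have hBc : (B : F') = algebraMap F F' (b : F) := rfl
  have hx2 : x ^ 2 = (A : F') ^ 2 + 4 * (B : F') := by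
    rw [hx, hAc, hBc]
    change algebraMap F F' (algebraMap (𝓞 F) F (a ^ 2 + 4 * b)) =
      algebraMap F F' (algebraMap (𝓞 F) F a) ^ 2 + 4 * algebraMap F F' (algebraMap (𝓞 F) F b)
    simp only [map_add, map_mul, map_pow, map_ofNat]
  have hYint : _root_.IsIntegral ℤ ((x - (A : F')) / 2) := by
    have hy : ((x - (A : F')) / 2) ^ 2 + (A : F') * ((x - (A : F')) / 2) - (B : F') = 0 := by
      field_simp
      linear_combination hx2
    have h1 : _root_.IsIntegral (𝓞 F') ((x - (A : F')) / 2) := by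
      refine ⟨Polynomial.X ^ 2 + Polynomial.C A * Polynomial.X - Polynomial.C B, ?_, ?_⟩
      · have : (Polynomial.X ^ 2 + Polynomial.C A * Polynomial.X - Polynomial.C B) =
          Polynomial.X ^ 2 + ((Polynomial.C A * Polynomial.X) - Polynomial.C B) := by ring
        rw [this]
        apply Polynomial.monic_X_pow_add
        compute_degree!
      · simp only [Polynomial.eval₂_sub, Polynomial.eval₂_add, Polynomial.eval₂_mul,
          Polynomial.eval₂_pow, Polynomial.eval₂_X, Polynomial.eval₂_C]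
        exact hy
    exact isIntegral_trans _ h1
  obtain ⟨Y, hYc⟩ : ∃ Y : 𝓞 F', (Y : F') = (x - (A : F')) / 2 := ⟨⟨_, hYint⟩, rfl⟩
  have hY : Y ^ 2 + A * Y - B = 0 := by
    apply RingOfIntegers.ext
    change (Y : F') ^ 2 + (A : F') * (Y : F') - (B : F') = 0
    rw [hYc]
    field_simp
    linear_combination hx2
  have hkey : ∀ c : 𝓞 F, (algebraMap (𝓞 F) (𝓞 F') (c ^ 2 + a * c - b)) =
      -((Y - algebraMap (𝓞 F) (𝓞 F') c) * (Y + A + algebraMap (𝓞 F) (𝓞 F') c)) := by
    intro c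
    rw [map_sub, map_add, map_mul, map_pow, ← hA, ← hB]
    linear_combination hY
  constructor
  · intro hs
    rcases quad_cases hL v with ⟨h1, h3⟩ | ⟨h1, h3⟩ | ⟨h1, h3⟩
    · have hne : Nonempty (Over F' v) := by
        rw [← Fintype.card_pos_iff, h1]
        norm_num
      obtain ⟨w⟩ := hne
      have hle : v.asIdeal ≤ w.1.asIdeal.comap (algebraMap (𝓞 F) (𝓞 F')) := le_of_eq w.2.symm
      let f : 𝓞 F ⧸ v.asIdeal →+* 𝓞 F' ⧸ w.1.asIdeal := Ideal.quotientMap _ _ hle
      have hinj : Function.Injective f := Ideal.quotientMap_injective' (le_of_eq w.2)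
      have hfin : Finite (𝓞 F' ⧸ w.1.asIdeal) := w.1.asIdeal.finiteQuotientOfFreeOfNeBot w.1.ne_bot
      have hcard : Nat.card (𝓞 F' ⧸ w.1.asIdeal) ≤ Nat.card (𝓞 F ⧸ v.asIdeal) := by
        have e := (h3 w).2
        rw [nrm_eq, nrm_eq] at e
        exact e.le
      obtain ⟨-, hsurj⟩ := hinj.bijective_of_nat_card_le hcard
      obtain ⟨c', hc'⟩ := hsurj (Ideal.Quotient.mk _ Y)
      obtain ⟨c, rfl⟩ := Ideal.Quotient.mk_surjective c'
      have hc : Y - algebraMap (𝓞 F) (𝓞 F') c ∈ w.1.asIdeal := by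
        rw [← Ideal.Quotient.eq, ← hc']
        rfl
      refine ⟨c, ?_⟩
      rw [← w.2]
      change algebraMap (𝓞 F) (𝓞 F') (c ^ 2 + a * c - b) ∈ w.1.asIdeal
      rw [hkey c]
      exact w.1.asIdeal.neg_mem (Ideal.mul_mem_right _ _ hc)
    · exfalso
      rw [splitChar, if_neg (by rw [h1]; norm_num)] at hs
      split_ifs at hs <;> norm_num at hs
    · exfalso
      rw [splitChar, if_neg (by rw [h1]; norm_num)] at hs
      split_ifs at hs <;> norm_num at hs
  · rintro ⟨c, hc⟩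
    have hdy := splitChar_dyadic hL (a ^ 2 + 4 * b) a b rfl x hx hgen v hd
    refine hdy.resolve_right fun hs => ?_
    have h1 : Fintype.card (Over F' v) = 1 := by
      rcases quad_cases hL v with ⟨h1, h3⟩ | ⟨h1, h3⟩ | ⟨h1, h3⟩
      · exfalso
        rw [splitChar, if_pos h1] at hs
        norm_num at hs
      · exact h1
      · exact h1
    have hsub : Subsingleton (Over F' v) := Fintype.card_le_one_iff_subsingleton.mp h1.le
    have hne : Nonempty (Over F' v) := by
      rw [← Fintype.card_pos_iff, h1]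
      norm_num
    obtain ⟨w⟩ := hne
    have i1 : w.1.asIdeal.IsPrime := w.1.isPrime
    have i2 : w.1.asIdeal.LiesOver v.asIdeal := ⟨w.2.symm⟩
    have hnsq : ¬ IsSquare ((a ^ 2 + 4 * b : 𝓞 F) : F) := by
      rintro ⟨y, hy⟩
      rw [hy, map_mul, ← sq] at hx
      rcases sq_eq_sq_iff_eq_or_eq_neg.mp hx with h | h
      · exact hn ⟨y, h.symm⟩
      · exact hn ⟨-y, by rw [map_neg, h]⟩
    obtain ⟨σ, hσ⟩ := exists_conj _ hnsq x hx
    have hfix : σ • w.1.asIdeal = w.1.asIdeal := by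
      have j1 : (σ • w.1.asIdeal).IsPrime := inferInstance
      have j2 : (σ • w.1.asIdeal).LiesOver v.asIdeal := inferInstance
      have j3 : σ • w.1.asIdeal ≠ ⊥ := under_ne_bot v _ j2.over.symm
      have j4 : (⟨⟨σ • w.1.asIdeal, j1, j3⟩, j2.over.symm⟩ : Over F' v) = w :=
        Subsingleton.elim _ _
      exact congrArg (fun z : Over F' v => z.1.asIdeal) j4
    have hstab : ∀ z : 𝓞 F', z ∈ w.1.asIdeal → σ • z ∈ w.1.asIdeal := by
      intro z hz
      rw [← hfix]
      exact Ideal.smul_mem_pointwise_smul _ _ _ hz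
    have hσY : ((σ • Y : 𝓞 F') : F') = -(A : F') - (Y : F') := by
      change σ (Y : F') = _
      rw [hYc, map_div₀, map_sub, hσ, map_ofNat, hAc, AlgEquiv.commutes]
      ring
    have hσ1 : σ • (Y - algebraMap (𝓞 F) (𝓞 F') c) = -(Y + A + algebraMap (𝓞 F) (𝓞 F') c) := by
      apply RingOfIntegers.ext
      rw [smul_sub]
      change ((σ • Y : 𝓞 F') : F') - σ (algebraMap F F' (c : F)) =
        -((Y : F') + (A : F') + algebraMap F F' (c : F))
      rw [hσY, AlgEquiv.commutes]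
      ring
    have hσ2 : σ • (Y + A + algebraMap (𝓞 F) (𝓞 F') c) = -(Y - algebraMap (𝓞 F) (𝓞 F') c) := by
      apply RingOfIntegers.ext
      rw [smul_add, smul_add]
      change ((σ • Y : 𝓞 F') : F') + σ (algebraMap F F' (a : F)) + σ (algebraMap F F' (c : F)) =
        -((Y : F') - algebraMap F F' (c : F))
      rw [hσY, AlgEquiv.commutes, AlgEquiv.commutes, hAc]
      ring
    have hprod : (Y - algebraMap (𝓞 F) (𝓞 F') c) * (Y + A + algebraMap (𝓞 F) (𝓞 F') c) ∈
        w.1.asIdeal := by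
      rw [← neg_mem_iff, ← hkey c]
      change c ^ 2 + a * c - b ∈ w.1.asIdeal.under (𝓞 F)
      rw [w.2]
      exact hc
    have hboth : Y - algebraMap (𝓞 F) (𝓞 F') c ∈ w.1.asIdeal ∧
        Y + A + algebraMap (𝓞 F) (𝓞 F') c ∈ w.1.asIdeal := by
      rcases i1.mem_or_mem hprod with h | h
      · refine ⟨h, ?_⟩
        have := hstab _ h
        rwa [hσ1, neg_mem_iff] at this
      · refine ⟨?_, h⟩
        have := hstab _ h
        rwa [hσ2, neg_mem_iff] at this
    have h2w : (2 : 𝓞 F') ∈ w.1.asIdeal := by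
      have h2' : (2 : 𝓞 F) ∈ w.1.asIdeal.under (𝓞 F) := by rw [w.2]; exact h2
      change algebraMap (𝓞 F) (𝓞 F') 2 ∈ w.1.asIdeal at h2'
      rwa [map_ofNat] at h2'
    have hAw : A ∈ w.1.asIdeal := by
      have h3 := w.1.asIdeal.sub_mem (w.1.asIdeal.sub_mem hboth.2 hboth.1)
        (Ideal.mul_mem_right (algebraMap (𝓞 F) (𝓞 F') c) _ h2w)
      have h4 : Y + A + algebraMap (𝓞 F) (𝓞 F') c - (Y - algebraMap (𝓞 F) (𝓞 F') c) -
          2 * algebraMap (𝓞 F) (𝓞 F') c = A := by ring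
      rwa [h4] at h3
    have hav : a ∈ v.asIdeal := by
      rw [← w.2]
      exact hAw
    apply hd
    refine v.asIdeal.add_mem (Ideal.pow_mem_of_mem _ hav 2 two_pos) ?_
    have h4 : (4 : 𝓞 F) = 2 * 2 := by norm_num
    rw [h4, mul_assoc]
    exact Ideal.mul_mem_right _ _ h2

end Pool.Agent.Lib.MP_1a91b9_ntT.TW
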