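import Pool.Agent.Lib.MP_1a91b9_ntT.TW.CntOdd
import Pool.Agent.Lib.MP_1a91b9_ntT.TW.CntTwo
import Pool.Agent.Lib.MP_1a91b9_nt.LocalTwist
import Pool.Agent.Lib.MP_1a91b9_ntT.S4.FactorB

/-!
# Model: the places of good reduction

PROOF. `locPoly_model` (S4/FactorB.lean) computes `locPoly (E F) v` and its proof shows how to use `locPoly_of_model` (with
`F = K`, `(W.baseChange F) = W` by `map_id`).
`tw_odd`: model `W₀ = tw d'` over `𝓞 F`, `C` from `exists_tw_scale d α`; `W₀.Δ = -(2 ^ 12 * 3 ^ 3 * d' ^ 6) ∉ v`. Its reduction is `tw` of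
the image of `d'` in the residue field `k`, and the number of points is given by `card_tw_odd`; the residue field of the completion and
`𝓞 F ⧸ v` agree (`redMap F v`, surjective by `residue_surjective`, kernel `v` by `redMap_ker`), so `IsSquare (mk d')` if and only if
`IsSquare (redMap d')`. With `a_E = nrm + 1 - #E(k)`: same number of points, or `a' = nrm + 1 - #tw(k) = -a_E`, and then
`aeval x (1 - C a' X + C q X²) = 1 + a_E x + q x² = aeval (-x) (1 - C a_E X + C q X²)`.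
`tw_two`: model `twm a b`, `C` from `exists_twm` (`2 ≠ 0` in `F`), `(twm a b).Δ = -(3 ^ 3 * (a² + 4 b) ^ 6) ∉ v` (`3 ∉ v` since
`2 ∈ v`), the residue field has characteristic two, `a ≠ 0` in it (else `a² + 4 b ∈ v`), `card_twm_two`; `∃ c : k` versus `∃ c : 𝓞 F` by
surjectivity of `redMap`.
-/

set_option autoImplicit false

namespace Pool.Agent.Lib.MP_1a91b9_ntT.TW

open WeierstrassCurve IsDedekindDomain NumberField Pool.Agent.Lib.MP_1a91b9_nt
open Pool.Agent.Lib.MP_1a91b9_ntT.S4 Polynomial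

universe u

/-- The model of the Fermat cubic, through the quotient of the ring of integers. -/
theorem Model_E {F : Type u} [Field F] [NumberField F] (v : HeightOneSpectrum (𝓞 F))
    (h3 : (3 : 𝓞 F) ∉ v.asIdeal) :
    locPoly (E F) v = 1 - Polynomial.C ((nrm v : ℤ) + 1
      - Nat.card (fermatCubic (𝓞 F ⧸ v.asIdeal)).toAffine.Point) * X
      + Polynomial.C (nrm v : ℤ) * X ^ 2 := by
  have h := lt_locPoly (E F) 1 (fermatCubic (𝓞 F)) (by
    rw [one_smul, fermatCubic_map]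
    rfl) v (by
      rw [fermatCubic_delta]
      intro hmem
      apply h3
      have e : (-27 : 𝓞 F) = -(3 ^ 3) := by norm_num
      rw [e] at hmem
      exact v.isPrime.mem_of_pow_mem 3 (by simpa using v.asIdeal.neg_mem hmem))
  rw [fermatCubic_map] at h
  exact h

/-- Comparison of the two polynomials when the numbers of points add up to `2 q + 2`. -/
theorem Model_aeval (q m n : ℕ) (h : m + n = 2 * q + 2) (x : ℂ) :
    aeval x (1 - Polynomial.C ((q : ℤ) + 1 - (n : ℤ)) * X + Polynomial.C (q : ℤ) * X ^ 2) =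
      aeval (-x) (1 - Polynomial.C ((q : ℤ) + 1 - (m : ℤ)) * X
        + Polynomial.C (q : ℤ) * X ^ 2) := by
  have hn : (n : ℂ) = 2 * (q : ℂ) + 2 - (m : ℂ) := by
    have : (m : ℂ) + (n : ℂ) = 2 * (q : ℂ) + 2 := by exact_mod_cast h
    linear_combination this
  simp only [map_add, map_sub, map_one, map_mul, map_pow, aeval_X,
    map_natCast]
  rw [hn]
  ring

/-- Good places not above `2`. -/
theorem locPoly_tw_odd {F : Type u} [Field F] [NumberField F] (v : HeightOneSpectrum (𝓞 F))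
    (h2 : (2 : 𝓞 F) ∉ v.asIdeal) (h3 : (3 : 𝓞 F) ∉ v.asIdeal) (d α : F) (d' : 𝓞 F)
    (hα : α ≠ 0) (hd' : (d' : F) = d * α ^ 2) (hdv : d' ∉ v.asIdeal) :
    (IsSquare (Ideal.Quotient.mk v.asIdeal d') → locPoly (tw d) v = locPoly (E F) v) ∧
    (¬ IsSquare (Ideal.Quotient.mk v.asIdeal d') →
      ∀ x : ℂ, aeval x (locPoly (tw d) v) = aeval (-x) (locPoly (E F) v)) := by
  have hmax : v.asIdeal.IsMaximal := v.isMaximal
  have hprime : v.asIdeal.IsPrime := v.isPrime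
  let _ : Field (𝓞 F ⧸ v.asIdeal) := Ideal.Quotient.field v.asIdeal
  have hfin : Finite (𝓞 F ⧸ v.asIdeal) := Ideal.finiteQuotientOfFreeOfNeBot v.asIdeal v.ne_bot
  have hmk : ∀ x : 𝓞 F, x ∉ v.asIdeal → Ideal.Quotient.mk v.asIdeal x ≠ 0 := fun x hx h0 =>
    hx (Ideal.Quotient.eq_zero_iff_mem.mp h0)
  obtain ⟨C, hC⟩ := exists_tw_scale d α hα
  have hC' : C • tw d = (tw d').map (algebraMap (𝓞 F) F) := by
    rw [hC, tw_map, ← hd']
  have hΔ : (tw d').Δ ∉ v.asIdeal := by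
    rw [tw_Δ]
    intro hmem
    have h4 : (2 : 𝓞 F) ^ 12 * 3 ^ 3 * d' ^ 6 ∈ v.asIdeal := by
      simpa using v.asIdeal.neg_mem hmem
    rcases hprime.mem_or_mem h4 with h5 | h5
    · rcases hprime.mem_or_mem h5 with h6 | h6
      · exact h2 (hprime.mem_of_pow_mem _ h6)
      · exact h3 (hprime.mem_of_pow_mem _ h6)
    · exact hdv (hprime.mem_of_pow_mem _ h5)
  have h1 := lt_locPoly (tw d) C (tw d') hC' v hΔ
  rw [tw_map] at h1
  have h2' : (2 : 𝓞 F ⧸ v.asIdeal) ≠ 0 := by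
    have := hmk 2 h2
    rwa [map_ofNat] at this
  have h3' : (3 : 𝓞 F ⧸ v.asIdeal) ≠ 0 := by
    have := hmk 3 h3
    rwa [map_ofNat] at this
  obtain ⟨k1, k2⟩ := card_tw_odd h2' h3' (Ideal.Quotient.mk v.asIdeal d') (hmk d' hdv)
  have hq := lt_card_quot v
  rw [h1, Model_E v h3]
  refine ⟨fun hs => ?_, fun hs x => ?_⟩
  · rw [k1 hs]
  · have k3 := k2 hs
    rw [hq] at k3
    exact Model_aeval _ _ _ k3 x

/-- Places above `2`. -/
theorem locPoly_tw_two {F : Type u} [Field F] [NumberField F] (v : HeightOneSpectrum (𝓞 F))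
    (h2 : (2 : 𝓞 F) ∈ v.asIdeal) (a b : 𝓞 F) (hd : a ^ 2 + 4 * b ∉ v.asIdeal) :
    ((∃ c : 𝓞 F, c ^ 2 + a * c - b ∈ v.asIdeal) →
      locPoly (tw ((a ^ 2 + 4 * b : 𝓞 F) : F)) v = locPoly (E F) v) ∧
    ((¬ ∃ c : 𝓞 F, c ^ 2 + a * c - b ∈ v.asIdeal) →
      ∀ x : ℂ, aeval x (locPoly (tw ((a ^ 2 + 4 * b : 𝓞 F) : F)) v)
        = aeval (-x) (locPoly (E F) v)) := by
  have hmax : v.asIdeal.IsMaximal := v.isMaximal
  have hprime : v.asIdeal.IsPrime := v.isPrime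
  let _ : Field (𝓞 F ⧸ v.asIdeal) := Ideal.Quotient.field v.asIdeal
  have hfin : Finite (𝓞 F ⧸ v.asIdeal) := Ideal.finiteQuotientOfFreeOfNeBot v.asIdeal v.ne_bot
  have h3 : (3 : 𝓞 F) ∉ v.asIdeal := by
    intro h
    apply hprime.ne_top
    rw [Ideal.eq_top_iff_one]
    have := v.asIdeal.sub_mem h h2
    have e : (3 : 𝓞 F) - 2 = 1 := by norm_num
    rwa [e] at this
  obtain ⟨C, hC⟩ := exists_twm (two_ne_zero : (2 : F) ≠ 0) (a : F) (b : F)
  have hcast : (((a ^ 2 + 4 * b : 𝓞 F)) : F) = (a : F) ^ 2 + 4 * (b : F) := by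
    push_cast
    rfl
  have hC' : C • tw ((a ^ 2 + 4 * b : 𝓞 F) : F) = (twm a b).map (algebraMap (𝓞 F) F) := by
    rw [hcast, hC, twm_map]
  have hΔ : (twm a b).Δ ∉ v.asIdeal := by
    rw [twm_Δ]
    intro hmem
    have h4 : (3 : 𝓞 F) ^ 3 * (a ^ 2 + 4 * b) ^ 6 ∈ v.asIdeal := by
      simpa using v.asIdeal.neg_mem hmem
    rcases hprime.mem_or_mem h4 with h5 | h5
    · exact h3 (hprime.mem_of_pow_mem _ h5)
    · exact hd (hprime.mem_of_pow_mem _ h5)
  have h1 := lt_locPoly (tw ((a ^ 2 + 4 * b : 𝓞 F) : F)) C (twm a b) hC' v hΔ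
  rw [twm_map] at h1
  have h2' : (2 : 𝓞 F ⧸ v.asIdeal) = 0 := by
    have := Ideal.Quotient.eq_zero_iff_mem.mpr h2
    rwa [map_ofNat] at this
  have ha : Ideal.Quotient.mk v.asIdeal a ≠ 0 := by
    intro h0
    apply hd
    have h5 : a ∈ v.asIdeal := Ideal.Quotient.eq_zero_iff_mem.mp h0
    have h6 : a ^ 2 + 4 * b = a * a + 2 * (2 * b) := by ring
    rw [h6]
    exact v.asIdeal.add_mem (v.asIdeal.mul_mem_left _ h5) (v.asIdeal.mul_mem_right _ h2)
  obtain ⟨k1, k2⟩ := card_twm_two h2' (Ideal.Quotient.mk v.asIdeal a)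
    (Ideal.Quotient.mk v.asIdeal b) ha
  have hex : (∃ c : 𝓞 F, c ^ 2 + a * c - b ∈ v.asIdeal) ↔
      ∃ c : 𝓞 F ⧸ v.asIdeal, c ^ 2 + Ideal.Quotient.mk v.asIdeal a * c =
        Ideal.Quotient.mk v.asIdeal b := by
    constructor
    · rintro ⟨c, hc⟩
      refine ⟨Ideal.Quotient.mk v.asIdeal c, ?_⟩
      have h7 := Ideal.Quotient.eq_zero_iff_mem.mpr hc
      rw [map_sub, map_add, map_pow, map_mul] at h7
      exact sub_eq_zero.mp h7
    · rintro ⟨c, hc⟩
      obtain ⟨c, rfl⟩ := Ideal.Quotient.mk_surjective c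
      refine ⟨c, Ideal.Quotient.eq_zero_iff_mem.mp ?_⟩
      rw [map_sub, map_add, map_pow, map_mul]
      exact sub_eq_zero.mpr hc
  have hq := lt_card_quot v
  rw [h1, Model_E v h3, hex]
  refine ⟨fun hs => ?_, fun hs x => ?_⟩
  · rw [k1 hs]
  · have k3 := k2 hs
    rw [hq] at k3
    exact Model_aeval _ _ _ k3 x

end Pool.Agent.Lib.MP_1a91b9_ntT.TW
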