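import Pool.Agent.Lib.MP_1a91b9_ntT.TW.Additive
import Pool.Agent.Lib.MP_1a91b9_ntT.S4.SplitChi

/-!
# Places: the additive places of a number field

PROOF. Copy `locPoly_fermatCubic_three` (S4/Place.lean): `(tw d).baseChange (completion) = tw (image of d)` (`tw_map`), and the
translation between `(maximalIdeal R).valuation` on the completion, `Valued.v` and `w.valuation N` (an element `t` of the completion with
`v t ^ 2 = v d` gives `v (t ^ 2 / d) = 1`, so `Valued.v (t ^ 2 / d) = 1`, i.e. `Valued.v t ^ 2 = w.valuation N d`).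
`tw_three`: `localPolynomial_tw_three` with `h` from `NoCube3`. `tw_oddAt`: `localPolynomial_tw_odd`; `OddAt v δ` gives
`v.valuation F δ = exp (-(2k+1))` (`intVal_eq` in S4/SplitChi.lean), which is not a square in `ℤᵐ⁰` (see the end of the proof of
`noCube3_rat`); `2 ∉ v`, `3 ∉ v` give valuation `1` (`valuation_lt_one_iff_mem`, `valuation_le_one`).
-/

set_option autoImplicit false

namespace Pool.Agent.Lib.MP_1a91b9_ntT.TW

open WeierstrassCurve IsDedekindDomain NumberField Pool.Agent.Lib.MP_1a91b9_nt
open Pool.Agent.Lib.MP_1a91b9_ntT.S4 Polynomial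

universe u

/-- Transfer of valuation `1` to the canonical valuation. -/
theorem valued_eq_one {N : Type*} [Field N] [NumberField N] (w : HeightOneSpectrum (𝓞 N))
    (z : w.adicCompletion N)
    (hz : (IsDiscreteValuationRing.maximalIdeal (w.adicCompletionIntegers N)).valuation
      (w.adicCompletion N) z = 1) : (Valued.v z : (WithZero (Multiplicative ℤ))) = 1 := by
  set R := w.adicCompletionIntegers N
  set v := (IsDiscreteValuationRing.maximalIdeal R).valuation (w.adicCompletion N) with hv
  have ht2 : v (z⁻¹) = 1 := by rw [map_inv₀, hz, inv_one]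
  obtain ⟨a, ha⟩ := IsDiscreteValuationRing.exists_lift_of_le_one (A := R) hz.le
  obtain ⟨b, hb⟩ := IsDiscreteValuationRing.exists_lift_of_le_one (A := R) ht2.le
  have ha1 : Valued.v z ≤ (1 : (WithZero (Multiplicative ℤ))) := by rw [← ha]; exact a.2
  have hb1 : Valued.v (z⁻¹) ≤ (1 : (WithZero (Multiplicative ℤ))) := by rw [← hb]; exact b.2
  have h0 : (Valued.v z : (WithZero (Multiplicative ℤ))) ≠ 0 := by
    intro h0
    rw [Valuation.zero_iff] at h0
    rw [h0, map_zero] at hz
    exact zero_ne_one hz
  refine le_antisymm ha1 ?_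
  rw [map_inv₀] at hb1
  exact (inv_le_one₀ (zero_lt_iff.mpr h0)).mp hb1

/-- The valuation of the completion at an integer outside the place. -/
theorem val_eq_one_of_notMem {N : Type*} [Field N] [NumberField N]
    (w : HeightOneSpectrum (𝓞 N)) (r : 𝓞 N) (hr : r ∉ w.asIdeal) :
    (IsDiscreteValuationRing.maximalIdeal (w.adicCompletionIntegers N)).valuation
      (w.adicCompletion N) (algebraMap N (w.adicCompletion N) (r : N)) = 1 := by
  set R := w.adicCompletionIntegers N
  have hval : (Valued.v (algebraMap N (w.adicCompletion N) (r : N)) : (WithZero (Multiplicative ℤ))) = 1 := by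
    rw [valued_algebraMap w (r : N)]
    refine le_antisymm (w.valuation_le_one r) ?_
    rw [← not_lt]
    intro hlt
    exact hr ((w.valuation_lt_one_iff_mem (K := N) r).mp hlt)
  let z : R := ⟨algebraMap N (w.adicCompletion N) (r : N), hval.le⟩
  have hz : algebraMap R (w.adicCompletion N) z = algebraMap N (w.adicCompletion N) (r : N) := rfl
  rw [← hz]
  refine le_antisymm (HeightOneSpectrum.valuation_le_one _ z) ?_
  rw [← not_lt]
  intro hlt
  rw [HeightOneSpectrum.valuation_lt_one_iff_mem] at hlt
  change z ∈ IsLocalRing.maximalIdeal R at hlt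
  rw [← IsLocalRing.residue_eq_zero_iff, residue_eq_zero_iff_valued] at hlt
  change Valued.v (algebraMap N (w.adicCompletion N) (r : N)) < 1 at hlt
  rw [hval] at hlt
  exact lt_irrefl _ hlt

/-- The places above `3`. -/
theorem locPoly_tw_three {N : Type*} [Field N] [NumberField N] (d : N) (hd : d ≠ 0)
    (h : NoCube3 N) (v : HeightOneSpectrum (𝓞 N)) (h3 : (3 : 𝓞 N) ∈ v.asIdeal) :
    locPoly (tw d) v = 1 := by
  have hch : CharZero (v.adicCompletion N) :=
    charZero_of_injective_algebraMap (algebraMap N (v.adicCompletion N)).injective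
  have e : (tw d).baseChange (v.adicCompletion N) = tw (algebraMap N (v.adicCompletion N) d) :=
    tw_map _ _
  unfold locPoly
  rw [e]
  have hval3 : (Valued.v (3 : v.adicCompletion N) : (WithZero (Multiplicative ℤ))) = v.valuation N 3 := by
    rw [← valued_algebraMap v 3, map_ofNat (algebraMap N (v.adicCompletion N)) 3]
  refine localPolynomial_tw_three (v.adicCompletionIntegers N) _ ?_ ?_ ?_
  · exact (map_ne_zero_iff _ (algebraMap N (v.adicCompletion N)).injective).mpr hd
  · have e3 : (3 : v.adicCompletion N) =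
        algebraMap (v.adicCompletionIntegers N) (v.adicCompletion N) 3 :=
      (map_ofNat (algebraMap (v.adicCompletionIntegers N) (v.adicCompletion N)) 3).symm
    rw [e3, HeightOneSpectrum.valuation_lt_one_iff_mem]
    change (3 : v.adicCompletionIntegers N) ∈ IsLocalRing.maximalIdeal _
    rw [← IsLocalRing.residue_eq_zero_iff, residue_eq_zero_iff_valued]
    change Valued.v (3 : v.adicCompletion N) < 1
    rw [hval3]
    have := (v.valuation_lt_one_iff_mem (K := N) (3 : 𝓞 N)).mpr h3
    have e : ((3 : 𝓞 N) : N) = 3 := map_ofNat (algebraMap (𝓞 N) N) 3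
    exact (congrArg (fun z => v.valuation N z < 1) e).mp this
  · intro t ht
    have h30 : (3 : v.adicCompletion N) ≠ 0 := by norm_num
    have h1 := valued_eq_one v (t ^ 3 / 3) (by
      rw [map_div₀, map_pow, ht, div_self]
      exact (Valuation.ne_zero_iff _).mpr h30)
    have hne : (Valued.v (3 : v.adicCompletion N) : (WithZero (Multiplicative ℤ))) ≠ 0 :=
      (Valuation.ne_zero_iff _).mpr h30
    rw [map_div₀, map_pow, div_eq_one_iff_eq hne, hval3] at h1
    exact h v h3 _ h1

/-- The places of odd order. -/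
theorem locPoly_tw_oddAt {N : Type*} [Field N] [NumberField N] (δ : 𝓞 N)
    (v : HeightOneSpectrum (𝓞 N)) (h2 : (2 : 𝓞 N) ∉ v.asIdeal) (h3 : (3 : 𝓞 N) ∉ v.asIdeal)
    (h : OddAt v δ) : locPoly (tw (δ : N)) v = 1 := by
  have hδ : δ ≠ 0 := by
    rintro rfl
    obtain ⟨k, -, hk⟩ := h
    exact hk (Ideal.zero_mem _)
  have hd : (δ : N) ≠ 0 := by
    intro h0
    exact hδ (RingOfIntegers.ext (by rw [h0]; rfl))
  have hch : CharZero (v.adicCompletion N) :=
    charZero_of_injective_algebraMap (algebraMap N (v.adicCompletion N)).injective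
  have e : (tw (δ : N)).baseChange (v.adicCompletion N) =
      tw (algebraMap N (v.adicCompletion N) (δ : N)) := tw_map _ _
  unfold locPoly
  rw [e]
  have hd' : algebraMap N (v.adicCompletion N) (δ : N) ≠ 0 :=
    (map_ne_zero_iff _ (algebraMap N (v.adicCompletion N)).injective).mpr hd
  refine localPolynomial_tw_odd (v.adicCompletionIntegers N) _ hd' ?_ ?_ ?_
  · have h := val_eq_one_of_notMem v (2 : 𝓞 N) h2
    have e2 : ((2 : 𝓞 N) : N) = 2 := map_ofNat (algebraMap (𝓞 N) N) 2
    have e2' : algebraMap N (v.adicCompletion N) ((2 : 𝓞 N) : N) = 2 := by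
      rw [e2, map_ofNat]
    rw [e2'] at h
    exact h
  · have h := val_eq_one_of_notMem v (3 : 𝓞 N) h3
    have e2 : ((3 : 𝓞 N) : N) = 3 := map_ofNat (algebraMap (𝓞 N) N) 3
    have e2' : algebraMap N (v.adicCompletion N) ((3 : 𝓞 N) : N) = 3 := by
      rw [e2, map_ofNat]
    rw [e2'] at h
    exact h
  · intro t ht
    have h1 := valued_eq_one v (t ^ 2 / algebraMap N (v.adicCompletion N) (δ : N)) (by
      rw [map_div₀, map_pow, ht, div_self]
      exact (Valuation.ne_zero_iff _).mpr hd')
    have hne : (Valued.v (algebraMap N (v.adicCompletion N) (δ : N)) : (WithZero (Multiplicative ℤ))) ≠ 0 :=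
      (Valuation.ne_zero_iff _).mpr hd'
    rw [map_div₀, map_pow, div_eq_one_iff_eq hne, valued_algebraMap v (δ : N)] at h1
    obtain ⟨k, hk1, hk2⟩ := h
    have hint := intVal_eq v δ (2 * k + 1) hk1 hk2
    rw [show v.valuation N (δ : N) = v.intValuation δ from v.valuation_of_algebraMap δ,
      hint] at h1
    set γ : (WithZero (Multiplicative ℤ)) := Valued.v t with hγ
    have hγ0 : γ ≠ 0 := by
      intro h0
      rw [h0, zero_pow (by norm_num)] at h1
      exact WithZero.exp_ne_zero h1.symm
    obtain ⟨n, hn⟩ : ∃ n : ℤ, γ = WithZero.exp n :=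
      ⟨WithZero.log γ, (WithZero.exp_log hγ0).symm⟩
    rw [hn, ← WithZero.exp_nsmul, WithZero.exp_inj] at h1
    simp at h1
    omega

end Pool.Agent.Lib.MP_1a91b9_ntT.TW
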