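import Pool.Agent.Lib.MP_1a91b9_ntT.TW.Inst
import Pool.Agent.Lib.MP_1a91b9_ntT.TW.Places
import Pool.Agent.Lib.MP_1a91b9_ntT.TW.Model
import Pool.Agent.Lib.MP_1a91b9_ntT.S4.Compare

/-!
# FacK: the L-series of the twist over a field which contains `√-3`
-/

set_option autoImplicit false

namespace Pool.Agent.Lib.MP_1a91b9_ntT.TW

open IsDedekindDomain NumberField Pool.Agent.Lib.MP_1a91b9_nt
open Pool.Agent.Lib.MP_1a91b9_ntT.S4 Polynomial

universe u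

variable {F : Type u} [Field F] [NumberField F] [Algebra K F]

/-- `ψ χ`. -/
noncomputable def psiX (F : Type u) [Field F] [NumberField F] [Algebra K F]
    (χ : HeightOneSpectrum (𝓞 F) → ℤ) (I : Ideal (𝓞 F)) : ℂ := psiC F I * (chiI χ I : ℂ)

/-- `ψbar χ`. -/
noncomputable def psibX (F : Type u) [Field F] [NumberField F] [Algebra K F]
    (χ : HeightOneSpectrum (𝓞 F) → ℤ) (I : Ideal (𝓞 F)) : ℂ := psibC F I * (chiI χ I : ℂ)

theorem psiX_one (χ : HeightOneSpectrum (𝓞 F) → ℤ) : psiX F χ 1 = 1 := by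
  rw [psiX, psiC_one, chiI_one, Int.cast_one, mul_one]

theorem psibX_one (χ : HeightOneSpectrum (𝓞 F) → ℤ) : psibX F χ 1 = 1 := by
  rw [psibX, psibC_one, chiI_one, Int.cast_one, mul_one]

theorem psiX_mul (χ : HeightOneSpectrum (𝓞 F) → ℤ) (I J : Ideal (𝓞 F)) :
    psiX F χ (I * J) = psiX F χ I * psiX F χ J := by
  rw [psiX, psiC_mul, chiI_mul, psiX, psiX, Int.cast_mul]
  ring

theorem psibX_mul (χ : HeightOneSpectrum (𝓞 F) → ℤ) (I J : Ideal (𝓞 F)) :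
    psibX F χ (I * J) = psibX F χ I * psibX F χ J := by
  rw [psibX, psibC_mul, chiI_mul, psibX, psibX, Int.cast_mul]
  ring

theorem psibX_conj (χ : HeightOneSpectrum (𝓞 F) → ℤ) (I : Ideal (𝓞 F)) :
    psibX F χ I = (starRingEnd ℂ) (psiX F χ I) := by
  rw [psibX, psiX, psibC, map_mul, map_intCast]

theorem norm_psibX_le {χ : HeightOneSpectrum (𝓞 F) → ℤ}
    (h : ∀ v, χ v = 0 ∨ χ v = 1 ∨ χ v = -1) (I : Ideal (𝓞 F)) :
    ‖psibX F χ I‖ ≤ (Ideal.absNorm I : ℝ) ^ (1 / 2 : ℝ) :=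
  norm_mul_sign_le I _ (chiI_cases _ h I)

theorem norm_psiX_le {χ : HeightOneSpectrum (𝓞 F) → ℤ}
    (h : ∀ v, χ v = 0 ∨ χ v = 1 ∨ χ v = -1) (I : Ideal (𝓞 F)) :
    ‖psiX F χ I‖ ≤ (Ideal.absNorm I : ℝ) ^ (1 / 2 : ℝ) := by
  have h1 := norm_psibX_le h I
  rwa [psibX_conj, RCLike.norm_conj] at h1

/-- The local polynomial of the twist. -/
theorem aeval_tw {a b : 𝓞 F} {χ : HeightOneSpectrum (𝓞 F) → ℤ} (hχ : TwChi a b χ)
    (hodd : IsCoprime (a ^ 2 + 4 * b) 2) (h : NoCube3 F) (v : HeightOneSpectrum (𝓞 F)) (x : ℂ) :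
    aeval x (locPoly (tw ((a ^ 2 + 4 * b : 𝓞 F) : F)) v) =
      (1 - psiC F v.asIdeal * (χ v : ℂ) * x) * (1 - psibC F v.asIdeal * (χ v : ℂ) * x) := by
  have hd0 : a ^ 2 + 4 * b ≠ 0 := ne_zero_of_odd hodd
  have hd0' : ((a ^ 2 + 4 * b : 𝓞 F) : F) ≠ 0 := by
    intro h0
    exact hd0 (RingOfIntegers.coe_injective (by rw [map_zero]; exact h0))
  by_cases h3 : (3 : 𝓞 F) ∈ v.asIdeal
  · rw [locPoly_tw_three _ hd0' h v h3, psibC, psiC, psi_place_three v h3]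
    simp
  by_cases ho : OddAt v (a ^ 2 + 4 * b)
  · have h2 := odd_coprime_two _ hodd v ho
    rw [locPoly_tw_oddAt _ v h2 h3 ho, hχ.isChi.odd v h2 ho]
    simp
  have hE := (psi_place v h3).2
  by_cases h2 : (2 : 𝓞 F) ∈ v.asIdeal
  · have hm := locPoly_tw_two v h2 a b (not_mem_of_odd hodd v h2)
    by_cases hc : ∃ c : 𝓞 F, c ^ 2 + a * c - b ∈ v.asIdeal
    · rw [hm.1 hc, hχ.dy1 v h2 hc, hE x, Int.cast_one, mul_one, mul_one]
    · rw [hm.2 hc x, hχ.dy2 v h2 hc, hE (-x)]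
      push_cast
      ring
  · obtain ⟨α, d', hα, hd', hdv, _⟩ := S1.bridge v _ hd0 ho
    have hm := locPoly_tw_odd v h2 h3 _ α d' hα hd' hdv
    by_cases hs : IsSquare (Ideal.Quotient.mk v.asIdeal d')
    · rw [hm.1 hs, hχ.isChi.sq v h2 α d' hα hd' hdv hs, hE x, Int.cast_one, mul_one, mul_one]
    · rw [hm.2 hs x, hχ.isChi.nsq v h2 α d' hα hd' hdv hs, hE (-x)]
      push_cast
      ring

/-- The Euler factor of the twist. -/
theorem fac_tw {a b : 𝓞 F} {χ : HeightOneSpectrum (𝓞 F) → ℤ} (hχ : TwChi a b χ)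
    (hodd : IsCoprime (a ^ 2 + 4 * b) 2) (h : NoCube3 F) (v : HeightOneSpectrum (𝓞 F)) (s : ℂ) :
    fac (tw ((a ^ 2 + 4 * b : 𝓞 F) : F)) v s =
      (1 - psiX F χ v.asIdeal * (Ideal.absNorm v.asIdeal : ℂ) ^ (-s))⁻¹ *
      (1 - psibX F χ v.asIdeal * (Ideal.absNorm v.asIdeal : ℂ) ^ (-s))⁻¹ := by
  rw [fac, nrm_eq, aeval_tw hχ hodd h v, mul_inv, psiX, psibX, chiI_place]

/-- The L-series of the twist over a field which contains `√-3`. -/
theorem LSeries_tw_K {a b : 𝓞 F} {χ : HeightOneSpectrum (𝓞 F) → ℤ} (hχ : TwChi a b χ)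
    (hodd : IsCoprime (a ^ 2 + 4 * b) 2) (h : NoCube3 F) (s : ℂ) (hs : 2 < s.re) :
    (tw ((a ^ 2 + 4 * b : 𝓞 F) : F)).LSeries s = Lf (psiX F χ) s * Lf (psibX F χ) s := by
  have hc := hχ.cases hodd
  have hp := (hasProd_Lf (psiX F χ) (psiX_one χ) (psiX_mul χ) (1 / 2) (by norm_num)
    (norm_psiX_le hc) s (by linarith)).2
  have hq := (hasProd_Lf (psibX F χ) (psibX_one χ) (psibX_mul χ) (1 / 2) (by norm_num)
    (norm_psibX_le hc) s (by linarith)).2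
  have hpq := hp.mul hq
  have he := hasProd_fac (tw ((a ^ 2 + 4 * b : 𝓞 F) : F)) hs
  refine he.unique ?_
  have e : (fun v : HeightOneSpectrum (𝓞 F) => fac (tw ((a ^ 2 + 4 * b : 𝓞 F) : F)) v s) =
      fun v => (1 - psiX F χ v.asIdeal * (Ideal.absNorm v.asIdeal : ℂ) ^ (-s))⁻¹ *
      (1 - psibX F χ v.asIdeal * (Ideal.absNorm v.asIdeal : ℂ) ^ (-s))⁻¹ :=
    funext fun v => fac_tw hχ hodd h v s
  rw [e]
  exact hpq

/-- Complex conjugation. -/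
theorem Lf_psiX (χ : HeightOneSpectrum (𝓞 F) → ℤ) (s : ℂ) :
    Lf (psiX F χ) s = (starRingEnd ℂ) (Lf (psibX F χ) ((starRingEnd ℂ) s)) := by
  rw [Lf, Lf, Complex.conj_tsum]
  refine tsum_congr fun I => ?_
  rw [map_mul, psibX_conj, Complex.conj_conj]
  congr 1
  rw [← map_neg, Complex.cpow_conj _ _ (by
    rw [Complex.natCast_arg]
    exact Real.pi_pos.ne), Complex.conj_natCast, Complex.conj_conj]

end Pool.Agent.Lib.MP_1a91b9_ntT.TW
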