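import Pool.Agent.Lib.MP_1a91b9_ntT.TW.Model

/-!
# Inert: inert places of the extension by the cube roots of unity

PROOF. `u4_split` (S4/Split.lean; `ζ = algebraMap K F om`, cf. `euler_B` in S4/FactorB.lean) gives `nrm w = nrm v ^ 2`, `¬ 3 ∣ nrm v - 1` for the
place `w` above an inert `v`; here these are hypotheses. `k = 𝓞 N ⧸ v` has `q` elements, `k' = 𝓞 F ⧸ w` has `q²` elements and contains `k`.
`sq_up`: for `2 ∉ v`, every `z ≠ 0` in `k` is a square in `k'`: `z ^ ((q² - 1) / 2) = (z ^ (q - 1)) ^ ((q + 1) / 2) = 1` (`q` odd) and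
`FiniteField.isSquare_iff`. `as_up`: for `2 ∈ v` (characteristic two) the equation `c² + a c = b`, `a ≠ 0`, `a, b ∈ k`, has a solution in `k'`: put
`β = b / a²`; the sum `T(z) = ∑_{i < 2f} z ^ (2 ^ i)` (`q = 2 ^ f`, `q² = 2 ^ (2 f)`) vanishes exactly on the image of `t ↦ t² + t` on `k'` (the image has
`q² / 2` elements, is contained in the zeros of `T`, which has degree `q² / 2`), and for `β ∈ k`: `T(β) = 2 ∑_{i < f} β ^ (2 ^ i) = 0`. (Or: if
`X² + a X - b` has no root in `k'`, adjoin: it has a root `ρ` in an algebraic closure; `ρ` has degree `≤ 2` over `k`, so `ρ ^ (q²) = ρ` and `ρ ∈ k'`: the roots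
of `X ^ (q²) - X` in the closure are exactly the `q²` elements of `k'`.) The last argument (an element of degree `≤ 2` over `k` is in `k'`) proves both parts:
`ρ² = z` resp. `ρ² + a ρ = b`; `ρ ^ q` is the other root or the same root.
-/

set_option autoImplicit false

namespace Pool.Agent.Lib.MP_1a91b9_ntT.TW

open WeierstrassCurve IsDedekindDomain NumberField Pool.Agent.Lib.MP_1a91b9_nt
open Pool.Agent.Lib.MP_1a91b9_ntT.S4 Polynomial

universe u

/-- A monic quadratic polynomial has a root in the quadratic extension of a finite field. -/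
private theorem inert_root_field {k k' : Type*} [Field k] [Field k'] [Finite k'] [Algebra k k']
    (hc : Nat.card k' = Nat.card k ^ 2) (a b : k) :
    ∃ c : k', c ^ 2 + algebraMap k k' a * c + algebraMap k k' b = 0 := by
  have hk : Finite k := Finite.of_injective _ (algebraMap k k').injective
  by_cases hr : ∃ r : k, r ^ 2 + a * r + b = 0
  · obtain ⟨r, hr⟩ := hr
    exact ⟨algebraMap k k' r, by rw [← map_pow, ← map_mul, ← map_add, ← map_add, hr, map_zero]⟩
  · push Not at hr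
    have hdeg : (C 1 * X ^ 2 + C a * X + C b : k[X]).natDegree = 2 :=
      natDegree_quadratic one_ne_zero
    have hirr : Irreducible (C 1 * X ^ 2 + C a * X + C b : k[X]) := by
      refine Polynomial.irreducible_of_degree_le_three_of_not_isRoot
        (by rw [hdeg]; decide) fun r hr' => hr r ?_
      simpa [IsRoot.def] using hr'
    have : Fact (Irreducible (C 1 * X ^ 2 + C a * X + C b : k[X])) := ⟨hirr⟩
    have hf1 : Module.finrank k (AdjoinRoot (C 1 * X ^ 2 + C a * X + C b : k[X])) = 2 := by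
      rw [(AdjoinRoot.powerBasis hirr.ne_zero).finrank, AdjoinRoot.powerBasis_dim, hdeg]
    have : FiniteDimensional k k' := Module.Finite.of_finite
    have hf2 : Module.finrank k k' = 2 := by
      have h1 := Module.natCard_eq_pow_finrank (K := k) (V := k')
      rw [hc] at h1
      exact (Nat.pow_right_injective (Finite.one_lt_card (α := k)) h1).symm
    obtain ⟨φ⟩ := FiniteField.nonempty_algHom_of_finrank_dvd (F := k)
      (K := AdjoinRoot (C 1 * X ^ 2 + C a * X + C b : k[X])) (L := k') (by rw [hf1, hf2])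
    refine ⟨φ (AdjoinRoot.root _), ?_⟩
    have h1 := AdjoinRoot.eval₂_root (C 1 * X ^ 2 + C a * X + C b : k[X])
    have h2 := congrArg φ h1
    have h3 : ∀ z : k, φ (AdjoinRoot.of (C 1 * X ^ 2 + C a * X + C b : k[X]) z) =
        algebraMap k k' z := fun z => φ.commutes z
    simpa [h3] using h2

/-- A monic quadratic polynomial over `𝓞 N` has a root modulo an inert place. -/
private theorem inert_root {N F : Type*} [Field N] [NumberField N] [Field F] [NumberField F]
    [Algebra N F] (v : HeightOneSpectrum (𝓞 N)) (w : HeightOneSpectrum (𝓞 F))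
    (hw : w.asIdeal.under (𝓞 N) = v.asIdeal) (hn : nrm w = nrm v ^ 2) (a b : 𝓞 N) :
    ∃ c : 𝓞 F, c ^ 2 + algebraMap (𝓞 N) (𝓞 F) a * c + algebraMap (𝓞 N) (𝓞 F) b ∈ w.asIdeal := by
  have hvm : v.asIdeal.IsMaximal := v.isMaximal
  have hwm : w.asIdeal.IsMaximal := w.isMaximal
  let _ : Field (𝓞 N ⧸ v.asIdeal) := Ideal.Quotient.field v.asIdeal
  let _ : Field (𝓞 F ⧸ w.asIdeal) := Ideal.Quotient.field w.asIdeal
  have hle : v.asIdeal ≤ w.asIdeal.comap (algebraMap (𝓞 N) (𝓞 F)) := by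
    rw [← hw]
  let _ : Algebra (𝓞 N ⧸ v.asIdeal) (𝓞 F ⧸ w.asIdeal) :=
    (Ideal.quotientMap w.asIdeal (algebraMap (𝓞 N) (𝓞 F)) hle).toAlgebra
  have hmap : ∀ z : 𝓞 N, algebraMap (𝓞 N ⧸ v.asIdeal) (𝓞 F ⧸ w.asIdeal)
      (Ideal.Quotient.mk _ z) = Ideal.Quotient.mk _ (algebraMap (𝓞 N) (𝓞 F) z) := fun z => rfl
  have hfin : Finite (𝓞 F ⧸ w.asIdeal) := Ideal.finiteQuotientOfFreeOfNeBot _ w.ne_bot
  obtain ⟨c, hc⟩ := inert_root_field (k := 𝓞 N ⧸ v.asIdeal) (k' := 𝓞 F ⧸ w.asIdeal)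
    (by
      rw [nrm_eq, nrm_eq] at hn
      exact hn) (Ideal.Quotient.mk _ a) (Ideal.Quotient.mk _ b)
  obtain ⟨c, rfl⟩ := Ideal.Quotient.mk_surjective c
  refine ⟨c, ?_⟩
  rw [← Ideal.Quotient.eq_zero_iff_mem]
  rw [hmap, hmap] at hc
  simpa using hc

/-- Units become squares in the quadratic extension of the residue field. -/
theorem sq_up {N F : Type*} [Field N] [NumberField N] [Field F] [NumberField F] [Algebra N F]
    (v : HeightOneSpectrum (𝓞 N)) (w : HeightOneSpectrum (𝓞 F))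
    (hw : w.asIdeal.under (𝓞 N) = v.asIdeal) (hn : nrm w = nrm v ^ 2)
    (h2 : (2 : 𝓞 N) ∉ v.asIdeal) (z : 𝓞 N) :
    IsSquare (Ideal.Quotient.mk w.asIdeal (algebraMap (𝓞 N) (𝓞 F) z)) := by
  obtain ⟨c, hc⟩ := inert_root v w hw hn 0 (-z)
  refine ⟨Ideal.Quotient.mk w.asIdeal c, ?_⟩
  rw [← map_mul, eq_comm, Ideal.Quotient.eq]
  have h : c * c - algebraMap (𝓞 N) (𝓞 F) z =
      c ^ 2 + algebraMap (𝓞 N) (𝓞 F) 0 * c + algebraMap (𝓞 N) (𝓞 F) (-z) := by
    rw [map_zero, map_neg]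
    ring
  rw [h]
  exact hc

/-- Artin-Schreier equations become solvable in the quadratic extension of the residue field. -/
theorem as_up {N F : Type*} [Field N] [NumberField N] [Field F] [NumberField F] [Algebra N F]
    (v : HeightOneSpectrum (𝓞 N)) (w : HeightOneSpectrum (𝓞 F))
    (hw : w.asIdeal.under (𝓞 N) = v.asIdeal) (hn : nrm w = nrm v ^ 2)
    (h2 : (2 : 𝓞 N) ∈ v.asIdeal) (a b : 𝓞 N) (ha : a ∉ v.asIdeal) :
    ∃ c : 𝓞 F, c ^ 2 + algebraMap (𝓞 N) (𝓞 F) a * c - algebraMap (𝓞 N) (𝓞 F) b ∈ w.asIdeal := by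
  obtain ⟨c, hc⟩ := inert_root v w hw hn a (-b)
  refine ⟨c, ?_⟩
  rw [map_neg, ← sub_eq_add_neg] at hc
  exact hc

end Pool.Agent.Lib.MP_1a91b9_ntT.TW
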