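import Pool.Agent.Lib.MP_1a91b9_ntT.TW.Curve
import Pool.Agent.Lib.MP_1a91b9_ntT.S4.Split
import Pool.Agent.Lib.MP_1a91b9_ntT.S4.SplitChi

/-!
# OddUp: odd order is preserved in the extension by the cube roots of unity

PROOF. Let `e` be the ramification index of `w` over `v`. `u4_split` and
`Ideal.ncard_primesOver_mul_ramificationIdxIn_mul_inertiaDegIn` (`g e f = 2`) show `e = 1`: in the first case `g = 2`; in the second case `nrm w = nrm v ^ 2`,
so `f = 2` (`Ideal.absNorm_pow_inertiaDeg`, as in `locPoly_dep` of LocDep.lean). `HeightOneSpectrum.valuation_liesOver` (used in `NoCube3.up`, S4/Place.lean):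
`w.valuation F δ = (v.valuation N δ) ^ 1`. `OddAt v δ` if and only if the valuation is `exp (-(2k+1))` (`intVal_eq`, `mem_pow_iff` in S4/SplitChi.lean).
-/

set_option autoImplicit false

namespace Pool.Agent.Lib.MP_1a91b9_ntT.TW

open WeierstrassCurve IsDedekindDomain NumberField Pool.Agent.Lib.MP_1a91b9_nt
open Pool.Agent.Lib.MP_1a91b9_ntT.S4 Polynomial

universe u

/-- The extension by the cube roots of unity is unramified outside `3`. -/
theorem oddUp_ramIdx {N F : Type u} [Field N] [NumberField N] [Field F] [NumberField F]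
    [Algebra N F] (hL : Module.finrank N F = 2) (ζ : F) (hζ : ζ ^ 2 + ζ + 1 = 0)
    (hn : ∀ x : N, algebraMap N F x ≠ ζ) (v : HeightOneSpectrum (𝓞 N))
    (h3 : (3 : 𝓞 N) ∉ v.asIdeal) (w : HeightOneSpectrum (𝓞 F))
    (hw : w.asIdeal.under (𝓞 N) = v.asIdeal) :
    v.asIdeal.ramificationIdx' w.asIdeal = 1 := by
  have hquad : Algebra.IsQuadraticExtension N F := ⟨hL⟩
  have hgal : IsGalois N F := inferInstance
  have hvp : v.asIdeal.IsPrime := v.isPrime
  have hvm : v.asIdeal.IsMaximal := v.isMaximal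
  have i1 : w.asIdeal.IsPrime := w.isPrime
  have i2 : w.asIdeal.LiesOver v.asIdeal := ⟨hw.symm⟩
  have hfund := Ideal.ncard_primesOver_mul_ramificationIdxIn_mul_inertiaDegIn v.asIdeal (𝓞 F)
    Gal(F/N)
  have hcard : Nat.card Gal(F/N) = 2 := by
    rw [IsGalois.card_aut_eq_finrank, hL]
  rw [hcard] at hfund
  have he : Ideal.ramificationIdxIn v.asIdeal (𝓞 F) = v.asIdeal.ramificationIdx' w.asIdeal := by
    rw [Ideal.ramificationIdx'_eq_ramificationIdx]
    · exact Ideal.ramificationIdxIn_eq_ramificationIdx v.asIdeal w.asIdeal Gal(F/N)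
    · exact v.ne_bot
  have hdeg : w.asIdeal.inertiaDeg (𝓞 N) = Ideal.inertiaDegIn v.asIdeal (𝓞 F) :=
    (Ideal.inertiaDegIn_eq_inertiaDeg v.asIdeal w.asIdeal Gal(F/N)).symm
  have hnrm : nrm w = nrm v ^ Ideal.inertiaDegIn v.asIdeal (𝓞 F) := by
    rw [nrm_eq, nrm_eq, ← hdeg, Ideal.absNorm_pow_inertiaDeg v.asIdeal w.asIdeal]
  rw [← he]
  rcases u4_split hL ζ hζ hn v h3 with ⟨_, _, g3⟩ | ⟨_, g2, _⟩
  · rw [card_over_eq] at g3
    rw [g3] at hfund
    have h4 : Ideal.ramificationIdxIn v.asIdeal (𝓞 F) * Ideal.inertiaDegIn v.asIdeal (𝓞 F) = 1 := by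
      omega
    exact Nat.eq_one_of_mul_eq_one_right h4
  · have h5 := g2 w hw
    rw [hnrm] at h5
    have h6 : 1 < nrm v := by
      rw [nrm_eq]
      have := Ideal.absNorm_eq_one_iff (I := v.asIdeal)
      have h7 : Ideal.absNorm v.asIdeal ≠ 1 := fun h => hvp.ne_top (this.mp h)
      have h8 : Ideal.absNorm v.asIdeal ≠ 0 := by
        rw [Ne, Ideal.absNorm_eq_zero_iff]
        exact v.ne_bot
      omega
    have h7 : Ideal.inertiaDegIn v.asIdeal (𝓞 F) = 2 := Nat.pow_right_injective h6 h5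
    rw [h7] at hfund
    have h8 : (v.asIdeal.primesOver (𝓞 F)).ncard * Ideal.ramificationIdxIn v.asIdeal (𝓞 F) = 1 := by
      nlinarith [hfund]
    exact Nat.eq_one_of_mul_eq_one_left h8

/-- Odd order goes up. -/
theorem oddAt_up {N F : Type u} [Field N] [NumberField N] [Field F] [NumberField F]
    [Algebra N F] (hL : Module.finrank N F = 2) (ζ : F) (hζ : ζ ^ 2 + ζ + 1 = 0)
    (hn : ∀ x : N, algebraMap N F x ≠ ζ) (v : HeightOneSpectrum (𝓞 N))
    (h3 : (3 : 𝓞 N) ∉ v.asIdeal) (w : HeightOneSpectrum (𝓞 F))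
    (hw : w.asIdeal.under (𝓞 N) = v.asIdeal) (δ : 𝓞 N) :
    OddAt w (algebraMap (𝓞 N) (𝓞 F) δ) ↔ OddAt v δ := by
  have i1 : w.asIdeal.IsPrime := w.isPrime
  have i2 : w.asIdeal.LiesOver v.asIdeal := ⟨hw.symm⟩
  have hval := HeightOneSpectrum.intValuation_liesOver v w δ
  rw [oddUp_ramIdx hL ζ hζ hn v h3 w hw, pow_one] at hval
  have hmem : ∀ n : ℕ, algebraMap (𝓞 N) (𝓞 F) δ ∈ w.asIdeal ^ n ↔ δ ∈ v.asIdeal ^ n := by
    intro n
    rw [← w.intValuation_le_pow_iff_mem, ← v.intValuation_le_pow_iff_mem, hval]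
  constructor
  · rintro ⟨k, h1, h2⟩
    exact ⟨k, (hmem _).mp h1, fun h => h2 ((hmem _).mpr h)⟩
  · rintro ⟨k, h1, h2⟩
    exact ⟨k, (hmem _).mpr h1, fun h => h2 ((hmem _).mp h)⟩

end Pool.Agent.Lib.MP_1a91b9_ntT.TW
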