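import Pool.Agent.Lib.MP_1a91b9_ntT.TW.FacK
import Pool.Agent.Lib.MP_1a91b9_ntT.TW.Inert
import Pool.Agent.Lib.MP_1a91b9_ntT.TW.OddUp

/-!
# FacN: the L-series of the twist over a field without `√-3`
-/

set_option autoImplicit false

namespace Pool.Agent.Lib.MP_1a91b9_ntT.TW

open IsDedekindDomain NumberField Pool.Agent.Lib.MP_1a91b9_nt
open Pool.Agent.Lib.MP_1a91b9_ntT.S4 Polynomial WeierstrassCurve
open scoped Pointwise

universe u

section
variable {N F : Type u} [Field N] [NumberField N] [Field F] [NumberField F] [Algebra N F]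
  [Algebra K F]

/-- The places of `N(√-3)` above a place of `N` not above `3`. -/
theorem place_data (hL : Module.finrank N F = 2)
    (hn : ∀ x : N, algebraMap N F x ≠ algebraMap K F om) (v : HeightOneSpectrum (𝓞 N))
    (h3 : (3 : 𝓞 N) ∉ v.asIdeal) :
    (∃ w w' : Over F v, (∀ f : Over F v → ℂ, ∏ x, f x = f w * f w') ∧
      nrm w.1 = nrm v ∧ nrm w'.1 = nrm v ∧ psibC F w'.1.asIdeal = psiC F w.1.asIdeal ∧
      ∀ x : ℂ, aeval x (locPoly (E N) v) =
        (1 - psiC F w.1.asIdeal * x) * (1 - psibC F w.1.asIdeal * x)) ∨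
    (∃ w : Over F v, (∀ f : Over F v → ℂ, ∏ x, f x = f w) ∧ nrm w.1 = nrm v ^ 2 ∧
      psibC F w.1.asIdeal = -(nrm v : ℂ) ∧
      ∀ x : ℂ, aeval x (locPoly (E N) v) = 1 + (nrm v : ℂ) * x ^ 2) := by
  classical
  have hζ : (algebraMap K F om) ^ 2 + algebraMap K F om + 1 = 0 := by
    rw [← map_pow, ← map_add, ← map_one (algebraMap K F), ← map_add, om_eq, map_zero]
  have hquad : Algebra.IsQuadraticExtension N F := ⟨hL⟩
  have hgal : IsGalois N F := inferInstance
  have hroot : ∀ σ : Gal(F/N), σ (algebraMap K F om) = algebraMap K F om ∨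
      σ (algebraMap K F om) = algebraMap K F (-1 - om) := by
    intro σ
    have h2 : (σ (algebraMap K F om)) ^ 2 + σ (algebraMap K F om) + 1 = 0 := by
      rw [← map_pow, ← map_add, ← map_one σ, ← map_add, hζ, map_zero]
    have h4 : (σ (algebraMap K F om) - algebraMap K F om) *
        (σ (algebraMap K F om) + 1 + algebraMap K F om) = 0 := by linear_combination h2 - hζ
    rcases mul_eq_zero.mp h4 with h | h
    · exact Or.inl (sub_eq_zero.mp h)
    · right
      rw [map_sub, map_neg, map_one]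
      linear_combination h
  have hcard : Nat.card Gal(F/N) = 2 := by
    rw [IsGalois.card_aut_eq_finrank, hL]
  have h3w : ∀ w : Over F v, (3 : 𝓞 F) ∉ w.1.asIdeal := by
    intro w hmem
    apply h3
    rw [← w.2]
    change algebraMap (𝓞 N) (𝓞 F) 3 ∈ w.1.asIdeal
    rw [map_ofNat]
    exact hmem
  have hvp : v.asIdeal.IsPrime := v.isPrime
  have hexσ : ∃ σ : Gal(F/N), σ (algebraMap K F om) = algebraMap K F (-1 - om) := by
    by_contra hcon
    push Not at hcon
    obtain ⟨x, hx⟩ := (IsGalois.mem_range_algebraMap_iff_fixed (algebraMap K F om)).mpr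
      (fun σ => (hroot σ).resolve_right (hcon σ))
    exact hn x hx
  obtain ⟨σ₀, hσ₀⟩ := hexσ
  have hσ₀1 : σ₀ ≠ 1 := by
    rintro rfl
    have h5 : algebraMap K F om = algebraMap K F (-1 - om) := hσ₀
    have h6 := (algebraMap K F).injective h5
    have h7 : 2 * om = -1 := by linear_combination h6
    have h8 := om_eq
    have h9 : (3 : K) = 0 := by linear_combination 4 * h8 - (2 * om + 1) * h7
    norm_num at h9
  have huniq : ∀ σ : Gal(F/N), σ ≠ 1 → σ = σ₀ := by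
    intro σ hσ
    obtain ⟨y, hy, hyu⟩ := (Nat.card_eq_two_iff' (1 : Gal(F/N))).mp hcard
    rw [hyu σ hσ, hyu σ₀ hσ₀1]
  rcases u4_split hL (algebraMap K F om) hζ hn v h3 with ⟨g1, g2, g3⟩ | ⟨g1, g2, g3⟩
  · -- split
    left
    have g3' : Fintype.card (Over F v) = 2 := by rw [← Nat.card_eq_fintype_card]; exact g3
    rw [← Finset.card_univ, Finset.card_eq_two] at g3'
    obtain ⟨w, w', hww, huniv⟩ := g3'
    have i1 : w.1.asIdeal.IsPrime := w.1.isPrime
    have i2 : w.1.asIdeal.LiesOver v.asIdeal := ⟨w.2.symm⟩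
    have i1' : w'.1.asIdeal.IsPrime := w'.1.isPrime
    have i2' : w'.1.asIdeal.LiesOver v.asIdeal := ⟨w'.2.symm⟩
    obtain ⟨σ, hσ⟩ := Ideal.exists_smul_eq_of_isGaloisGroup v.asIdeal w.1.asIdeal w'.1.asIdeal
      Gal(F/N)
    have hσ1 : σ ≠ 1 := by
      rintro rfl
      rw [one_smul] at hσ
      exact hww (Subtype.ext (HeightOneSpectrum.ext hσ))
    rw [huniq σ hσ1] at hσ
    have hpsi := psiC_conj σ₀ hσ₀ w.1 w'.1 hσ.symm (by rw [g2 w'.1 w'.2, g2 w.1 w.2])
    have hpsib : psibC F w'.1.asIdeal = psiC F w.1.asIdeal := by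
      rw [psibC, hpsi, psibC, Complex.conj_conj]
    refine ⟨w, w', fun f => by rw [huniv, Finset.prod_pair hww], g2 w.1 w.2, g2 w'.1 w'.2,
      hpsib, fun x => ?_⟩
    rw [← locPoly_same v h3 w.1 w.2 (g2 w.1 w.2), (psi_place w.1 (h3w w)).2]
  · -- inert
    right
    have g3' : Fintype.card (Over F v) = 1 := by rw [← Nat.card_eq_fintype_card]; exact g3
    have hsub : Subsingleton (Over F v) := Fintype.card_le_one_iff_subsingleton.mp g3'.le
    rw [← Finset.card_univ, Finset.card_eq_one] at g3'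
    obtain ⟨w, huniv⟩ := g3'
    have i1 : w.1.asIdeal.IsPrime := w.1.isPrime
    have i2 : w.1.asIdeal.LiesOver v.asIdeal := ⟨w.2.symm⟩
    have hfix : σ₀ • w.1.asIdeal = w.1.asIdeal := by
      have j1 : (σ₀ • w.1.asIdeal).IsPrime := inferInstance
      have j2 : (σ₀ • w.1.asIdeal).LiesOver v.asIdeal := inferInstance
      have j3 : σ₀ • w.1.asIdeal ≠ ⊥ := under_ne_bot v _ j2.over.symm
      have j4 : (⟨⟨σ₀ • w.1.asIdeal, j1, j3⟩, j2.over.symm⟩ : Over F v) = w :=
        Subsingleton.elim _ _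
      exact congrArg (fun z : Over F v => z.1.asIdeal) j4
    have hpsi := psiC_conj σ₀ hσ₀ w.1 w.1 hfix.symm rfl
    have hn2 := g2 w.1 w.2
    have hprod := (psi_place w.1 (h3w w)).1
    rw [← hpsi, hn2] at hprod
    -- the two possibilities
    have hcases : psi F w.1.asIdeal = (nrm v : 𝓞 K) ∨ psi F w.1.asIdeal = -(nrm v : 𝓞 K) := by
      have hinj : Function.Injective fun x : 𝓞 K => embK (x : K) :=
        embK.toRingHom.injective.comp RingOfIntegers.coe_injective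
      have h5 : psi F w.1.asIdeal ^ 2 = (nrm v : 𝓞 K) ^ 2 := by
        apply hinj
        change embK (algebraMap (𝓞 K) K (psi F w.1.asIdeal ^ 2)) =
          embK (algebraMap (𝓞 K) K ((nrm v : 𝓞 K) ^ 2))
        rw [map_pow, map_pow, map_pow, map_pow, map_natCast, map_natCast]
        have h6 : embK (algebraMap (𝓞 K) K (psi F w.1.asIdeal)) = psiC F w.1.asIdeal := rfl
        rw [h6, sq, hprod]
        push_cast
        ring
      exact sq_eq_sq_iff_eq_or_eq_neg.mp h5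
    have hmod : (3 : 𝓞 K) ∣ psi F w.1.asIdeal - 1 := by
      obtain ⟨γ, k1, k2, _⟩ := exists_psi w.1 (h3w w)
      rw [psi, ← k2, psiK_span γ k1]
      exact k1
    have hfinv : Finite (IsLocalRing.ResidueField (v.adicCompletionIntegers N)) :=
      finite_residue v
    have hnpos : 0 < nrm v := Nat.card_pos
    have hneg : psi F w.1.asIdeal = -(nrm v : 𝓞 K) := by
      refine hcases.resolve_left fun h5 => ?_
      apply g1
      rw [h5] at hmod
      have h6 : (nrm v : 𝓞 K) - 1 = ((nrm v - 1 : ℕ) : 𝓞 K) := by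
        rw [Nat.cast_sub hnpos, Nat.cast_one]
      rw [h6, ← Ideal.span_singleton_le_span_singleton] at hmod
      have h7 := Ideal.absNorm_dvd_absNorm_of_le hmod
      have e3 := u4_absNorm_p (K := K) 3
      rw [Nat.cast_ofNat] at e3
      rw [e3, u4_absNorm_p] at h7
      exact (Nat.pow_dvd_pow_iff two_ne_zero).mp h7
    have hpsib : psibC F w.1.asIdeal = -(nrm v : ℂ) := by
      rw [psibC, psiC, hneg]
      change (starRingEnd ℂ) (embK (algebraMap (𝓞 K) K (-(nrm v : 𝓞 K)))) = _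
      rw [map_neg, map_neg, map_neg, map_natCast, map_natCast, map_natCast]
    have h3k : (3 : IsLocalRing.ResidueField (v.adicCompletionIntegers N)) ≠ 0 := by
      intro h
      apply h3
      have h4 : (3 : 𝓞 N) ∈ RingHom.ker (redMap N v) := by
        rw [RingHom.mem_ker, map_ofNat]; exact h
      rw [redMap_ker] at h4
      exact h4
    have hcnt := card_fermatCubic_of_two h3k g1
    refine ⟨w, fun f => by rw [huniv, Finset.prod_singleton], hn2, hpsib, fun x => ?_⟩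
    rw [locPoly_model v h3, hcnt]
    have h9 : ((Nat.card (IsLocalRing.ResidueField (v.adicCompletionIntegers N)) + 1 : ℕ) : ℤ) =
        (nrm v : ℤ) + 1 := by
      push_cast
      rfl
    rw [h9]
    simp only [sub_self, map_zero, zero_mul, sub_zero, map_add, map_one, map_mul, map_pow, aeval_X,
      map_natCast]

/-- Residue fields of the same cardinality. -/
theorem exists_lift_of_nrm (v : HeightOneSpectrum (𝓞 N)) (w : HeightOneSpectrum (𝓞 F))
    (hw : w.asIdeal.under (𝓞 N) = v.asIdeal) (hn : nrm w = nrm v) (z : 𝓞 F) :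
    ∃ y : 𝓞 N, z - algebraMap (𝓞 N) (𝓞 F) y ∈ w.asIdeal := by
  have hfw : Finite (𝓞 F ⧸ w.asIdeal) := w.asIdeal.finiteQuotientOfFreeOfNeBot w.ne_bot
  have hfv : Finite (𝓞 N ⧸ v.asIdeal) := v.asIdeal.finiteQuotientOfFreeOfNeBot v.ne_bot
  let f : 𝓞 N ⧸ v.asIdeal →+* 𝓞 F ⧸ w.asIdeal :=
    Ideal.quotientMap w.asIdeal (algebraMap (𝓞 N) (𝓞 F)) hw.symm.le
  have hinj : Function.Injective f := Ideal.quotientMap_injective' hw.le
  have hcard : Nat.card (𝓞 N ⧸ v.asIdeal) = Nat.card (𝓞 F ⧸ w.asIdeal) := by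
    rw [nrm_eq, nrm_eq] at hn
    exact hn.symm
  have hbij : Function.Bijective f := by
    have := Fintype.ofFinite (𝓞 N ⧸ v.asIdeal)
    have := Fintype.ofFinite (𝓞 F ⧸ w.asIdeal)
    rw [Fintype.bijective_iff_injective_and_card]
    refine ⟨hinj, ?_⟩
    rw [← Nat.card_eq_fintype_card, ← Nat.card_eq_fintype_card]
    exact hcard
  obtain ⟨y', hy'⟩ := hbij.2 (Ideal.Quotient.mk _ z)
  obtain ⟨y, rfl⟩ := Ideal.Quotient.mk_surjective y'
  refine ⟨y, ?_⟩
  rw [← Ideal.Quotient.eq]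
  exact hy'.symm

theorem mem_under_iff (v : HeightOneSpectrum (𝓞 N)) (w : HeightOneSpectrum (𝓞 F))
    (hw : w.asIdeal.under (𝓞 N) = v.asIdeal) (z : 𝓞 N) :
    algebraMap (𝓞 N) (𝓞 F) z ∈ w.asIdeal ↔ z ∈ v.asIdeal := by
  rw [← hw]
  exact Iff.rfl

/-- The Euler factor of the twist. -/
theorem euler_tw_B (hL : Module.finrank N F = 2)
    (hn : ∀ x : N, algebraMap N F x ≠ algebraMap K F om) (h : NoCube3 N) {a b : 𝓞 N}
    {χ : HeightOneSpectrum (𝓞 F) → ℤ}
    (hχ : TwChi (algebraMap (𝓞 N) (𝓞 F) a) (algebraMap (𝓞 N) (𝓞 F) b) χ)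
    (hodd : IsCoprime (a ^ 2 + 4 * b) 2) (v : HeightOneSpectrum (𝓞 N)) (s : ℂ) :
    ∏ w : Over F v, (1 - psibX F χ w.1.asIdeal * (Ideal.absNorm w.1.asIdeal : ℂ) ^ (-s))⁻¹ =
      fac (tw ((a ^ 2 + 4 * b : 𝓞 N) : N)) v s := by
  classical
  have hd0 : a ^ 2 + 4 * b ≠ 0 := ne_zero_of_odd hodd
  have hd0' : ((a ^ 2 + 4 * b : 𝓞 N) : N) ≠ 0 := by
    intro h0
    exact hd0 (RingOfIntegers.coe_injective (by rw [map_zero]; exact h0))
  have hmapd : algebraMap (𝓞 N) (𝓞 F) (a ^ 2 + 4 * b) =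
      (algebraMap (𝓞 N) (𝓞 F) a) ^ 2 + 4 * algebraMap (𝓞 N) (𝓞 F) b := by
    rw [map_add, map_mul, map_pow, map_ofNat]
  have hoddF : IsCoprime ((algebraMap (𝓞 N) (𝓞 F) a) ^ 2 + 4 * algebraMap (𝓞 N) (𝓞 F) b)
      (2 : 𝓞 F) := by
    have h1 := hodd.map (algebraMap (𝓞 N) (𝓞 F))
    rwa [hmapd, map_ofNat] at h1
  rw [fac]
  by_cases h3 : (3 : 𝓞 N) ∈ v.asIdeal
  · rw [locPoly_tw_three _ hd0' h v h3, map_one, inv_one]
    refine Finset.prod_eq_one fun w _ => ?_
    have h3w : (3 : 𝓞 F) ∈ w.1.asIdeal := by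
      have := (mem_under_iff v w.1 w.2 3).2 h3
      rwa [map_ofNat] at this
    rw [psibX, psibC, psiC, psi_place_three w.1 h3w]
    simp
  have hζ : (algebraMap K F om) ^ 2 + algebraMap K F om + 1 = 0 := by
    rw [← map_pow, ← map_add, ← map_one (algebraMap K F), ← map_add, om_eq, map_zero]
  by_cases ho : OddAt v (a ^ 2 + 4 * b)
  · have h2 := odd_coprime_two _ hodd v ho
    rw [locPoly_tw_oddAt _ v h2 h3 ho, map_one, inv_one]
    refine Finset.prod_eq_one fun w _ => ?_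
    have how := (oddAt_up hL _ hζ hn v h3 w.1 w.2 (a ^ 2 + 4 * b)).2 ho
    rw [hmapd] at how
    have h2w := odd_coprime_two _ hoddF w.1 how
    rw [psibX, chiI_place, hχ.isChi.odd w.1 h2w how]
    simp
  -- the residue criterion
  have key : ∃ ε : ℤ, (∀ x : ℂ, aeval x (locPoly (tw ((a ^ 2 + 4 * b : 𝓞 N) : N)) v) =
      aeval ((ε : ℂ) * x) (locPoly (E N) v)) ∧ (ε = 1 ∨ ε = -1) ∧
      (∀ w : HeightOneSpectrum (𝓞 F), w.asIdeal.under (𝓞 N) = v.asIdeal → nrm w = nrm v →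
        χ w = ε) ∧
      (∀ w : HeightOneSpectrum (𝓞 F), w.asIdeal.under (𝓞 N) = v.asIdeal → nrm w = nrm v ^ 2 →
        χ w = 1) := by
    by_cases h2 : (2 : 𝓞 N) ∈ v.asIdeal
    · have hdv := not_mem_of_odd hodd v h2
      have hav : a ∉ v.asIdeal := by
        intro ha
        apply hdv
        have e4 : (4 : 𝓞 N) = 2 * 2 := by norm_num
        rw [e4, pow_two, mul_assoc 2]
        exact Ideal.add_mem _ (Ideal.mul_mem_left _ _ ha) (Ideal.mul_mem_right _ _ h2)
      have hm := locPoly_tw_two v h2 a b hdv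
      have h2w : ∀ w : HeightOneSpectrum (𝓞 F), w.asIdeal.under (𝓞 N) = v.asIdeal →
          (2 : 𝓞 F) ∈ w.asIdeal := by
        intro w hw
        have := (mem_under_iff v w hw 2).2 h2
        rwa [map_ofNat] at this
      have hup : ∀ w : HeightOneSpectrum (𝓞 F), w.asIdeal.under (𝓞 N) = v.asIdeal →
          nrm w = nrm v → ((∃ c : 𝓞 F, c ^ 2 + algebraMap (𝓞 N) (𝓞 F) a * c -
            algebraMap (𝓞 N) (𝓞 F) b ∈ w.asIdeal) ↔
              ∃ c : 𝓞 N, c ^ 2 + a * c - b ∈ v.asIdeal) := by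
        intro w hw hnw
        constructor
        · rintro ⟨c, hc⟩
          obtain ⟨y, hy⟩ := exists_lift_of_nrm v w hw hnw c
          refine ⟨y, ?_⟩
          rw [← mem_under_iff v w hw]
          have e : algebraMap (𝓞 N) (𝓞 F) (y ^ 2 + a * y - b) =
              (c ^ 2 + algebraMap (𝓞 N) (𝓞 F) a * c - algebraMap (𝓞 N) (𝓞 F) b) -
              (c + algebraMap (𝓞 N) (𝓞 F) y + algebraMap (𝓞 N) (𝓞 F) a) *
                (c - algebraMap (𝓞 N) (𝓞 F) y) := by
            rw [map_sub, map_add, map_mul, map_pow]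
            ring
          rw [e]
          exact Ideal.sub_mem _ hc (Ideal.mul_mem_left _ _ hy)
        · rintro ⟨c, hc⟩
          refine ⟨algebraMap (𝓞 N) (𝓞 F) c, ?_⟩
          have := (mem_under_iff v w hw _).2 hc
          rwa [map_sub, map_add, map_mul, map_pow] at this
      by_cases hc : ∃ c : 𝓞 N, c ^ 2 + a * c - b ∈ v.asIdeal
      · refine ⟨1, fun x => ?_, Or.inl rfl, fun w hw hnw => ?_, fun w hw hnw => ?_⟩
        · rw [hm.1 hc, Int.cast_one, one_mul]
        · exact hχ.dy1 w (h2w w hw) ((hup w hw hnw).2 hc)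
        · exact hχ.dy1 w (h2w w hw) (as_up v w hw hnw h2 a b hav)
      · refine ⟨-1, fun x => ?_, Or.inr rfl, fun w hw hnw => ?_, fun w hw hnw => ?_⟩
        · rw [hm.2 hc x, Int.cast_neg, Int.cast_one, neg_one_mul]
        · exact hχ.dy2 w (h2w w hw) fun h5 => hc ((hup w hw hnw).1 h5)
        · exact hχ.dy1 w (h2w w hw) (as_up v w hw hnw h2 a b hav)
    · obtain ⟨α, d', hα, hd', hdv, _⟩ := S1.bridge v _ hd0 ho
      have hm := locPoly_tw_odd v h2 h3 _ α d' hα hd' hdv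
      have h2w : ∀ w : HeightOneSpectrum (𝓞 F), w.asIdeal.under (𝓞 N) = v.asIdeal →
          (2 : 𝓞 F) ∉ w.asIdeal := by
        intro w hw hmem
        apply h2
        rw [← mem_under_iff v w hw, map_ofNat]
        exact hmem
      have hα' : algebraMap N F α ≠ 0 := by
        rwa [Ne, map_eq_zero]
      have hd'F : ((algebraMap (𝓞 N) (𝓞 F) d' : 𝓞 F) : F) =
          (((algebraMap (𝓞 N) (𝓞 F) a) ^ 2 + 4 * algebraMap (𝓞 N) (𝓞 F) b : 𝓞 F) : F) *
            (algebraMap N F α) ^ 2 := by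
        rw [← hmapd]
        have e1 : ((algebraMap (𝓞 N) (𝓞 F) d' : 𝓞 F) : F) = algebraMap N F (d' : N) := rfl
        have e2 : ((algebraMap (𝓞 N) (𝓞 F) (a ^ 2 + 4 * b) : 𝓞 F) : F) =
            algebraMap N F ((a ^ 2 + 4 * b : 𝓞 N) : N) := rfl
        rw [e1, e2, hd', map_mul, map_pow]
      have hdw : ∀ w : HeightOneSpectrum (𝓞 F), w.asIdeal.under (𝓞 N) = v.asIdeal →
          algebraMap (𝓞 N) (𝓞 F) d' ∉ w.asIdeal := by
        intro w hw hmem
        exact hdv ((mem_under_iff v w hw _).1 hmem)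
      have hup : ∀ w : HeightOneSpectrum (𝓞 F), w.asIdeal.under (𝓞 N) = v.asIdeal →
          nrm w = nrm v → (IsSquare (Ideal.Quotient.mk w.asIdeal (algebraMap (𝓞 N) (𝓞 F) d')) ↔
              IsSquare (Ideal.Quotient.mk v.asIdeal d')) := by
        intro w hw hnw
        constructor
        · rintro ⟨z', hz'⟩
          obtain ⟨z, rfl⟩ := Ideal.Quotient.mk_surjective z'
          obtain ⟨y, hy⟩ := exists_lift_of_nrm v w hw hnw z
          refine ⟨Ideal.Quotient.mk _ y, ?_⟩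
          rw [← map_mul, Ideal.Quotient.eq] at hz' ⊢
          rw [← mem_under_iff v w hw]
          have e : algebraMap (𝓞 N) (𝓞 F) (d' - y * y) =
              (algebraMap (𝓞 N) (𝓞 F) d' - z * z) +
              (z + algebraMap (𝓞 N) (𝓞 F) y) * (z - algebraMap (𝓞 N) (𝓞 F) y) := by
            rw [map_sub, map_mul]
            ring
          rw [e]
          exact Ideal.add_mem _ hz' (Ideal.mul_mem_left _ _ hy)
        · rintro ⟨z', hz'⟩
          obtain ⟨z, rfl⟩ := Ideal.Quotient.mk_surjective z'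
          refine ⟨Ideal.Quotient.mk _ (algebraMap (𝓞 N) (𝓞 F) z), ?_⟩
          rw [← map_mul, Ideal.Quotient.eq] at hz' ⊢
          have := (mem_under_iff v w hw _).2 hz'
          rwa [map_sub, map_mul] at this
      by_cases hs : IsSquare (Ideal.Quotient.mk v.asIdeal d')
      · refine ⟨1, fun x => ?_, Or.inl rfl, fun w hw hnw => ?_, fun w hw hnw => ?_⟩
        · rw [hm.1 hs, Int.cast_one, one_mul]
        · exact hχ.isChi.sq w (h2w w hw) _ _ hα' hd'F (hdw w hw) ((hup w hw hnw).2 hs)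
        · exact hχ.isChi.sq w (h2w w hw) _ _ hα' hd'F (hdw w hw) (sq_up v w hw hnw h2 d')
      · refine ⟨-1, fun x => ?_, Or.inr rfl, fun w hw hnw => ?_, fun w hw hnw => ?_⟩
        · rw [hm.2 hs x, Int.cast_neg, Int.cast_one, neg_one_mul]
        · exact hχ.isChi.nsq w (h2w w hw) _ _ hα' hd'F (hdw w hw)
            fun h5 => hs ((hup w hw hnw).1 h5)
        · exact hχ.isChi.sq w (h2w w hw) _ _ hα' hd'F (hdw w hw) (sq_up v w hw hnw h2 d')
  obtain ⟨ε, hε, hε1, hεs, hεi⟩ := key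
  rw [hε]
  rcases place_data hL hn v h3 with ⟨w, w', hprod, hnw, hnw', hpsi, hpoly⟩ |
    ⟨w, hprod, hnw, hpsi, hpoly⟩
  · rw [hprod, hpoly, psibX, psibX, chiI_place, chiI_place,
      hεs w.1 w.2 hnw, hεs w'.1 w'.2 hnw', hpsi, mul_inv]
    rw [nrm_eq, nrm_eq] at hnw hnw'
    rw [hnw, hnw', nrm_eq, mul_comm]
    congr 2 <;> ring
  · rw [hprod, hpoly, psibX, chiI_place, hεi w.1 w.2 hnw, hpsi]
    have hn2' : Ideal.absNorm w.1.asIdeal = nrm v ^ 2 := by rw [← nrm_eq]; exact hnw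
    have h8 : ((nrm v ^ 2 : ℕ) : ℂ) ^ (-s) = (nrm v : ℂ) ^ (-s) * (nrm v : ℂ) ^ (-s) := by
      rw [pow_two, Nat.cast_mul, Complex.natCast_mul_natCast_cpow]
    rw [hn2', h8]
    congr 1
    rcases hε1 with rfl | rfl <;> push_cast <;> ring

/-- The L-series of the twist over a field without `√-3`. -/
theorem LSeries_tw_N (hL : Module.finrank N F = 2)
    (hn : ∀ x : N, algebraMap N F x ≠ algebraMap K F om) (h : NoCube3 N) {a b : 𝓞 N}
    {χ : HeightOneSpectrum (𝓞 F) → ℤ}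
    (hχ : TwChi (algebraMap (𝓞 N) (𝓞 F) a) (algebraMap (𝓞 N) (𝓞 F) b) χ)
    (hodd : IsCoprime (a ^ 2 + 4 * b) 2) (s : ℂ) (hs : 2 < s.re) :
    (tw ((a ^ 2 + 4 * b : 𝓞 N) : N)).LSeries s = Lf (psibX F χ) s := by
  have hoddF : IsCoprime ((algebraMap (𝓞 N) (𝓞 F) a) ^ 2 + 4 * algebraMap (𝓞 N) (𝓞 F) b)
      (2 : 𝓞 F) := by
    have h1 := hodd.map (algebraMap (𝓞 N) (𝓞 F))
    rwa [map_add, map_mul, map_pow, map_ofNat, map_ofNat] at h1
  have hc := hχ.cases hoddF
  have h1 := (hasProd_Lf (psibX F χ) (psibX_one χ) (psibX_mul χ) (1 / 2) (by norm_num)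
    (norm_psibX_le hc) s (by linarith)).2
  have h2 := hasProd_over (F := N) (F' := F) _ _ h1
  have he := hasProd_fac (tw ((a ^ 2 + 4 * b : 𝓞 N) : N)) hs
  refine he.unique ?_
  have e : (fun v : HeightOneSpectrum (𝓞 N) => fac (tw ((a ^ 2 + 4 * b : 𝓞 N) : N)) v s) =
      fun v => ∏ w : Over F v,
        (1 - psibX F χ w.1.asIdeal * (Ideal.absNorm w.1.asIdeal : ℂ) ^ (-s))⁻¹ :=
    funext fun v => (euler_tw_B hL hn h hχ hodd v s).symm
  rw [e]
  exact h2

end

end Pool.Agent.Lib.MP_1a91b9_ntT.TW
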