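import Pool.Agent.Lib.MP_1a91b9_ntT.TW.Curve
import Pool.Agent.Lib.MP_1a91b9_nt.VcPoint

/-!
# Pts: finiteness of the group of points of the twist

PROOF. `WeierstrassCurve.Affine.Point.map` (or: the map `(X, Y) ↦ (f X, f Y)` on points, injective) embeds the points of `tw d` over `N` in the
points of `(tw d).map f = tw (f d) = tw (x ^ 2)` over `F'` (`f = algebraMap N F'`); `tw (x ^ 2)` and `E F'` differ by a variable change:
`exists_tw_scale (1 : F') x` gives `C • tw 1 = tw (1 * x ^ 2)` and `exists_twm` with `a = 1`, `b = 0` gives `C' • tw 1 = twm 1 0 = fermatCubic F' = E F'`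
(`x ≠ 0` since `d ≠ 0`). `exists_point_equiv` (VcPoint.lean) gives bijections of the sets of points. So
`Finite.of_injective`. (Points: `pointEquivOption` of VarChange.lean describes them as `Option {p // Nonsingular p.1 p.2}`, one can work with
`Affine.map_nonsingular`/`nonsingular_variableChange` only.)
-/

set_option autoImplicit false

namespace Pool.Agent.Lib.MP_1a91b9_ntT.TW

open WeierstrassCurve IsDedekindDomain NumberField Pool.Agent.Lib.MP_1a91b9_nt
open Pool.Agent.Lib.MP_1a91b9_ntT.S4 Polynomial

universe u

private noncomputable def ptsMap {N F' : Type*} [Field N] [Field F'] (f : N →+* F')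
    (W : WeierstrassCurve N) : W.toAffine.Point → (W.map f).toAffine.Point
  | .zero => .zero
  | .some X Y h => .some (f X) (f Y) ((Affine.map_nonsingular W.toAffine f.injective X Y).2 h)

private theorem ptsMap_injective {N F' : Type*} [Field N] [Field F'] (f : N →+* F')
    (W : WeierstrassCurve N) : Function.Injective (ptsMap f W) := by
  rintro (_ | ⟨x₁, y₁, h₁⟩) (_ | ⟨x₂, y₂, h₂⟩) h
  · rfl
  · exact absurd h (by simp [ptsMap])
  · exact absurd h (by simp [ptsMap])
  · simp only [ptsMap, Affine.Point.some.injEq] at h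
    obtain ⟨hx, hy⟩ := h
    have hx' := f.injective hx
    have hy' := f.injective hy
    subst hx'
    subst hy'
    rfl

/-- Finiteness of the points of the twist. -/
theorem finite_tw {N F' : Type*} [Field N] [CharZero N] [Field F'] [CharZero F'] [Algebra N F']
    (d : N) (hd : d ≠ 0) (x : F') (hx : x ^ 2 = algebraMap N F' d)
    (h : Finite (E F').toAffine.Point) : Finite (tw d).toAffine.Point := by
  have hx0 : x ≠ 0 := by
    rintro rfl
    apply hd
    have h1 : algebraMap N F' d = 0 := by
      rw [← hx]
      simp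
    exact (map_eq_zero _).1 h1
  obtain ⟨C, hC⟩ := exists_twm (two_ne_zero : (2 : F') ≠ 0) 1 0
  obtain ⟨C', hC'⟩ := exists_tw_scale (1 : F') x hx0
  have h1 : twm (1 : F') 0 = E F' := by
    ext <;> simp [twm, E]
  have h2 : tw ((1 : F') ^ 2 + 4 * 0) = tw 1 := by
    congr 1
    ring
  rw [h2, h1] at hC
  rw [← hC] at h
  have h3 : Finite (tw (1 : F')).toAffine.Point := Finite.of_surjective _ (vcFun_bijective (tw (1 : F')) C).2
  have h4 : Finite (C' • tw (1 : F')).toAffine.Point := Finite.of_injective _ (vcFun_bijective (tw (1 : F')) C').1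
  rw [hC', one_mul, hx, ← tw_map] at h4
  exact Finite.of_injective _ (ptsMap_injective (algebraMap N F') (tw d))

end Pool.Agent.Lib.MP_1a91b9_ntT.TW
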