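import Pool.Agent.Lib.MP_1a91b9_ntT.TW.FacN
import Pool.Agent.Lib.MP_1a91b9_ntT.TW.Pts
import Pool.Agent.Lib.MP_1a91b9_ntT.S4.TwistL

/-!
# Loc: the local polynomials of all curves isomorphic to the twist
-/

set_option autoImplicit false

namespace Pool.Agent.Lib.MP_1a91b9_ntT.TW

open WeierstrassCurve IsDedekindDomain NumberField Pool.Agent.Lib.MP_1a91b9_nt
open Pool.Agent.Lib.MP_1a91b9_ntT.S4 Polynomial

universe u

section local_field

/-- The coefficient `b₆` of a model of the twist. -/
theorem loc_b₆ {K : Type*} [Field K] (C : WeierstrassCurve.VariableChange K) (d : K) :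
    (C • tw d).b₆ = ((C.u⁻¹ : Kˣ) : K) ^ 6 * (64 * d ^ 3 + 4 * C.r ^ 3) := by
  rw [WeierstrassCurve.variableChange_b₆]
  simp only [tw, WeierstrassCurve.b₂, WeierstrassCurve.b₄, WeierstrassCurve.b₆]
  ring

/-- The minimal model of a curve isomorphic to the twist. -/
theorem loc_minimal (R : Type*) [CommRing R] [IsDomain R]
    [IsDiscreteValuationRing R] {K : Type*} [Field K] [Algebra R K]
    [IsFractionRing R K] (W : WeierstrassCurve K) (d : K)
    (C₀ : WeierstrassCurve.VariableChange K) (h₀ : C₀ • W = tw d) :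
    ∃ C : WeierstrassCurve.VariableChange K, W.minimal R = C • tw d := by
  obtain ⟨C, hC⟩ : ∃ C : WeierstrassCurve.VariableChange K, W.minimal R = C • W := ⟨_, rfl⟩
  refine ⟨C * C₀⁻¹, ?_⟩
  rw [hC, ← h₀, mul_smul, inv_smul_smul]

/-- No good reduction: the local polynomial is `1`. -/
theorem loc_of_not_good (R : Type*) [CommRing R] [IsDomain R]
    [IsDiscreteValuationRing R] {K : Type*} [Field K] [Algebra R K]
    [IsFractionRing R K] (W : WeierstrassCurve K) (d : K)
    (C₀ : WeierstrassCurve.VariableChange K) (h₀ : C₀ • W = tw d)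
    (hgood : ¬ (W.minimal R).HasGoodReduction R) :
    W.localPolynomial R = 1 := by
  classical
  obtain ⟨C, hC⟩ := loc_minimal R W d C₀ h₀
  have hc4 : (W.minimal R).c₄ = 0 := by
    rw [hC, WeierstrassCurve.variableChange_c₄, tw_c₄, mul_zero]
  have hmult : ¬ (W.minimal R).HasMultiplicativeReduction R := by
    intro hm
    have := hm.multiplicativeReduction
    rw [hc4, map_zero] at this
    exact zero_ne_one this
  have hsplit : ¬ (W.minimal R).HasSplitMultiplicativeReduction R := fun hm =>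
    hmult hm.toHasMultiplicativeReduction
  unfold WeierstrassCurve.localPolynomial
  simp only [hgood, hmult, hsplit, if_false]

/-- The valuation of the discriminant. -/
theorem loc_disc {K Γ : Type*} [Field K] [LinearOrderedCommGroupWithZero Γ]
    (v : Valuation K Γ) (d u : K) (hu : u ≠ 0)
    (h1 : v (u⁻¹ ^ 12 * -(2 ^ 12 * 3 ^ 3 * d ^ 6)) = 1) :
    v u ^ 12 = v 2 ^ 12 * v 3 ^ 3 * v d ^ 6 := by
  have hvu : v u ≠ 0 := (Valuation.ne_zero_iff v).mpr hu
  have e : v (u⁻¹ ^ 12 * -(2 ^ 12 * 3 ^ 3 * d ^ 6)) =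
      (v u ^ 12)⁻¹ * (v 2 ^ 12 * v 3 ^ 3 * v d ^ 6) := by
    rw [map_mul, map_pow, map_inv₀, Valuation.map_neg, map_mul, map_mul, map_pow, map_pow,
      map_pow, inv_pow]
  rw [e] at h1
  rw [inv_mul_eq_one₀ (pow_ne_zero _ hvu)] at h1
  exact h1

/-- Additive reduction above `3`. -/
theorem localPolynomial_iso_three (R : Type*) [CommRing R] [IsDomain R]
    [IsDiscreteValuationRing R] {K : Type*} [Field K] [CharZero K] [Algebra R K]
    [IsFractionRing R K] (W : WeierstrassCurve K) (d : K) (hd : d ≠ 0)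
    (C₀ : WeierstrassCurve.VariableChange K) (h₀ : C₀ • W = tw d)
    (h3 : (IsDiscreteValuationRing.maximalIdeal R).valuation K 3 < 1)
    (h : ∀ t : K, (IsDiscreteValuationRing.maximalIdeal R).valuation K t ^ 3 ≠
      (IsDiscreteValuationRing.maximalIdeal R).valuation K 3) :
    W.localPolynomial R = 1 := by
  classical
  set v := (IsDiscreteValuationRing.maximalIdeal R).valuation K with hv
  refine loc_of_not_good R W d C₀ h₀ fun hg => ?_
  obtain ⟨C, hC⟩ := loc_minimal R W d C₀ h₀
  have h1 := hg.goodReduction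
  rw [hC, WeierstrassCurve.variableChange_Δ, tw_Δ] at h1
  obtain ⟨b, hb⟩ : ∃ b : R, algebraMap R K b = (W.minimal R).b₆ := by
    refine ⟨(W.minimal R |>.integralModel R).b₆, ?_⟩
    rw [← WeierstrassCurve.map_b₆]
    congr 1
    exact WeierstrassCurve.baseChange_integralModel_eq R _
  have h2 : v (W.minimal R).b₆ ≤ 1 := by
    rw [← hb]; exact HeightOneSpectrum.valuation_le_one _ _
  rw [hC, loc_b₆] at h2
  set u : K := (C.u : K) with hu
  have hu0 : u ≠ 0 := C.u.ne_zero
  have hui : ((C.u⁻¹ : Kˣ) : K) = u⁻¹ := by rw [hu, Units.val_inv_eq_inv_val]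
  rw [hui] at h1 h2
  have hvu : v u ≠ 0 := (Valuation.ne_zero_iff v).mpr hu0
  have hvupos : 0 < v u := zero_lt_iff.mpr hvu
  have hvd : v d ≠ 0 := (Valuation.ne_zero_iff v).mpr hd
  have hvdpos : 0 < v d := zero_lt_iff.mpr hvd
  have hv4 : v 4 = 1 := by
    have e : (4 : K) = 1 + 3 := by norm_num
    rw [e]
    exact Valuation.map_one_add_of_lt v h3
  have hv2 : v 2 = 1 := by
    have e : (4 : K) = 2 ^ 2 := by norm_num
    rw [e, map_pow] at hv4
    exact (pow_eq_one_iff_of_nonneg (zero_le) (by norm_num)).1 hv4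
  have h12 := loc_disc v d u hu0 h1
  rw [hv2, one_pow, one_mul] at h12
  have h4 : v u ^ 4 = v 3 * v d ^ 2 := by
    have e : (v u ^ 4) ^ 3 = (v 3 * v d ^ 2) ^ 3 := by
      rw [← pow_mul, mul_pow, ← pow_mul]; exact h12
    exact (pow_left_inj₀ (zero_le) (zero_le) (by norm_num)).mp e
  set r' : K := C.r / (4 * d) with hr'
  have h40 : (4 : K) ≠ 0 := by norm_num
  have er : 64 * d ^ 3 + 4 * C.r ^ 3 = 64 * d ^ 3 * (1 + 4 * r' ^ 3) := by
    rw [hr']
    field_simp
    ring
  have hv64 : v 64 = 1 := by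
    have e : (64 : K) = 4 ^ 3 := by norm_num
    rw [e, map_pow, hv4, one_pow]
  have h5 : v (1 + 4 * r' ^ 3) ≤ (v u ^ 2 * (v d)⁻¹) ^ 3 := by
    rw [er, map_mul, map_mul, map_mul, map_pow, map_pow, map_inv₀, inv_pow,
      inv_mul_le_iff₀ (pow_pos hvupos 6), mul_one, hv64, one_mul] at h2
    rw [mul_pow, inv_pow, ← pow_mul, ← div_eq_mul_inv, le_div_iff₀ (pow_pos hvdpos 3), mul_comm]
    exact h2
  have h6 := u4_val v h3 h (v u ^ 2 * (v d)⁻¹) (by
    rw [mul_pow, ← pow_mul, h4, inv_pow, mul_assoc, mul_inv_cancel₀ (pow_ne_zero _ hvd), mul_one])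
    r' h5
  exact (Valuation.ne_zero_iff v).mpr (by norm_num : (3 : K) ≠ 0) h6

/-- Additive reduction at the places of odd order. -/
theorem localPolynomial_iso_odd (R : Type*) [CommRing R] [IsDomain R]
    [IsDiscreteValuationRing R] {K : Type*} [Field K] [CharZero K] [Algebra R K]
    [IsFractionRing R K] (W : WeierstrassCurve K) (d : K)
    (C₀ : WeierstrassCurve.VariableChange K) (h₀ : C₀ • W = tw d)
    (h2 : (IsDiscreteValuationRing.maximalIdeal R).valuation K 2 = 1)
    (h3 : (IsDiscreteValuationRing.maximalIdeal R).valuation K 3 = 1)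
    (h : ∀ t : K, (IsDiscreteValuationRing.maximalIdeal R).valuation K t ^ 2 ≠
      (IsDiscreteValuationRing.maximalIdeal R).valuation K d) :
    W.localPolynomial R = 1 := by
  classical
  set v := (IsDiscreteValuationRing.maximalIdeal R).valuation K with hv
  refine loc_of_not_good R W d C₀ h₀ fun hg => ?_
  obtain ⟨C, hC⟩ := loc_minimal R W d C₀ h₀
  have h1 := hg.goodReduction
  rw [hC, WeierstrassCurve.variableChange_Δ, tw_Δ] at h1
  set u : K := (C.u : K) with hu
  have hu0 : u ≠ 0 := C.u.ne_zero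
  have hui : ((C.u⁻¹ : Kˣ) : K) = u⁻¹ := by rw [hu, Units.val_inv_eq_inv_val]
  rw [hui] at h1
  have h12 := loc_disc v d u hu0 h1
  rw [h2, h3, one_pow, one_pow, one_mul, one_mul] at h12
  refine h u ?_
  have e : (v u ^ 2) ^ 6 = v d ^ 6 := by
    rw [← pow_mul]; exact h12
  exact (pow_left_inj₀ (zero_le) (zero_le) (by norm_num)).mp e

end local_field

section places

/-- The places above `3`. -/
theorem locPoly_iso_three {N : Type*} [Field N] [NumberField N] (W : WeierstrassCurve N)
    (d : N) (hd : d ≠ 0) (C : WeierstrassCurve.VariableChange N) (hC : C • W = tw d)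
    (h : NoCube3 N) (v : HeightOneSpectrum (𝓞 N)) (h3 : (3 : 𝓞 N) ∈ v.asIdeal) :
    locPoly W v = 1 := by
  have hch : CharZero (v.adicCompletion N) :=
    charZero_of_injective_algebraMap (algebraMap N (v.adicCompletion N)).injective
  have e : (tw d).baseChange (v.adicCompletion N) = tw (algebraMap N (v.adicCompletion N) d) :=
    tw_map _ _
  have eC : (C.map (algebraMap N (v.adicCompletion N))) • (W.baseChange (v.adicCompletion N)) =
      tw (algebraMap N (v.adicCompletion N) d) := by
    rw [← e, ← hC]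
    exact (WeierstrassCurve.map_variableChange _ _ _)
  unfold locPoly
  have hval3 : (Valued.v (3 : v.adicCompletion N) : (WithZero (Multiplicative ℤ))) = v.valuation N 3 := by
    rw [← valued_algebraMap v 3, map_ofNat (algebraMap N (v.adicCompletion N)) 3]
  refine localPolynomial_iso_three (v.adicCompletionIntegers N) _ _ ?_ _ eC ?_ ?_
  · exact (map_ne_zero_iff _ (algebraMap N (v.adicCompletion N)).injective).mpr hd
  · have e3 : (3 : v.adicCompletion N) =
        algebraMap (v.adicCompletionIntegers N) (v.adicCompletion N) 3 :=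
      (map_ofNat (algebraMap (v.adicCompletionIntegers N) (v.adicCompletion N)) 3).symm
    rw [e3, HeightOneSpectrum.valuation_lt_one_iff_mem]
    change (3 : v.adicCompletionIntegers N) ∈ IsLocalRing.maximalIdeal _
    rw [← IsLocalRing.residue_eq_zero_iff, residue_eq_zero_iff_valued]
    change Valued.v (3 : v.adicCompletion N) < 1
    rw [hval3]
    have := (v.valuation_lt_one_iff_mem (K := N) (3 : 𝓞 N)).mpr h3
    have e : ((3 : 𝓞 N) : N) = 3 := map_ofNat (algebraMap (𝓞 N) N) 3
    exact (congrArg (fun z => v.valuation N z < 1) e).mp this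
  · intro t ht
    have h30 : (3 : v.adicCompletion N) ≠ 0 := by norm_num
    have h1 := valued_eq_one v (t ^ 3 / 3) (by
      rw [map_div₀, map_pow, ht, div_self]
      exact (Valuation.ne_zero_iff _).mpr h30)
    have hne : (Valued.v (3 : v.adicCompletion N) : (WithZero (Multiplicative ℤ))) ≠ 0 :=
      (Valuation.ne_zero_iff _).mpr h30
    rw [map_div₀, map_pow, div_eq_one_iff_eq hne, hval3] at h1
    exact h v h3 _ h1

/-- The places of odd order. -/
theorem locPoly_iso_oddAt {N : Type*} [Field N] [NumberField N] (W : WeierstrassCurve N)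
    (δ : 𝓞 N) (C : WeierstrassCurve.VariableChange N) (hC : C • W = tw (δ : N))
    (v : HeightOneSpectrum (𝓞 N)) (h2 : (2 : 𝓞 N) ∉ v.asIdeal) (h3 : (3 : 𝓞 N) ∉ v.asIdeal)
    (h : OddAt v δ) : locPoly W v = 1 := by
  have hδ : δ ≠ 0 := by
    rintro rfl
    obtain ⟨k, -, hk⟩ := h
    exact hk (Ideal.zero_mem _)
  have hd : (δ : N) ≠ 0 := by
    intro h0
    exact hδ (RingOfIntegers.ext (by rw [h0]; rfl))
  have hch : CharZero (v.adicCompletion N) :=
    charZero_of_injective_algebraMap (algebraMap N (v.adicCompletion N)).injective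
  have e : (tw (δ : N)).baseChange (v.adicCompletion N) =
      tw (algebraMap N (v.adicCompletion N) (δ : N)) := tw_map _ _
  have eC : (C.map (algebraMap N (v.adicCompletion N))) • (W.baseChange (v.adicCompletion N)) =
      tw (algebraMap N (v.adicCompletion N) (δ : N)) := by
    rw [← e, ← hC]
    exact (WeierstrassCurve.map_variableChange _ _ _)
  unfold locPoly
  have hd' : algebraMap N (v.adicCompletion N) (δ : N) ≠ 0 :=
    (map_ne_zero_iff _ (algebraMap N (v.adicCompletion N)).injective).mpr hd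
  refine localPolynomial_iso_odd (v.adicCompletionIntegers N) _ _ _ eC ?_ ?_ ?_
  · have h := val_eq_one_of_notMem v (2 : 𝓞 N) h2
    have e2 : ((2 : 𝓞 N) : N) = 2 := map_ofNat (algebraMap (𝓞 N) N) 2
    have e2' : algebraMap N (v.adicCompletion N) ((2 : 𝓞 N) : N) = 2 := by
      rw [e2, map_ofNat]
    rw [e2'] at h
    exact h
  · have h := val_eq_one_of_notMem v (3 : 𝓞 N) h3
    have e2 : ((3 : 𝓞 N) : N) = 3 := map_ofNat (algebraMap (𝓞 N) N) 3
    have e2' : algebraMap N (v.adicCompletion N) ((3 : 𝓞 N) : N) = 3 := by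
      rw [e2, map_ofNat]
    rw [e2'] at h
    exact h
  · intro t ht
    have h1 := valued_eq_one v (t ^ 2 / algebraMap N (v.adicCompletion N) (δ : N)) (by
      rw [map_div₀, map_pow, ht, div_self]
      exact (Valuation.ne_zero_iff _).mpr hd')
    have hne : (Valued.v (algebraMap N (v.adicCompletion N) (δ : N)) : (WithZero (Multiplicative ℤ))) ≠ 0 :=
      (Valuation.ne_zero_iff _).mpr hd'
    rw [map_div₀, map_pow, div_eq_one_iff_eq hne, valued_algebraMap v (δ : N)] at h1
    obtain ⟨k, hk1, hk2⟩ := h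
    have hint := intVal_eq v δ (2 * k + 1) hk1 hk2
    rw [show v.valuation N (δ : N) = v.intValuation δ from v.valuation_of_algebraMap δ,
      hint] at h1
    set γ : (WithZero (Multiplicative ℤ)) := Valued.v t with hγ
    have hγ0 : γ ≠ 0 := by
      intro h0
      rw [h0, zero_pow (by norm_num)] at h1
      exact WithZero.exp_ne_zero h1.symm
    obtain ⟨n, hn⟩ : ∃ n : ℤ, γ = WithZero.exp n :=
      ⟨WithZero.log γ, (WithZero.exp_log hγ0).symm⟩
    rw [hn, ← WithZero.exp_nsmul, WithZero.exp_inj] at h1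
    simp at h1
    omega

/-- Isomorphic curves have the same local polynomial at a place with a model of good
reduction. -/
theorem locPoly_iso_good {N : Type u} [Field N] [NumberField N] (W W' : WeierstrassCurve N)
    (C C' : WeierstrassCurve.VariableChange N) (hC : C • W = W') (W₀ : WeierstrassCurve (𝓞 N))
    (hC' : C' • W' = W₀.map (algebraMap (𝓞 N) N)) (v : HeightOneSpectrum (𝓞 N))
    (hv : W₀.Δ ∉ v.asIdeal) : locPoly W v = locPoly W' v := by
  rw [lt_locPoly W (C' * C) W₀ (by rw [mul_smul, hC, hC']) v hv, lt_locPoly W' C' W₀ hC' v hv]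

theorem int_poly_ext {p q : ℤ[X]} (h : ∀ x : ℂ, aeval x p = aeval x q) : p = q := by
  apply Polynomial.map_injective (Int.castRingHom ℂ) Int.cast_injective
  apply Polynomial.funext
  intro x
  have h1 := h x
  rw [aeval_def, aeval_def, eval₂_eq_eval_map, eval₂_eq_eval_map] at h1
  exact h1

/-- The sign in the local polynomial. -/
theorem poly_of_sign {N : Type u} [Field N] [NumberField N] (v : HeightOneSpectrum (𝓞 N))
    (h3 : (3 : 𝓞 N) ∉ v.asIdeal) (p : ℤ[X]) (χ : ℤ)
    (h : (χ = 1 ∧ p = locPoly (E N) v) ∨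
      (χ = -1 ∧ ∀ x : ℂ, aeval x p = aeval (-x) (locPoly (E N) v))) :
    p = 1 - Polynomial.C (χ * aE v) * X + Polynomial.C (χ ^ 2 * (nrm v : ℤ)) * X ^ 2 := by
  have hE : locPoly (E N) v = 1 - Polynomial.C (aE v) * X + Polynomial.C (nrm v : ℤ) * X ^ 2 :=
    locPoly_model v h3
  rcases h with ⟨rfl, rfl⟩ | ⟨rfl, h⟩
  · rw [hE, one_mul, one_pow, one_mul]
  · apply int_poly_ext
    intro x
    rw [h x, hE, aeval_shape', aeval_shape']
    push_cast
    ring

/-- The local polynomials of the curves isomorphic to the twist. -/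
theorem twistLoc_of_twChi {N M : Type u} [Field N] [NumberField N] [Field M] [NumberField M]
    [Algebra N M] {a b : 𝓞 N} (hχ : TwChi a b (splitChar M))
    (hodd : IsCoprime (a ^ 2 + 4 * b) 2) (h : NoCube3 N) (W : WeierstrassCurve N)
    (C : WeierstrassCurve.VariableChange N)
    (hC : C • W = tw ((a ^ 2 + 4 * b : 𝓞 N) : N)) : TwistLoc M W := by
  intro v
  have hd0 : a ^ 2 + 4 * b ≠ 0 := ne_zero_of_odd hodd
  have hd0' : ((a ^ 2 + 4 * b : 𝓞 N) : N) ≠ 0 := by
    intro h0
    exact hd0 (RingOfIntegers.coe_injective (by rw [map_zero]; exact h0))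
  have hprime : v.asIdeal.IsPrime := v.isPrime
  refine ⟨fun h3 => locPoly_iso_three W _ hd0' C hC h v h3, fun h3 => ?_⟩
  by_cases ho : OddAt v (a ^ 2 + 4 * b)
  · have h2 := odd_coprime_two _ hodd v ho
    rw [locPoly_iso_oddAt W _ C hC v h2 h3 ho, hχ.isChi.odd v h2 ho]
    simp
  by_cases h2 : (2 : 𝓞 N) ∈ v.asIdeal
  · have hdv := not_mem_of_odd hodd v h2
    have hgood : locPoly W v = locPoly (tw ((a ^ 2 + 4 * b : 𝓞 N) : N)) v := by
      obtain ⟨C', hC'⟩ := exists_twm (two_ne_zero : (2 : N) ≠ 0) (a : N) (b : N)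
      have hcast : (((a ^ 2 + 4 * b : 𝓞 N)) : N) = (a : N) ^ 2 + 4 * (b : N) := by
        push_cast
        rfl
      refine locPoly_iso_good W _ C C' hC (twm a b) ?_ v ?_
      · rw [hcast, hC', twm_map]
      · rw [twm_Δ]
        intro hmem
        have h4 : (3 : 𝓞 N) ^ 3 * (a ^ 2 + 4 * b) ^ 6 ∈ v.asIdeal := by
          simpa using v.asIdeal.neg_mem hmem
        rcases hprime.mem_or_mem h4 with h5 | h5
        · exact h3 (hprime.mem_of_pow_mem _ h5)
        · exact hdv (hprime.mem_of_pow_mem _ h5)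
    have hm := locPoly_tw_two v h2 a b hdv
    apply poly_of_sign v h3
    rw [hgood]
    by_cases hc : ∃ c : 𝓞 N, c ^ 2 + a * c - b ∈ v.asIdeal
    · exact Or.inl ⟨hχ.dy1 v h2 hc, hm.1 hc⟩
    · exact Or.inr ⟨hχ.dy2 v h2 hc, hm.2 hc⟩
  · obtain ⟨α, d', hα, hd', hdv, _⟩ := S1.bridge v _ hd0 ho
    have hgood : locPoly W v = locPoly (tw ((a ^ 2 + 4 * b : 𝓞 N) : N)) v := by
      obtain ⟨C', hC'⟩ := exists_tw_scale ((a ^ 2 + 4 * b : 𝓞 N) : N) α hα
      refine locPoly_iso_good W _ C C' hC (tw d') ?_ v ?_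
      · rw [hC', tw_map, ← hd']
      · rw [tw_Δ]
        intro hmem
        have h4 : (2 : 𝓞 N) ^ 12 * 3 ^ 3 * d' ^ 6 ∈ v.asIdeal := by
          simpa using v.asIdeal.neg_mem hmem
        rcases hprime.mem_or_mem h4 with h5 | h5
        · rcases hprime.mem_or_mem h5 with h6 | h6
          · exact h2 (hprime.mem_of_pow_mem _ h6)
          · exact h3 (hprime.mem_of_pow_mem _ h6)
        · exact hdv (hprime.mem_of_pow_mem _ h5)
    have hm := locPoly_tw_odd v h2 h3 _ α d' hα hd' hdv
    apply poly_of_sign v h3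
    rw [hgood]
    by_cases hs : IsSquare (Ideal.Quotient.mk v.asIdeal d')
    · exact Or.inl ⟨hχ.isChi.sq v h2 α d' hα hd' hdv hs, hm.1 hs⟩
    · exact Or.inr ⟨hχ.isChi.nsq v h2 α d' hα hd' hdv hs, hm.2 hs⟩

/-- The same for `M = N(√d)`. -/
theorem twistLoc_iso {N M : Type u} [Field N] [NumberField N] [Field M] [NumberField M]
    [Algebra N M] (hM : Module.finrank N M = 2) (a b : 𝓞 N) (x : M)
    (hx : x ^ 2 = algebraMap N M ((a ^ 2 + 4 * b : 𝓞 N) : N))
    (hn : ¬ ∃ y : N, algebraMap N M y = x)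
    (hgen : ∀ z : M, ∃ a b : N, z = algebraMap N M a + algebraMap N M b * x)
    (hodd : IsCoprime (a ^ 2 + 4 * b) 2) (h : NoCube3 N) (W : WeierstrassCurve N)
    (C : WeierstrassCurve.VariableChange N)
    (hC : C • W = tw ((a ^ 2 + 4 * b : 𝓞 N) : N)) : TwistLoc M W :=
  twistLoc_of_twChi (twChi_splitChar hM a b x hx hn hgen hodd) hodd h W C hC

end places

section points

/-- The points over a larger field. -/
noncomputable def locMap {N F' : Type*} [Field N] [Field F'] (f : N →+* F')
    (W : WeierstrassCurve N) : W.toAffine.Point → (W.map f).toAffine.Point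
  | .zero => .zero
  | .some X Y h => .some (f X) (f Y) ((Affine.map_nonsingular W.toAffine f.injective X Y).2 h)

theorem locMap_injective {N F' : Type*} [Field N] [Field F'] (f : N →+* F')
    (W : WeierstrassCurve N) : Function.Injective (locMap f W) := by
  rintro (_ | ⟨x₁, y₁, h₁⟩) (_ | ⟨x₂, y₂, h₂⟩) h
  · rfl
  · exact absurd h (by simp [locMap])
  · exact absurd h (by simp [locMap])
  · simp only [locMap, Affine.Point.some.injEq] at h
    obtain ⟨hx, hy⟩ := h
    have hx' := f.injective hx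
    have hy' := f.injective hy
    subst hx'
    subst hy'
    rfl

/-- Finiteness of the points from finiteness over a larger field. -/
theorem finite_iso {N M : Type*} [Field N] [Field M] [Algebra N M] (W : WeierstrassCurve N)
    (C : WeierstrassCurve.VariableChange M) (hC : C • (W.baseChange M) = E M)
    (h : Finite (E M).toAffine.Point) : Finite W.toAffine.Point := by
  rw [← hC] at h
  have h3 : Finite (W.map (algebraMap N M)).toAffine.Point :=
    Finite.of_surjective _ (vcFun_bijective (W.baseChange M) C).2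
  exact Finite.of_injective _ (locMap_injective (algebraMap N M) W)

/-- Finiteness of the points of the curves isomorphic to the twist by `d`, `d` a square in `M`. -/
theorem finite_iso_tw {N M : Type*} [Field N] [CharZero N] [Field M] [CharZero M]
    [Algebra N M] (W : WeierstrassCurve N) (C : WeierstrassCurve.VariableChange N)
    (d : N) (hC : C • W = tw d) (hd : d ≠ 0) (x : M) (hx : x ^ 2 = algebraMap N M d)
    (h : Finite (E M).toAffine.Point) : Finite W.toAffine.Point := by
  have h1 := finite_tw d hd x hx h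
  rw [← hC] at h1
  exact Finite.of_surjective _ (vcFun_bijective W C).2

end points

end Pool.Agent.Lib.MP_1a91b9_ntT.TW
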