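import Pool.Agent.Lib.MP_1a91b9_ntT.TW.Main
import Pool.Agent.Lib.MP_1a91b9_ntT.TW.Loc

/-!
# The quadratic twists over the subfields of a field of the class
-/

set_option autoImplicit false

namespace Pool.Agent.Lib.MP_1a91b9_ntT.TW

open NumberField IsDedekindDomain
open Pool.Agent.Lib.MP_1a91b9_ntT.S4 Pool.Agent.Lib.MP_1a91b9_ntT.S7
open Pool.Agent.Lib.MP_1a91b9_ntT.S8 Pool.Agent.Lib.MP_1a91b9_nt

universe u

/-- All twists, continuation to `1/2 < Re s`. -/
theorem twist_half (N L M : Type u) [Field N] [NumberField N] [Field L] [NumberField L]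
    [Field M] [NumberField M] [Algebra N L] [Algebra L M] [IsGalois ℚ M] (n : ℕ)
    (hM : Module.finrank ℚ M = 2 ^ n) (hL : RamCond L) (d : N) (hd : d ≠ 0)
    (x : L) (hx : x ^ 2 = algebraMap N L d) :
    TwistGood (tw d) ∧ Finite (tw d).toAffine.Point := by
  refine ⟨?_, finite_twist N L M n hM hL d hd x hx⟩
  have hrN : RamCond N := fun p hp hp3 hd => hL p hp hp3 (hd.trans (discr_dvd_discr N L))
  let algNM : Algebra N M := ((algebraMap L M).comp (algebraMap N L)).toAlgebra
  have hT : Tower N := tower_of_galois N M n hM hrN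
  by_cases hy : ∃ y : N, algebraMap N L y = x
  · obtain ⟨y, rfl⟩ := hy
    have hdy : d = y ^ 2 := by
      apply (algebraMap N L).injective
      rw [← hx, map_pow]
    have hy0 : y ≠ 0 := by
      rintro rfl
      apply hd
      rw [hdy, zero_pow two_ne_zero]
    subst hdy
    obtain ⟨g, hg, h⟩ := good_square N hT y hy0
    exact ⟨g, hg.differentiableOn, h⟩
  · obtain ⟨N', _, _, _, δ, x', α, hδ, hx', hn, hgen, hα, hα2⟩ :=
      exists_adm N L M n hM hL d x hx hy
    obtain ⟨a, b, hab⟩ := hδ.sq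
    obtain ⟨C, hC⟩ := exists_tw_scale d α hα
    have hW : TwistLoc N' (tw d) := by
      subst hab
      refine twistLoc_iso (S4.finrank_step _ x' hx' hn hgen) a b x' hx' hn hgen hδ.odd
        (noCube3_towerQ N hT) (tw d) C ?_
      rw [hC, hα2]
    exact twist_core N N' hT δ hδ x' hx' hn hgen (tw d) hW

end Pool.Agent.Lib.MP_1a91b9_ntT.TW
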