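import Pool.Agent.Lib.MP_1a91b9_ntT.TW.Dy
import Pool.Agent.Lib.MP_1a91b9_ntT.S1.Bridge

/-!
# Inst: characters with the property `TwChi`
-/

set_option autoImplicit false

namespace Pool.Agent.Lib.MP_1a91b9_ntT.TW

open IsDedekindDomain NumberField Pool.Agent.Lib.MP_1a91b9_nt
open Pool.Agent.Lib.MP_1a91b9_ntT.S4 Polynomial WithZero

universe u

theorem not_mem_of_odd {F : Type*} [Field F] [NumberField F] {d : 𝓞 F} (hodd : IsCoprime d 2)
    (v : HeightOneSpectrum (𝓞 F)) (h2 : (2 : 𝓞 F) ∈ v.asIdeal) : d ∉ v.asIdeal := by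
  intro h
  obtain ⟨r, s, hrs⟩ := hodd
  apply v.isPrime.ne_top
  rw [Ideal.eq_top_iff_one, ← hrs]
  exact Ideal.add_mem _ (Ideal.mul_mem_left _ _ h) (Ideal.mul_mem_left _ _ h2)

theorem ne_zero_of_odd {F : Type*} [Field F] [NumberField F] {d : 𝓞 F} (hodd : IsCoprime d 2) :
    d ≠ 0 := by
  rintro rfl
  rw [isCoprime_zero_left] at hodd
  have h1 : Ideal.absNorm (Ideal.span {((2 : ℕ) : 𝓞 F)}) = 1 := by
    rw [Nat.cast_ofNat, Ideal.span_singleton_eq_top.mpr hodd, Ideal.absNorm_top]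
  rw [Ideal.absNorm_span_natCast, RingOfIntegers.rank] at h1
  have h2 : Module.finrank ℚ F ≠ 0 := Module.finrank_pos.ne'
  have h3 := Nat.one_lt_pow h2 (by norm_num : 1 < 2)
  omega

/-- The splitting character of `F(√d)`. -/
theorem twChi_splitChar {F F' : Type u} [Field F] [NumberField F] [Field F'] [NumberField F']
    [Algebra F F'] (hL : Module.finrank F F' = 2) (a b : 𝓞 F) (x : F')
    (hx : x ^ 2 = algebraMap F F' ((a ^ 2 + 4 * b : 𝓞 F) : F))
    (hn : ¬ ∃ y : F, algebraMap F F' y = x)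
    (hgen : ∀ z : F', ∃ a b : F, z = algebraMap F F' a + algebraMap F F' b * x)
    (hodd : IsCoprime (a ^ 2 + 4 * b) 2) : TwChi a b (splitChar F') := by
  refine ⟨isChi_splitChar hL _ x hx hn, fun v h2 hc => ?_, fun v h2 hc => ?_⟩
  · exact (splitChar_dy hL a b x hx hn hgen v h2 (not_mem_of_odd hodd v h2)).2 hc
  · refine (splitChar_dyadic hL _ a b rfl x hx hgen v (not_mem_of_odd hodd v h2)).resolve_left ?_
    intro h
    exact hc ((splitChar_dy hL a b x hx hn hgen v h2 (not_mem_of_odd hodd v h2)).1 h)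

theorem not_oddAt_sq {F : Type*} [Field F] [NumberField F] (v : HeightOneSpectrum (𝓞 F))
    (e : 𝓞 F) : ¬ OddAt v (e ^ 2) := by
  rintro ⟨k, h1, h2⟩
  have he : e ≠ 0 := by
    rintro rfl
    apply h2
    rw [zero_pow two_ne_zero]
    exact Ideal.zero_mem _
  obtain ⟨n, hn1, hn2⟩ := exists_ord v e he
  have h3 := intVal_eq v (e ^ 2) (2 * k + 1) h1 h2
  have h4 := intVal_eq v e n hn1 hn2
  rw [map_pow, h4, ← exp_nsmul, exp_inj] at h3
  simp at h3
  omega

/-- The trivial character, when `d` is a square. -/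
theorem twChi_one {F : Type*} [Field F] [NumberField F] (a b e : 𝓞 F)
    (he : a ^ 2 + 4 * b = e ^ 2) : TwChi a b fun _ => 1 := by
  refine ⟨⟨fun v _ ho => ?_, fun _ _ _ _ _ _ _ _ => rfl, fun v _ α d' hα hd' _ hs => ?_⟩,
    fun _ _ _ => rfl, fun v _ hc => ?_⟩
  · rw [he] at ho
    exact absurd ho (not_oddAt_sq v e)
  · exfalso
    apply hs
    have hint : IsIntegral ℤ ((e : F) * α) := by
      have h1 : IsIntegral ℤ (((e : F) * α) ^ 2) := by
        have h2 : ((e : F) * α) ^ 2 = (d' : F) := by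
          rw [hd', he, mul_pow]
          rfl
        rw [h2]
        exact d'.isIntegral_coe
      exact h1.of_pow two_pos
    refine ⟨Ideal.Quotient.mk v.asIdeal ⟨(e : F) * α, hint⟩, ?_⟩
    rw [← map_mul]
    congr 1
    apply RingOfIntegers.ext
    change (d' : F) = ((e : F) * α) * ((e : F) * α)
    rw [hd', he]
    change (e : F) ^ 2 * α ^ 2 = _
    ring
  · exfalso
    apply hc
    have hy : (((e : F) - a) / 2) ^ 2 + (a : F) * (((e : F) - a) / 2) - b = 0 := by
      have h1 : (a : F) ^ 2 + 4 * (b : F) = (e : F) ^ 2 := by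
        have h2 := congrArg (fun z : 𝓞 F => (z : F)) he
        have h3 : ((a ^ 2 + 4 * b : 𝓞 F) : F) = (a : F) ^ 2 + 4 * (b : F) := by
          have e4 : (a ^ 2 + 4 * b : 𝓞 F) = a ^ 2 + (b + b + (b + b)) := by ring
          rw [e4]
          push_cast
          ring
        have h4 : ((e ^ 2 : 𝓞 F) : F) = (e : F) ^ 2 := by push_cast; ring
        rw [← h3, ← h4]
        exact h2
      linear_combination (-(1 : F) / 4) * h1
    have hint : IsIntegral (𝓞 F) (((e : F) - a) / 2) := by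
      refine ⟨Polynomial.X ^ 2 + (Polynomial.C a * Polynomial.X - Polynomial.C b), ?_, ?_⟩
      · apply Polynomial.monic_X_pow_add
        compute_degree!
      · simp only [Polynomial.eval₂_add, Polynomial.eval₂_sub, Polynomial.eval₂_mul,
          Polynomial.eval₂_pow, Polynomial.eval₂_X, Polynomial.eval₂_C]
        rw [← hy]
        change _ + ((a : F) * _ - (b : F)) = _
        ring
    have hint' : IsIntegral ℤ (((e : F) - a) / 2) := isIntegral_trans _ hint
    let c : 𝓞 F := ⟨((e : F) - a) / 2, hint'⟩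
    have h0 : c ^ 2 + a * c - b = 0 := by
      apply RingOfIntegers.ext
      exact hy
    refine ⟨c, ?_⟩
    rw [h0]
    exact Ideal.zero_mem _

theorem TwChi.cases {F : Type*} [Field F] [NumberField F] {a b : 𝓞 F}
    {χ : HeightOneSpectrum (𝓞 F) → ℤ} (h : TwChi a b χ) (hodd : IsCoprime (a ^ 2 + 4 * b) 2)
    (v : HeightOneSpectrum (𝓞 F)) : χ v = 0 ∨ χ v = 1 ∨ χ v = -1 := by
  by_cases h2 : (2 : 𝓞 F) ∈ v.asIdeal
  · by_cases hc : ∃ c : 𝓞 F, c ^ 2 + a * c - b ∈ v.asIdeal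
    · exact Or.inr (Or.inl (h.dy1 v h2 hc))
    · exact Or.inr (Or.inr (h.dy2 v h2 hc))
  · by_cases ho : OddAt v (a ^ 2 + 4 * b)
    · exact Or.inl (h.isChi.odd v h2 ho)
    · obtain ⟨α, d', hα, hd', hdv, _⟩ := S1.bridge v _ (ne_zero_of_odd hodd) ho
      by_cases hs : IsSquare (Ideal.Quotient.mk v.asIdeal d')
      · exact Or.inr (Or.inl (h.isChi.sq v h2 α d' hα hd' hdv hs))
      · exact Or.inr (Or.inr (h.isChi.nsq v h2 α d' hα hd' hdv hs))

end Pool.Agent.Lib.MP_1a91b9_ntT.TW
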