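import Pool.Agent.Lib.MP_1a91b9_ntT.TW.Final
import Pool.Agent.Lib.MP_1a91b9_nt.TwistRank

/-!
# The curves which become isomorphic to `E` over an extension of degree a power of two
-/

set_option autoImplicit false

namespace Pool.Agent.Lib.MP_1a91b9_ntT.TW

open NumberField IsDedekindDomain Polynomial WeierstrassCurve
open Pool.Agent.Lib.MP_1a91b9_ntT.S4 Pool.Agent.Lib.MP_1a91b9_ntT.S7
open Pool.Agent.Lib.MP_1a91b9_ntT.S8 Pool.Agent.Lib.MP_1a91b9_nt

universe u

/-- a cube in an extension of degree a power of two is a cube -/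
theorem exists_cube {N L : Type*} [Field N] [Field L] [Algebra N L] [FiniteDimensional N L]
    (k : ℕ) (hk : Module.finrank N L = 2 ^ k) (t : N) (c : L) (hc : c ^ 3 = algebraMap N L t) :
    ∃ d : N, d ^ 3 = t := by
  by_contra hcon
  push Not at hcon
  have hirr : Irreducible (X ^ 3 - C t : N[X]) :=
    X_pow_sub_C_irreducible_of_prime Nat.prime_three fun b hb => hcon b hb
  have hmin : minpoly N c = X ^ 3 - C t := by
    refine (minpoly.eq_of_irreducible_of_monic hirr ?_ (monic_X_pow_sub_C t (by norm_num))).symm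
    rw [map_sub, map_pow, aeval_X, aeval_C, hc, sub_self]
  have hdeg : (minpoly N c).natDegree = 3 := by rw [hmin, natDegree_X_pow_sub_C]
  have hint : IsIntegral N c := Algebra.IsIntegral.isIntegral c
  have hdvd : 3 ∣ Module.finrank N L := by
    rw [← hdeg, ← IntermediateField.adjoin.finrank hint]
    exact ⟨_, (Module.finrank_mul_finrank N (IntermediateField.adjoin N {c}) L).symm⟩
  rw [hk] at hdvd
  have := Nat.prime_three.dvd_of_dvd_pow hdvd
  norm_num at this

/-- Curves which become isomorphic to `E` over `L` are the twists by elements of `N` which are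
squares in `L`. -/
theorem exists_tw {N L : Type*} [Field N] [CharZero N] [Field L] [CharZero L] [Algebra N L]
    [FiniteDimensional N L] (k : ℕ) (hk : Module.finrank N L = 2 ^ k)
    (W : WeierstrassCurve N) (C₀ : WeierstrassCurve.VariableChange L)
    (hC : C₀ • (W.baseChange L) = E L) :
    ∃ (d : N) (x : L) (D : WeierstrassCurve.VariableChange N), d ≠ 0 ∧
      x ^ 2 = algebraMap N L d ∧ D • W = tw d := by
  obtain ⟨D, hD⟩ := exists_short W
  -- the coefficient `A` is zero
  have hc4L : (W.baseChange L).c₄ = 0 := by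
    have h1 := congrArg WeierstrassCurve.c₄ hC
    rw [WeierstrassCurve.variableChange_c₄] at h1
    have h2 : (E L).c₄ = 0 := by
      simp only [E, WeierstrassCurve.c₄, WeierstrassCurve.b₂, WeierstrassCurve.b₄]
      ring
    rw [h2] at h1
    rcases mul_eq_zero.1 h1 with h | h
    · exact absurd h (pow_ne_zero 4 (Units.ne_zero _))
    · exact h
  have hc4 : W.c₄ = 0 := by
    apply (algebraMap N L).injective
    rw [map_zero, ← hc4L]
    exact (WeierstrassCurve.map_c₄ _ _).symm
  rw [hc4, neg_zero, zero_div] at hD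
  generalize hBdef : -W.c₆ / 864 = B at hD
  -- a variable change over `L`
  obtain ⟨C₁, hC₁⟩ := exists_iso_sq (1 : L) one_ne_zero
  rw [one_pow] at hC₁
  have hDL : (D.map (algebraMap N L)) • (W.baseChange L) =
      (⟨0, 0, 0, 0, algebraMap N L B⟩ : WeierstrassCurve L) := by
    have h1 : (D.map (algebraMap N L)) • (W.baseChange L) = (D • W).map (algebraMap N L) :=
      (WeierstrassCurve.map_variableChange _ _ _)
    rw [h1, hD]
    ext <;> simp
  obtain ⟨C₂, hC₂⟩ : ∃ C₂ : WeierstrassCurve.VariableChange L,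
      C₂ • (⟨0, 0, 0, 0, algebraMap N L B⟩ : WeierstrassCurve L) = tw 1 := by
    refine ⟨C₁⁻¹ * C₀ * (D.map (algebraMap N L))⁻¹, ?_⟩
    rw [← hDL, mul_smul, mul_smul, inv_smul_smul, hC, ← hC₁, inv_smul_smul]
  have hu : (C₂.u : L) ≠ 0 := C₂.u.ne_zero
  have hui : ((C₂.u⁻¹ : Lˣ) : L) = (C₂.u : L)⁻¹ := by simp
  have e1 := congrArg WeierstrassCurve.a₁ hC₂
  rw [WeierstrassCurve.variableChange_a₁, hui] at e1
  simp only [tw] at e1
  have hs : C₂.s = 0 := by
    have h1 : (C₂.u : L)⁻¹ * (0 + 2 * C₂.s) = 0 := e1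
    rcases mul_eq_zero.1 h1 with h | h
    · exact absurd h (inv_ne_zero hu)
    · have h2 : (2 : L) * C₂.s = 0 := by linear_combination h
      rcases mul_eq_zero.1 h2 with h | h
      · exact absurd h two_ne_zero
      · exact h
  have e2 := congrArg WeierstrassCurve.a₂ hC₂
  rw [WeierstrassCurve.variableChange_a₂, hui, hs] at e2
  simp only [tw] at e2
  have hr : C₂.r = 0 := by
    rcases mul_eq_zero.1 e2 with h | h
    · exact absurd h (pow_ne_zero 2 (inv_ne_zero hu))
    · have h2 : (3 : L) * C₂.r = 0 := by linear_combination h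
      rcases mul_eq_zero.1 h2 with h | h
      · norm_num at h
      · exact h
  have e3 := congrArg WeierstrassCurve.a₃ hC₂
  rw [WeierstrassCurve.variableChange_a₃, hui, hr] at e3
  simp only [tw] at e3
  have ht : C₂.t = 0 := by
    rcases mul_eq_zero.1 e3 with h | h
    · exact absurd h (pow_ne_zero 3 (inv_ne_zero hu))
    · have h2 : (2 : L) * C₂.t = 0 := by linear_combination h
      rcases mul_eq_zero.1 h2 with h | h
      · exact absurd h two_ne_zero
      · exact h
  have e6 := congrArg WeierstrassCurve.a₆ hC₂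
  rw [WeierstrassCurve.variableChange_a₆, hui, hr, ht] at e6
  simp only [tw] at e6
  set u : L := (C₂.u : L) with hudef
  have hB : algebraMap N L B = 16 * u ^ 6 := by
    have h1 : u⁻¹ ^ 6 * algebraMap N L B = 16 := by linear_combination e6
    have h2 : algebraMap N L B = u ^ 6 * (u⁻¹ ^ 6 * algebraMap N L B) := by
      rw [← mul_assoc, ← mul_pow, mul_inv_cancel₀ hu, one_pow, one_mul]
    rw [h2, h1, mul_comm]
  have h16 : (16 : N) ≠ 0 := by norm_num
  obtain ⟨d, hd⟩ := exists_cube k hk (B / 16) (u ^ 2) (by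
    rw [map_div₀, hB, map_ofNat]
    field_simp)
  have hd3 : algebraMap N L d ^ 3 = u ^ 6 := by
    rw [← map_pow, hd, map_div₀, hB, map_ofNat]
    field_simp
  have hd0 : d ≠ 0 := by
    rintro rfl
    rw [map_zero, zero_pow three_ne_zero] at hd3
    exact pow_ne_zero 6 hu hd3.symm
  have hdL : algebraMap N L d ≠ 0 := by
    rw [Ne, map_eq_zero]; exact hd0
  refine ⟨d, (algebraMap N L d / u ^ 2) ^ 2 * u, D, hd0, ?_, ?_⟩
  · have h1 : ((algebraMap N L d / u ^ 2) ^ 2 * u) ^ 2 =
        algebraMap N L d * (algebraMap N L d ^ 3 / u ^ 6) := by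
      field_simp
    rw [h1, hd3, div_self (pow_ne_zero 6 hu), mul_one]
  · rw [hD]
    have h1 : 16 * d ^ 3 = B := by
      rw [hd]
      field_simp
    ext <;> simp [tw, h1]

/-- The reduction of the general case. -/
theorem reduction (N L M : Type u) [Field N] [NumberField N] [Field L] [NumberField L]
    [Field M] [NumberField M] [Algebra N L] [Algebra L M] [IsGalois ℚ M] (n : ℕ)
    (hM : Module.finrank ℚ M = 2 ^ n) (hL : RamCond L) (W : WeierstrassCurve N)
    (C : WeierstrassCurve.VariableChange L) (hC : C • (W.baseChange L) = E L) :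
    Tower N ∧ Finite W.toAffine.Point ∧ ((∀ v, locPoly W v = locPoly (E N) v) ∨
      ∃ (N' : Type u) (_ : Field N') (_ : NumberField N') (_ : Algebra N N') (δ : 𝓞 N) (x' : N'),
        Adm N δ ∧ x' ^ 2 = algebraMap N N' δ ∧ (¬ ∃ y : N, algebraMap N N' y = x') ∧
        (∀ z : N', ∃ a b : N, z = algebraMap N N' a + algebraMap N N' b * x') ∧
        TwistLoc N' W) := by
  have hrN : RamCond N := fun p hp hp3 hd => hL p hp hp3 (hd.trans (discr_dvd_discr N L))
  have hT : Tower N := by
    let algNM : Algebra N M := ((algebraMap L M).comp (algebraMap N L)).toAlgebra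
    exact tower_of_galois N M n hM hrN
  have hNC := noCube3_towerQ N hT
  refine ⟨hT, finite_iso W C hC (thmB L (tower_of_galois L M n hM hL)).2, ?_⟩
  -- the degree of `L` over `N`
  obtain ⟨k, hk⟩ : ∃ k : ℕ, Module.finrank N L = 2 ^ k := by
    have h1 := Module.finrank_mul_finrank ℚ N L
    have h2 := Module.finrank_mul_finrank ℚ L M
    have h3 : Module.finrank N L ∣ 2 ^ n := by
      rw [← hM, ← h2, ← h1]
      exact ⟨Module.finrank ℚ N * Module.finrank L M, by ring⟩
    obtain ⟨k, -, hk⟩ := (Nat.dvd_prime_pow Nat.prime_two).1 h3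
    exact ⟨k, hk⟩
  obtain ⟨d, x, D, hd, hx, hD⟩ := exists_tw k hk W C hC
  by_cases hy : ∃ y : N, algebraMap N L y = x
  · left
    obtain ⟨y, rfl⟩ := hy
    have hdy : d = y ^ 2 := by
      apply (algebraMap N L).injective
      rw [← hx, map_pow]
    have hy0 : y ≠ 0 := by
      rintro rfl
      apply hd
      rw [hdy, zero_pow two_ne_zero]
    subst hdy
    obtain ⟨D', hD'⟩ := exists_iso_sq y hy0
    intro v
    by_cases h3 : (3 : 𝓞 N) ∈ v.asIdeal
    · rw [E_eq, locPoly_fermatCubic_three v h3 (hNC v h3),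
        locPoly_iso_three W (y ^ 2) (pow_ne_zero 2 hy0) D hD hNC v h3]
    · exact locPoly_of_iso W (D' * D) (by rw [mul_smul, hD, hD']) v h3
  · right
    obtain ⟨N', i1, i2, i3, δ, x', α, hδ, hx', hn, hgen, hα, hα2⟩ :=
      exists_adm N L M n hM hL d x hx hy
    obtain ⟨a, b, hab⟩ := hδ.sq
    obtain ⟨C', hC'⟩ := exists_tw_scale d α hα
    refine ⟨N', i1, i2, i3, δ, x', hδ, hx', hn, hgen, ?_⟩
    subst hab
    refine twistLoc_iso (S4.finrank_step _ x' hx' hn hgen) a b x' hx' hn hgen hδ.odd hNC W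
      (C' * D) ?_
    rw [mul_smul, hD, hC', hα2]

/-- All curves which become isomorphic to `E` over `L`, continuation to `1/2 < Re s`. -/
theorem iso_half (N L M : Type u) [Field N] [NumberField N] [Field L] [NumberField L]
    [Field M] [NumberField M] [Algebra N L] [Algebra L M] [IsGalois ℚ M] (n : ℕ)
    (hM : Module.finrank ℚ M = 2 ^ n) (hL : RamCond L) (W : WeierstrassCurve N)
    (C : WeierstrassCurve.VariableChange L) (hC : C • (W.baseChange L) = E L) :
    TwistGood W ∧ Finite W.toAffine.Point := by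
  obtain ⟨hT, hfin, h | ⟨N', _, _, _, δ, x', hδ, hx', hn, hgen, hW⟩⟩ :=
    reduction N L M n hM hL W C hC
  · refine ⟨?_, hfin⟩
    obtain ⟨⟨g, hg, hg2, hg1⟩, -⟩ := thmB N hT
    refine ⟨g, hg.differentiableOn, fun s hs => ?_, hg1⟩
    rw [LSeries_congr_loc _ _ h]
    exact half_tower N hT hg hg2 s hs
  · exact ⟨twist_core N N' hT δ hδ x' hx' hn hgen W hW, hfin⟩

end Pool.Agent.Lib.MP_1a91b9_ntT.TW
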