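import Pool.Agent.Lib.MP_1a91b9_ntT.TW.Core
import Pool.Agent.Lib.MP_1a91b9_ntT.TW.Pts
import Pool.Agent.Lib.MP_1a91b9_ntT.TW.Places
import Pool.Agent.Lib.MP_1a91b9_nt.LocalTwist
import Pool.Agent.Lib.MP_1a91b9_ntT.S8.Chain

/-!
# All quadratic twists which become isomorphic over a field of the class
-/

set_option autoImplicit false

namespace Pool.Agent.Lib.MP_1a91b9_ntT.TW

open NumberField IsDedekindDomain Polynomial WeierstrassCurve
open Pool.Agent.Lib.MP_1a91b9_ntT.S4 Pool.Agent.Lib.MP_1a91b9_ntT.S7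
open Pool.Agent.Lib.MP_1a91b9_ntT.S8 Pool.Agent.Lib.MP_1a91b9_nt

universe u

/-- the property `NC` for a subfield of a Galois extension of degree a power of two -/
theorem nc_of_galois (F M : Type u) [Field F] [NumberField F] [Field M] [NumberField M]
    [Algebra F M] [IsGalois ℚ M] (n : ℕ) (hM : Module.finrank ℚ M = 2 ^ n) (hF : RamCond F) :
    NC F := by
  let f : F →ₐ[ℚ] M := (algebraMap F M).toRatAlgHom
  let e : F ≃ₐ[ℚ] f.fieldRange := AlgEquiv.ofInjectiveField f
  have hd : discr F = discr f.fieldRange := discr_eq_discr_of_algEquiv _ e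
  have hr : RamCond f.fieldRange := fun p hp hp3 hd' => hF p hp hp3 (by rw [hd]; exact hd')
  have hnc : NC f.fieldRange := (tower_inter n hM _ f.fieldRange rfl hr).2
  let alg : Algebra f.fieldRange F := e.symm.toRingEquiv.toRingHom.toAlgebra
  have h1 : Module.finrank f.fieldRange F ≤ 2 := by
    have hb : Function.Bijective (algebraMap f.fieldRange F) := e.symm.bijective
    have := LinearEquiv.finrank_eq (LinearEquiv.ofBijective (Algebra.linearMap f.fieldRange F) hb)
    rw [← this, Module.finrank_self]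
    norm_num
  exact hnc.up h1

/-- the case of a curve isomorphic to `E` -/
theorem locPoly_of_iso {N : Type u} [Field N] [NumberField N] (W : WeierstrassCurve N)
    (D : WeierstrassCurve.VariableChange N) (hD : D • W = E N) (v : HeightOneSpectrum (𝓞 N))
    (h3 : (3 : 𝓞 N) ∉ v.asIdeal) : locPoly W v = locPoly (E N) v := by
  have hΔ : (fermatCubic (𝓞 N)).Δ ∉ v.asIdeal := by
    rw [fermatCubic_delta]
    intro hmem
    apply h3
    have e : (-27 : 𝓞 N) = -(3 ^ 3) := by norm_num
    rw [e] at hmem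
    exact v.isPrime.mem_of_pow_mem 3 (by simpa using v.asIdeal.neg_mem hmem)
  have hE : E N = (fermatCubic (𝓞 N)).map (algebraMap (𝓞 N) N) := by
    rw [fermatCubic_map]
    rfl
  rw [lt_locPoly W D (fermatCubic (𝓞 N)) (by rw [hD, hE]) v hΔ,
    lt_locPoly (E N) 1 (fermatCubic (𝓞 N)) (by rw [one_smul, hE]) v hΔ]

theorem exists_iso_sq {N : Type u} [Field N] [CharZero N] (y : N) (hy : y ≠ 0) :
    ∃ D : WeierstrassCurve.VariableChange N, D • tw (y ^ 2) = E N := by
  obtain ⟨C, hC⟩ := exists_twm (two_ne_zero : (2 : N) ≠ 0) 1 0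
  obtain ⟨C', hC'⟩ := exists_tw_scale (1 : N) y hy
  have h1 : twm (1 : N) 0 = E N := by
    ext <;> simp [twm, E]
  have h2 : tw ((1 : N) ^ 2 + 4 * 0) = tw 1 := by
    congr 1
    ring
  rw [h2, h1] at hC
  rw [one_mul] at hC'
  exact ⟨C * C'⁻¹, by rw [mul_smul, ← hC', inv_smul_smul, hC]⟩

/-- squares -/
theorem good_square (N : Type u) [Field N] [NumberField N] (hT : Tower N) (y : N) (hy : y ≠ 0) :
    ∃ g : ℂ → ℂ, Differentiable ℂ g ∧ (∀ s : ℂ, 3 / 2 < s.re → g s = (tw (y ^ 2)).LSeries s) ∧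
      g 1 ≠ 0 := by
  obtain ⟨⟨g, hg, hg2, hg1⟩, -⟩ := thmB N hT
  obtain ⟨D, hD⟩ := exists_iso_sq y hy
  have hNC := noCube3_towerQ N hT
  have hloc : ∀ v, locPoly (tw (y ^ 2)) v = locPoly (E N) v := by
    intro v
    by_cases h3 : (3 : 𝓞 N) ∈ v.asIdeal
    · rw [E_eq, locPoly_fermatCubic_three v h3 (hNC v h3),
        locPoly_tw_three (y ^ 2) (pow_ne_zero 2 hy) hNC v h3]
    · exact locPoly_of_iso _ D hD v h3
  refine ⟨g, hg, fun s hs => ?_, hg1⟩
  rw [LSeries_congr_loc _ _ hloc]
  exact half_tower N hT hg hg2 s hs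

/-- two square roots which generate the same quadratic extension -/
theorem sqrt_ratio {N N' : Type*} [Field N] [CharZero N] [Field N'] [Algebra N N'] (d : N)
    (x : N') (hx : x ^ 2 = algebraMap N N' d) (hnx : ¬ ∃ y : N, algebraMap N N' y = x)
    (δ : N) (x' : N') (hx' : x' ^ 2 = algebraMap N N' δ)
    (hn : ¬ ∃ y : N, algebraMap N N' y = x')
    (hgen : ∀ z : N', ∃ a b : N, z = algebraMap N N' a + algebraMap N N' b * x') :
    ∃ α : N, α ≠ 0 ∧ δ = d * α ^ 2 := by
  obtain ⟨a, b, hab⟩ := hgen x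
  have h1 : algebraMap N N' (d - (a ^ 2 + b ^ 2 * δ)) = algebraMap N N' (2 * a * b) * x' := by
    simp only [map_sub, map_add, map_mul, map_pow, map_ofNat]
    rw [← hx, ← hx', hab]
    ring
  have hb : b ≠ 0 := by
    rintro rfl
    apply hnx
    exact ⟨a, by rw [hab, map_zero, zero_mul, add_zero]⟩
  have h2 : 2 * a * b = 0 := by
    by_contra h
    apply hn
    have h' : algebraMap N N' (2 * a * b) ≠ 0 := by
      rw [Ne, map_eq_zero]; exact h
    refine ⟨(d - (a ^ 2 + b ^ 2 * δ)) / (2 * a * b), ?_⟩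
    rw [map_div₀, div_eq_iff h', h1, mul_comm]
  have ha : a = 0 := by
    rcases mul_eq_zero.1 h2 with h | h
    · rcases mul_eq_zero.1 h with h | h
      · exact absurd h two_ne_zero
      · exact h
    · exact absurd h hb
  refine ⟨b⁻¹, inv_ne_zero hb, ?_⟩
  have h3 : algebraMap N N' d = algebraMap N N' (b ^ 2 * δ) := by
    rw [← hx, hab, ha, map_zero, zero_add, mul_pow, hx', map_mul, map_pow]
  have h4 := (algebraMap N N').injective h3
  rw [h4]
  field_simp

/-- the data for the twist by a non-square -/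
theorem exists_adm (N L M : Type u) [Field N] [NumberField N] [Field L] [NumberField L] [Field M]
    [NumberField M] [Algebra N L] [Algebra L M] [IsGalois ℚ M] (n : ℕ)
    (hM : Module.finrank ℚ M = 2 ^ n) (hL : RamCond L) (d : N)
    (x : L) (hx : x ^ 2 = algebraMap N L d) (hnx : ¬ ∃ y : N, algebraMap N L y = x) :
    ∃ (N' : Type u) (_ : Field N') (_ : NumberField N') (_ : Algebra N N') (δ : 𝓞 N) (x' : N')
      (α : N), Adm N δ ∧ x' ^ 2 = algebraMap N N' δ ∧ (¬ ∃ y : N, algebraMap N N' y = x') ∧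
      (∀ z : N', ∃ a b : N, z = algebraMap N N' a + algebraMap N N' b * x') ∧ α ≠ 0 ∧
      (δ : N) = d * α ^ 2 := by
  have hrN : RamCond N := fun p hp hp3 hd => hL p hp hp3 (hd.trans (discr_dvd_discr N L))
  let algNM : Algebra N M := ((algebraMap L M).comp (algebraMap N L)).toAlgebra
  have hNC : NC N := nc_of_galois N M n hM hrN
  let N' : IntermediateField N L := IntermediateField.adjoin N {x}
  have hxN' : x ∈ N' := IntermediateField.subset_adjoin N {x} rfl
  let x₀ : N' := ⟨x, hxN'⟩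
  have hx0 : x₀ ^ 2 = algebraMap N N' d := Subtype.ext hx
  have hnx0 : ¬ ∃ y : N, algebraMap N N' y = x₀ := by
    rintro ⟨y, hy⟩
    exact hnx ⟨y, congrArg Subtype.val hy⟩
  have hint : IsIntegral N x := by
    refine ⟨X ^ 2 - C d, monic_X_pow_sub_C d two_ne_zero, ?_⟩
    rw [eval₂_sub, eval₂_pow, eval₂_X, eval₂_C, hx, sub_self]
  have hdeg : Module.finrank N N' = 2 := by
    have h1 : Module.finrank N N' = (minpoly N x).natDegree :=
      IntermediateField.adjoin.finrank hint
    rw [h1]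
    have h2 : minpoly N x ∣ X ^ 2 - C d := by
      refine minpoly.dvd N x ?_
      rw [map_sub, map_pow, aeval_X, aeval_C, hx, sub_self]
    have h3 : (minpoly N x).natDegree ≤ 2 := by
      have := natDegree_le_of_dvd h2 (monic_X_pow_sub_C d two_ne_zero).ne_zero
      rwa [natDegree_X_pow_sub_C] at this
    have h4 := minpoly.natDegree_pos hint
    have h5 : (minpoly N x).natDegree ≠ 1 := by
      intro h
      have h6 := (minpoly.natDegree_eq_one_iff (A := N) (x := x)).mp h
      obtain ⟨y, hy⟩ := h6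
      exact hnx ⟨y, hy⟩
    omega
  have hrN' : RamCond N' := fun p hp hp3 hd => hL p hp hp3 (hd.trans (discr_dvd_discr N' L))
  obtain ⟨δ, x', hδ, hx', hn', hgen⟩ := adm_step hdeg hrN' hNC
  obtain ⟨α, hα, hα2⟩ := sqrt_ratio d x₀ hx0 hnx0 (δ : N) x' hx' hn' hgen
  exact ⟨N', inferInstance, inferInstance, inferInstance, δ, x', α, hδ, hx', hn', hgen, hα, hα2⟩

/-- The points of the twist. -/
theorem finite_twist (N L M : Type u) [Field N] [NumberField N] [Field L] [NumberField L]
    [Field M] [NumberField M] [Algebra N L] [Algebra L M] [IsGalois ℚ M] (n : ℕ)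
    (hM : Module.finrank ℚ M = 2 ^ n) (hL : RamCond L) (d : N) (hd : d ≠ 0)
    (x : L) (hx : x ^ 2 = algebraMap N L d) : Finite (tw d).toAffine.Point :=
  finite_tw d hd x hx (thmB L (tower_of_galois L M n hM hL)).2

end Pool.Agent.Lib.MP_1a91b9_ntT.TW
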